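import Mathlib

open scoped Topology
open Filter Set Metric

namespace Pool.Agent.V1170.Kan

/-- basic lower bound for one step -/
lemma step_lower (a z : ℂ) : ‖z‖ * (‖a‖ * ‖z‖ - 1 - ‖a‖) ≤ ‖z + a * (z * (1 - z))‖ := by
  have e : z + a * (z * (1 - z)) = z * (-(a * z - (1 + a))) := by ring
  rw [e, norm_mul, norm_neg]
  have := norm_sub_norm_le (a * z) (1 + a)
  have h4 : ‖1 + a‖ ≤ 1 + ‖a‖ := by
    have := norm_add_le (1 : ℂ) a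
    simpa using this
  rw [norm_mul] at this
  exact mul_le_mul_of_nonneg_left (by linarith) (norm_nonneg _)

lemma growth_step (a a' z : ℂ) (r : ℝ) (_hr0 : 0 ≤ r) (hr : r * ‖a‖ ≤ ‖a'‖)
    (h : 1 + ‖a‖ ≤ ‖a‖ * ‖z‖) :
    r * ((‖a‖ * ‖z‖) * (‖a‖ * ‖z‖ - 1 - ‖a‖)) ≤ ‖a'‖ * ‖z + a * (z * (1 - z))‖ := by
  have h1 := step_lower a z
  have h2 : 0 ≤ ‖z‖ * (‖a‖ * ‖z‖ - 1 - ‖a‖) := mul_nonneg (norm_nonneg _) (by linarith)
  calc r * ((‖a‖ * ‖z‖) * (‖a‖ * ‖z‖ - 1 - ‖a‖))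
      = (r * ‖a‖) * (‖z‖ * (‖a‖ * ‖z‖ - 1 - ‖a‖)) := by ring
    _ ≤ ‖a'‖ * ‖z + a * (z * (1 - z))‖ :=
        mul_le_mul hr h1 h2 (norm_nonneg _)

/-- image of the critical line -/
lemma line_image (a : ℂ) (ha : a ≠ 0) (τ : ℝ) :
    let zc := (1 + a) / (2 * a)
    (zc + (τ * Complex.I) * zc) + a * ((zc + (τ * Complex.I) * zc) *
      (1 - (zc + (τ * Complex.I) * zc))) = ((1 + τ ^ 2 : ℝ) : ℂ) * ((1 + a) ^ 2 / (4 * a)) := by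
  intro zc
  simp only [zc]
  have hI : Complex.I ^ 2 = -1 := Complex.I_sq
  push_cast
  field_simp
  ring_nf
  rw [hI]
  ring

section
variable (a : ℕ → ℂ) (g : ℕ → ℂ → ℂ) (hg0 : ∀ z, g 0 z = z)
  (hg : ∀ n z, g (n + 1) z = g n z + a n * (g n z * (1 - g n z)))

include hg0 hg

set_option linter.unusedSectionVars false

lemma g_one_line (ha : a 0 ≠ 0) (τ : ℝ) :
    g 1 ((1 + a 0) / (2 * a 0) + (τ * Complex.I) * ((1 + a 0) / (2 * a 0)))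
      = ((1 + τ ^ 2 : ℝ) : ℂ) * ((1 + a 0) ^ 2 / (4 * a 0)) := by
  rw [hg 0, hg0]
  exact line_image (a 0) ha τ

theorem even_case (A : ℝ) (hA0 : 0 < A) (hA1 : A < 1) (hA : ∀ k, ‖a k‖ ≤ A) (ha : a 0 ≠ 0)
    (ha0 : ‖a 0‖ ≤ A / 2 ^ 20) (h1 : ∀ k, 1 ≤ k → k < 20 → A / 2 ≤ ‖a k‖) (τ : ℝ) :
    384 / A < ‖g 20 ((1 + a 0) / (2 * a 0) + (τ * Complex.I) * ((1 + a 0) / (2 * a 0)))‖ := by
  set z := (1 + a 0) / (2 * a 0) + (τ * Complex.I) * ((1 + a 0) / (2 * a 0)) with hz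
  have e1 := g_one_line a g hg0 hg ha τ
  rw [← hz] at e1
  have hna : 0 < ‖a 0‖ := norm_pos_iff.2 ha
  have hsmall : ‖a 0‖ ≤ 1 / 2 := by
    have : A / 2 ^ 20 ≤ 1 / 2 := by norm_num; linarith
    linarith
  have h1a : 1 / 2 ≤ ‖1 + a 0‖ := by
    have := norm_sub_norm_le (1 : ℂ) (-(a 0))
    rw [norm_neg, norm_one, sub_neg_eq_add] at this
    linarith
  have hbase : 65536 / A ≤ ‖g 1 z‖ := by
    rw [e1, norm_mul, norm_div, norm_mul, norm_pow, Complex.norm_real, Real.norm_eq_abs,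
      abs_of_pos (by positivity)]
    have h4 : ‖(4 : ℂ)‖ = 4 := by norm_num
    rw [h4]
    have hq : (1 / 2 : ℝ) ^ 2 / (4 * (A / 2 ^ 20)) ≤ ‖1 + a 0‖ ^ 2 / (4 * ‖a 0‖) := by
      gcongr
    have hq2 : (65536 : ℝ) / A = (1 / 2 : ℝ) ^ 2 / (4 * (A / 2 ^ 20)) := by
      field_simp; norm_num
    rw [hq2]
    have hq3 : 0 ≤ ‖1 + a 0‖ ^ 2 / (4 * ‖a 0‖) := by positivity
    nlinarith [sq_nonneg τ]
  have hind : ∀ k, 1 ≤ k → k ≤ 20 → 65536 / A ≤ ‖g k z‖ := by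
    intro k hk
    induction k, hk using Nat.le_induction with
    | base => intro _; exact hbase
    | succ k hk ih =>
      intro hk2
      have ih' := ih (by omega)
      have hak := h1 k hk (by omega)
      rw [hg]
      have hl := step_lower (a k) (g k z)
      have hA' := hA k
      have hp : 32768 ≤ ‖a k‖ * ‖g k z‖ := by
        calc (32768 : ℝ) = (A / 2) * (65536 / A) := by field_simp; norm_num
          _ ≤ ‖a k‖ * ‖g k z‖ := by gcongr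
      have : ‖g k z‖ * 1 ≤ ‖g k z‖ * (‖a k‖ * ‖g k z‖ - 1 - ‖a k‖) :=
        mul_le_mul_of_nonneg_left (by linarith) (norm_nonneg _)
      linarith
  have := hind 20 (by norm_num) le_rfl
  have h2 : 384 / A < 65536 / A := by gcongr; norm_num
  linarith

/-- from step 3 to step 20 in the odd case -/
lemma odd_tail (A : ℝ) (hA1 : A < 1) (hA : ∀ k, ‖a k‖ ≤ A)
    (hr : ∀ k < 20, 9 / 4 * ‖a k‖ ≤ ‖a (k + 1)‖) (z : ℂ)
    (h3 : 7 / 2 ≤ ‖a 3‖ * ‖g 3 z‖) :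
    ∀ k, 3 ≤ k → k ≤ 20 → 7 / 2 * 2 ^ (k - 3) ≤ ‖a k‖ * ‖g k z‖ := by
  intro k hk
  induction k, hk using Nat.le_induction with
  | base => intro _; simpa using h3
  | succ k hk ih =>
    intro hk2
    have ih' := ih (by omega)
    have hge : (7 / 2 : ℝ) ≤ ‖a k‖ * ‖g k z‖ := by
      have : (1 : ℝ) ≤ 2 ^ (k - 3) := one_le_pow₀ (by norm_num)
      linarith
    have hA' := hA k
    have hs := growth_step (a k) (a (k + 1)) (g k z) (9 / 4) (by norm_num) (hr k (by omega))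
      (by linarith)
    rw [hg]
    have e : k + 1 - 3 = (k - 3) + 1 := by omega
    rw [e, pow_succ]
    have h5 : (3 / 2 : ℝ) ≤ ‖a k‖ * ‖g k z‖ - 1 - ‖a k‖ := by linarith
    have h6 : (‖a k‖ * ‖g k z‖) * (3 / 2) ≤ (‖a k‖ * ‖g k z‖) * (‖a k‖ * ‖g k z‖ - 1 - ‖a k‖) :=
      mul_le_mul_of_nonneg_left h5 (by positivity)
    nlinarith

lemma odd_fin (A : ℝ) (hA0 : 0 < A) (hA1 : A < 1) (hA : ∀ k, ‖a k‖ ≤ A)
    (hr : ∀ k < 20, 9 / 4 * ‖a k‖ ≤ ‖a (k + 1)‖) (z : ℂ)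
    (h3 : 7 / 2 ≤ ‖a 3‖ * ‖g 3 z‖) : 384 / A < ‖g 20 z‖ := by
  have h := odd_tail a g hg0 hg A hA1 hA hr z h3 20 (by norm_num) le_rfl
  have h2 : ‖a 20‖ * ‖g 20 z‖ ≤ A * ‖g 20 z‖ :=
    mul_le_mul_of_nonneg_right (hA 20) (norm_nonneg _)
  rw [div_lt_iff₀ hA0]
  norm_num at h
  linarith

/-- `L ≡ 1 mod 4`, `L ≥ 5` -/
theorem odd_case_one (A : ℝ) (hA0 : 0 < A) (hA1 : A < 1) (hA : ∀ k, ‖a k‖ ≤ A) (ha : a 0 ≠ 0)
    (hr : ∀ k < 20, 9 / 4 * ‖a k‖ ≤ ‖a (k + 1)‖)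
    (hsm : ∀ k < 3, ‖a k‖ ≤ 1 / 1000)
    (hr5 : ∀ k < 3, 4995 / 1000 * ‖a k‖ ≤ ‖a (k + 1)‖) (τ : ℝ) :
    384 / A < ‖g 20 ((1 + a 0) / (2 * a 0) + (τ * Complex.I) * ((1 + a 0) / (2 * a 0)))‖ := by
  set z := (1 + a 0) / (2 * a 0) + (τ * Complex.I) * ((1 + a 0) / (2 * a 0)) with hz
  have e1 := g_one_line a g hg0 hg ha τ
  rw [← hz] at e1
  have hna : 0 < ‖a 0‖ := norm_pos_iff.2 ha
  have s0 := hsm 0 (by norm_num)
  have s1 := hsm 1 (by norm_num)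
  have s2 := hsm 2 (by norm_num)
  have h1a : 999 / 1000 ≤ ‖1 + a 0‖ := by
    have := norm_sub_norm_le (1 : ℂ) (-(a 0))
    rw [norm_neg, norm_one, sub_neg_eq_add] at this
    linarith
  have hW1 : 1245 / 1000 ≤ ‖a 1‖ * ‖g 1 z‖ := by
    rw [e1, norm_mul, norm_div, norm_mul, norm_pow, Complex.norm_real, Real.norm_eq_abs,
      abs_of_pos (by positivity)]
    have h4 : ‖(4 : ℂ)‖ = 4 := by norm_num
    rw [h4]
    have hr' := hr5 0 (by norm_num)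
    have hq3 : 0 ≤ ‖1 + a 0‖ ^ 2 / (4 * ‖a 0‖) := by positivity
    calc (1245 / 1000 : ℝ) ≤ 4995 / 1000 * (999 / 1000) ^ 2 / 4 := by norm_num
      _ ≤ 4995 / 1000 * ‖1 + a 0‖ ^ 2 / 4 := by gcongr
      _ = (4995 / 1000 * ‖a 0‖) * (1 * (‖1 + a 0‖ ^ 2 / (4 * ‖a 0‖))) := by field_simp
      _ ≤ ‖a 1‖ * ((1 + τ ^ 2) * (‖1 + a 0‖ ^ 2 / (4 * ‖a 0‖))) := by
          gcongr
          nlinarith [sq_nonneg τ]
  have hW2 : 1515 / 1000 ≤ ‖a 2‖ * ‖g 2 z‖ := by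
    rw [hg 1]
    have hs := growth_step (a 1) (a 2) (g 1 z) (4995 / 1000) (by norm_num)
      (hr5 1 (by norm_num)) (by linarith)
    refine le_trans ?_ hs
    have h5 : (244 / 1000 : ℝ) ≤ ‖a 1‖ * ‖g 1 z‖ - 1 - ‖a 1‖ := by linarith
    calc (1515 / 1000 : ℝ) ≤ 4995 / 1000 * ((1245 / 1000) * (244 / 1000)) := by norm_num
      _ ≤ _ := by gcongr
  have hW3 : 7 / 2 ≤ ‖a 3‖ * ‖g 3 z‖ := by
    rw [hg 2]
    have hs := growth_step (a 2) (a 3) (g 2 z) (4995 / 1000) (by norm_num)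
      (hr5 2 (by norm_num)) (by linarith)
    refine le_trans ?_ hs
    have h5 : (514 / 1000 : ℝ) ≤ ‖a 2‖ * ‖g 2 z‖ - 1 - ‖a 2‖ := by linarith
    calc (7 / 2 : ℝ) ≤ 4995 / 1000 * ((1515 / 1000) * (514 / 1000)) := by norm_num
      _ ≤ _ := by gcongr
  exact odd_fin a g hg0 hg A hA0 hA1 hA hr z hW3

/-- `L ≡ 3 mod 4`, `L ≥ 3` -/
theorem odd_case_three (A : ℝ) (hA0 : 0 < A) (hA1 : A < 1) (hA : ∀ k, ‖a k‖ ≤ A) (ha : a 0 ≠ 0)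
    (hr : ∀ k < 20, 9 / 4 * ‖a k‖ ≤ ‖a (k + 1)‖)
    (hsm : ∀ k < 3, ‖a k‖ ≤ 1 / 1000)
    (ρ : ℝ) (hρ : 2997 / 1000 ≤ ρ) (ha1 : a 1 = -(ρ : ℂ) * a 0)
    (hr3 : ∀ k < 3, 2997 / 1000 * ‖a k‖ ≤ ‖a (k + 1)‖) (τ : ℝ) :
    384 / A < ‖g 20 ((1 + a 0) / (2 * a 0) + (τ * Complex.I) * ((1 + a 0) / (2 * a 0)))‖ := by
  set z := (1 + a 0) / (2 * a 0) + (τ * Complex.I) * ((1 + a 0) / (2 * a 0)) with hz
  have e1 := g_one_line a g hg0 hg ha τ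
  rw [← hz] at e1
  have hna : 0 < ‖a 0‖ := norm_pos_iff.2 ha
  have s0 := hsm 0 (by norm_num)
  have s1 := hsm 1 (by norm_num)
  have s2 := hsm 2 (by norm_num)
  have h1a : 999 / 1000 ≤ ‖1 + a 0‖ := by
    have := norm_sub_norm_le (1 : ℂ) (-(a 0))
    rw [norm_neg, norm_one, sub_neg_eq_add] at this
    linarith
  have hT : (1 : ℝ) ≤ 1 + τ ^ 2 := by nlinarith [sq_nonneg τ]
  have hW1 : 747 / 1000 ≤ ‖a 1‖ * ‖g 1 z‖ := by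
    rw [e1, norm_mul, norm_div, norm_mul, norm_pow, Complex.norm_real, Real.norm_eq_abs,
      abs_of_pos (by positivity)]
    have h4 : ‖(4 : ℂ)‖ = 4 := by norm_num
    rw [h4]
    have hr' := hr3 0 (by norm_num)
    have hq3 : 0 ≤ ‖1 + a 0‖ ^ 2 / (4 * ‖a 0‖) := by positivity
    calc (747 / 1000 : ℝ) ≤ 2997 / 1000 * (999 / 1000) ^ 2 / 4 := by norm_num
      _ ≤ 2997 / 1000 * ‖1 + a 0‖ ^ 2 / 4 := by gcongr
      _ = (2997 / 1000 * ‖a 0‖) * (1 * (‖1 + a 0‖ ^ 2 / (4 * ‖a 0‖))) := by field_simp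
      _ ≤ ‖a 1‖ * ((1 + τ ^ 2) * (‖1 + a 0‖ ^ 2 / (4 * ‖a 0‖))) := by
          gcongr
  -- second step
  have e2 : g 2 z = g 1 z * (1 + a 1 - a 1 * g 1 z) := by rw [hg 1]; ring
  have e3 : a 1 * g 1 z = -((ρ * (1 + τ ^ 2) / 4 : ℝ) : ℂ) * (1 + a 0) ^ 2 := by
    rw [e1, ha1]; push_cast; field_simp
  have hre1 : (1 + a 1 - a 1 * g 1 z).re
      = 1 + (a 1).re + (ρ * (1 + τ ^ 2) / 4) * ((1 + a 0) ^ 2).re := by
    rw [e3, neg_mul, sub_neg_eq_add, Complex.add_re, Complex.add_re, Complex.one_re,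
      Complex.re_ofReal_mul]
  have hre2 : 997 / 1000 ≤ ((1 + a 0) ^ 2).re := by
    have e : (1 + a 0) ^ 2 = 1 + (2 * a 0 + a 0 ^ 2) := by ring
    rw [e, Complex.add_re, Complex.one_re]
    have h5 : |(2 * a 0 + a 0 ^ 2).re| ≤ ‖2 * a 0 + a 0 ^ 2‖ := Complex.abs_re_le_norm _
    have h6 : ‖2 * a 0 + a 0 ^ 2‖ ≤ 2 * ‖a 0‖ + ‖a 0‖ ^ 2 := by
      refine le_trans (norm_add_le _ _) ?_
      rw [norm_mul, norm_pow]
      simp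
    have h7 := neg_abs_le (2 * a 0 + a 0 ^ 2).re
    nlinarith
  have hre3 : |(a 1).re| ≤ 1 / 1000 := le_trans (Complex.abs_re_le_norm _) s1
  have hre4 := neg_abs_le (a 1).re
  have hre5 : 746 / 1000 ≤ (ρ * (1 + τ ^ 2) / 4) * ((1 + a 0) ^ 2).re := by
    have hρ0 : 0 < ρ := by linarith
    have h8 : 2997 / 1000 * 1 ≤ ρ * (1 + τ ^ 2) := mul_le_mul hρ hT (by norm_num) hρ0.le
    have h9 : (2997 / 4000 : ℝ) * (997 / 1000) ≤ (ρ * (1 + τ ^ 2) / 4) * ((1 + a 0) ^ 2).re :=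
      mul_le_mul (by linarith) hre2 (by norm_num) (by positivity)
    linarith
  have hfac : 1745 / 1000 ≤ ‖1 + a 1 - a 1 * g 1 z‖ := by
    refine le_trans ?_ (Complex.re_le_norm _)
    rw [hre1]; linarith
  have hW2 : 39 / 10 ≤ ‖a 2‖ * ‖g 2 z‖ := by
    rw [e2, norm_mul]
    have hr' := hr3 1 (by norm_num)
    calc (39 / 10 : ℝ) ≤ 2997 / 1000 * ((747 / 1000) * (1745 / 1000)) := by norm_num
      _ ≤ 2997 / 1000 * ((‖a 1‖ * ‖g 1 z‖) * ‖1 + a 1 - a 1 * g 1 z‖) := by gcongr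
      _ = (2997 / 1000 * ‖a 1‖) * (‖g 1 z‖ * ‖1 + a 1 - a 1 * g 1 z‖) := by ring
      _ ≤ ‖a 2‖ * (‖g 1 z‖ * ‖1 + a 1 - a 1 * g 1 z‖) := by gcongr
  have hW3 : 7 / 2 ≤ ‖a 3‖ * ‖g 3 z‖ := by
    rw [hg 2]
    have hs := growth_step (a 2) (a 3) (g 2 z) (2997 / 1000) (by norm_num)
      (hr3 2 (by norm_num)) (by linarith)
    refine le_trans ?_ hs
    have h5 : (28 / 10 : ℝ) ≤ ‖a 2‖ * ‖g 2 z‖ - 1 - ‖a 2‖ := by linarith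
    calc (7 / 2 : ℝ) ≤ 2997 / 1000 * ((39 / 10) * (28 / 10)) := by norm_num
      _ ≤ _ := by gcongr
  exact odd_fin a g hg0 hg A hA0 hA1 hA hr z hW3

end

end Pool.Agent.V1170.Kan
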