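import Mathlib

open scoped Topology
open Filter Set Metric MeasureTheory

namespace Pool.Agent.V1170.Kan

lemma abs_cos_add_even (x : ℝ) (q : ℕ) : |Real.cos (x + q * Real.pi)| = |Real.cos x| := by
  rw [Real.cos_add_nat_mul_pi, abs_mul, abs_pow, abs_neg, abs_one, one_pow, one_mul]

lemma abs_cos_add_odd (x : ℝ) (q : ℕ) :
    |Real.cos (x + Real.pi / 2 + q * Real.pi)| = |Real.sin x| := by
  rw [abs_cos_add_even, Real.cos_add_pi_div_two, abs_neg]

lemma cos_lower (y : ℝ) (i : ℕ) (h1 : (i : ℝ) / 2 ≤ y) (h2 : y ≤ i / 2 + 1 / 2) :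
    4 * |y - (i / 2 + 1 / 4)| ≤ |Real.cos (2 * Real.pi * y)| := by
  set w := y - (i / 2 + 1 / 4) with hw
  have e : 2 * Real.pi * y = 2 * Real.pi * w + Real.pi / 2 + i * Real.pi := by
    rw [hw]; ring
  rw [e, abs_cos_add_odd]
  have hpi := Real.pi_pos
  have hw1 : |w| ≤ 1 / 4 := by
    rw [abs_le]; constructor <;> linarith
  have h3 : |2 * Real.pi * w| ≤ Real.pi / 2 := by
    rw [abs_mul, abs_of_pos (by positivity)]
    nlinarith
  have h4 := Real.mul_abs_le_abs_sin h3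
  rw [abs_mul, abs_of_pos (show 0 < 2 * Real.pi by positivity)] at h4
  calc 4 * |w| = 2 / Real.pi * (2 * Real.pi * |w|) := by field_simp; ring
    _ ≤ _ := h4

/-- measure of the set where the cosine is small -/
lemma bad_measure (N : ℕ) (hN : 1 ≤ N) (η : ℝ) (hη : 0 < η) (θ : ℝ) (hθ : 0 ≤ θ)
    (hθ2 : θ ≤ 1 / 4) :
    volume {t : ℝ | t ∈ Ioo (0 : ℝ) (1 / 8) ∧ |Real.cos (2 * Real.pi * (N * (θ + t)))| < η}
      ≤ ENNReal.ofReal η := by
  have hN' : (1 : ℝ) ≤ N := by exact_mod_cast hN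
  have hsub : {t : ℝ | t ∈ Ioo (0 : ℝ) (1 / 8) ∧ |Real.cos (2 * Real.pi * (N * (θ + t)))| < η}
      ⊆ ⋃ i ∈ Finset.range N, ball (((i : ℝ) / 2 + 1 / 4) / N - θ) (η / (4 * N)) := by
    rintro t ⟨⟨ht0, ht1⟩, hc⟩
    set y : ℝ := N * (θ + t) with hy
    have hy0 : 0 ≤ y := by positivity
    set i := ⌊2 * y⌋₊ with hi
    have hi1 : (i : ℝ) ≤ 2 * y := Nat.floor_le (by positivity)
    have hi2 : 2 * y < i + 1 := Nat.lt_floor_add_one _
    have hiN : i < N := by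
      rw [hi, Nat.floor_lt (by positivity)]
      rw [hy]; nlinarith
    have h := cos_lower y i (by linarith) (by linarith)
    simp only [mem_iUnion]
    refine ⟨i, Finset.mem_range.2 hiN, ?_⟩
    rw [mem_ball, Real.dist_eq]
    have hNpos : (0 : ℝ) < N := by linarith
    have e : t - (((i : ℝ) / 2 + 1 / 4) / N - θ) = (y - (i / 2 + 1 / 4)) / N := by
      rw [hy]; field_simp; ring
    rw [e, abs_div, abs_of_pos hNpos, div_lt_div_iff₀ hNpos (by positivity)]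
    have h5 : 4 * |y - (i / 2 + 1 / 4)| < η := lt_of_le_of_lt h hc
    nlinarith
  refine le_trans (measure_mono hsub) ?_
  refine le_trans (measure_biUnion_finset_le _ _) ?_
  simp only [Real.volume_ball, Finset.sum_const, Finset.card_range, nsmul_eq_mul]
  have e2 : (N : ENNReal) = ENNReal.ofReal (N : ℝ) := by simp
  rw [e2, ← ENNReal.ofReal_mul (by positivity)]
  apply ENNReal.ofReal_le_ofReal
  have hNpos : (0 : ℝ) < N := by linarith
  have : (N : ℝ) * (2 * (η / (4 * N))) = η / 2 := by field_simp; norm_num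
  rw [this]; linarith

/-- the good set of small parameters -/
def Good (L : ℕ) (θ : ℝ) : Set ℝ :=
  {t : ℝ | t ∈ Ioo (0 : ℝ) (1 / 8) ∧
    ∀ j : ℕ, (1 / 2 : ℝ) ^ j / 64 ≤ |Real.cos (2 * Real.pi * ((L : ℝ) ^ j * (θ + t)))|}

lemma Good_meas (L : ℕ) (θ : ℝ) : MeasurableSet (Good L θ) := by
  have : Good L θ = Ioo (0 : ℝ) (1 / 8) ∩ ⋂ j : ℕ,
      {t : ℝ | (1 / 2 : ℝ) ^ j / 64 ≤ |Real.cos (2 * Real.pi * ((L : ℝ) ^ j * (θ + t)))|} := by
    ext t; simp [Good]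
  rw [this]
  refine measurableSet_Ioo.inter (MeasurableSet.iInter fun j => ?_)
  apply IsClosed.measurableSet
  exact isClosed_le continuous_const (by fun_prop)

lemma Good_pos (L : ℕ) (hL : 1 ≤ L) (θ : ℝ) (hθ : 0 ≤ θ) (hθ2 : θ ≤ 1 / 4) :
    0 < volume (Good L θ) := by
  set Bd : ℕ → Set ℝ := fun j => {t : ℝ | t ∈ Ioo (0 : ℝ) (1 / 8) ∧
    |Real.cos (2 * Real.pi * (((L ^ j : ℕ) : ℝ) * (θ + t)))| < (1 / 2 : ℝ) ^ j / 64} with hBd
  have hcov : Ioo (0 : ℝ) (1 / 8) ⊆ Good L θ ∪ ⋃ j, Bd j := by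
    intro t ht
    by_cases h : t ∈ Good L θ
    · exact Or.inl h
    · right
      have : ∃ j : ℕ, |Real.cos (2 * Real.pi * ((L : ℝ) ^ j * (θ + t)))| < (1 / 2 : ℝ) ^ j / 64 := by
        by_contra hc
        push Not at hc
        exact h ⟨ht, hc⟩
      obtain ⟨j, hj⟩ := this
      refine mem_iUnion.2 ⟨j, ht, ?_⟩
      push_cast; exact hj
  have hBm : ∀ j, volume (Bd j) ≤ ENNReal.ofReal ((1 / 2 : ℝ) ^ j / 64) := fun j =>
    bad_measure (L ^ j) (Nat.one_le_pow _ _ (by omega)) _ (by positivity) θ hθ hθ2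
  have hsum : ∑' j : ℕ, ENNReal.ofReal ((1 / 2 : ℝ) ^ j / 64) = ENNReal.ofReal (1 / 32) := by
    rw [← ENNReal.ofReal_tsum_of_nonneg (fun j => by positivity)]
    · rw [tsum_div_const, tsum_geometric_of_lt_one (by norm_num) (by norm_num)]
      norm_num
    · exact (summable_geometric_of_lt_one (by norm_num) (by norm_num)).div_const _
  by_contra hcon
  have h0 : volume (Good L θ) = 0 := by
    simpa using hcon
  have h1 : volume (Ioo (0 : ℝ) (1 / 8)) ≤ ENNReal.ofReal (1 / 32) := by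
    calc volume (Ioo (0 : ℝ) (1 / 8)) ≤ volume (Good L θ ∪ ⋃ j, Bd j) := measure_mono hcov
      _ ≤ volume (Good L θ) + volume (⋃ j, Bd j) := measure_union_le _ _
      _ ≤ 0 + ∑' j, volume (Bd j) := by
          rw [h0]; gcongr; exact measure_iUnion_le _
      _ ≤ 0 + ∑' j : ℕ, ENNReal.ofReal ((1 / 2 : ℝ) ^ j / 64) := by
          gcongr with j; exact hBm j
      _ = ENNReal.ofReal (1 / 32) := by rw [hsum, zero_add]
  rw [Real.volume_Ioo] at h1
  rw [ENNReal.ofReal_le_ofReal_iff (by norm_num)] at h1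
  norm_num at h1

/-- the set of parameters `u` -/
def Lam (L : ℕ) (θ : ℝ) : Set ℝ := {u : ℝ | (L : ℝ) ^ 20 * (u - 1 / 4) ∈ Good L θ}

lemma Lam_meas (L : ℕ) (θ : ℝ) : MeasurableSet (Lam L θ) :=
  (Good_meas L θ).preimage (by fun_prop)

lemma Lam_pos (L : ℕ) (hL : 1 ≤ L) (θ : ℝ) (hθ : 0 ≤ θ) (hθ2 : θ ≤ 1 / 4) :
    0 < volume (Lam L θ) := by
  have hL' : (0 : ℝ) < (L : ℝ) ^ 20 := by positivity
  have e : Lam L θ = (fun u : ℝ => u + (-(1 / 4))) ⁻¹'
      ((fun x : ℝ => (L : ℝ) ^ 20 * x) ⁻¹' Good L θ) := by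
    ext u; simp [Lam, sub_eq_add_neg]
  rw [e, measure_preimage_add_right, Real.volume_preimage_mul_left hL'.ne']
  refine ENNReal.mul_pos ?_ (Good_pos L hL θ hθ hθ2).ne'
  simp only [ne_eq, ENNReal.ofReal_eq_zero, not_le]
  positivity

lemma Lam_sub (L : ℕ) (hL : 1 ≤ L) (θ : ℝ) : Lam L θ ⊆ Ico 0 1 := by
  intro u hu
  obtain ⟨⟨h1, h2⟩, _⟩ := hu
  have hL' : (1 : ℝ) ≤ (L : ℝ) ^ 20 := one_le_pow₀ (by exact_mod_cast hL)
  have h3 : 0 < u - 1 / 4 := by
    by_contra hc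
    push Not at hc
    nlinarith
  have h4 : u - 1 / 4 < 1 / 8 := by nlinarith
  exact ⟨by linarith, by linarith⟩

end Pool.Agent.V1170.Kan
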