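import Mathlib

/-!
# The complexified Kan skew product: definitions

Definitions used by the hand-in for `MP_aeea9f_an`.
The Riemann sphere is `OnePoint ℂ` with its one-point-compactification topology.
-/

open scoped Topology OnePoint
open Filter Set

namespace Pool.Agent.V1170.Kan

/-- The chordal distance on the Riemann sphere `OnePoint ℂ`:
`χ(z,w) = 2|z-w| / (√(1+|z|²) √(1+|w|²))`, `χ(z,∞) = 2/√(1+|z|²)`, `χ(∞,∞) = 0`. -/
noncomputable def chord (x y : OnePoint ℂ) : ℝ :=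
  x.elim (y.elim 0 (fun w => 2 / Real.sqrt (1 + ‖w‖ ^ 2)))
    (fun z => y.elim (2 / Real.sqrt (1 + ‖z‖ ^ 2))
      (fun w => 2 * ‖z - w‖ / (Real.sqrt (1 + ‖z‖ ^ 2) * Real.sqrt (1 + ‖w‖ ^ 2))))

/-- The family `{F n : n ≥ 1}` of self-maps of the sphere is normal on `U`: every sequence of
members of the family has a subsequence which converges, uniformly on every compact subset of `U`
with respect to the chordal distance, to some map. -/
def NormalOn (F : ℕ → OnePoint ℂ → OnePoint ℂ) (U : Set (OnePoint ℂ)) : Prop :=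
  ∀ φ : ℕ → ℕ, (∀ k, 1 ≤ φ k) → ∃ ψ : ℕ → ℕ, StrictMono ψ ∧
    ∃ G : OnePoint ℂ → OnePoint ℂ, ∀ K ⊆ U, IsCompact K → ∀ ε > 0, ∃ N : ℕ, ∀ k ≥ N,
      ∀ z ∈ K, chord (F (φ (ψ k)) z) (G z) < ε

/-- Points having an open neighbourhood on which `{F n : n ≥ 1}` is normal. -/
def fatouSet (F : ℕ → OnePoint ℂ → OnePoint ℂ) : Set (OnePoint ℂ) :=
  {p | ∃ U : Set (OnePoint ℂ), IsOpen U ∧ p ∈ U ∧ NormalOn F U}

/-- The base map `E(u) = L u mod 1` on `[0,1)`. -/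
noncomputable def E (L : ℕ) (u : ℝ) : ℝ := Int.fract ((L : ℝ) * u)

/-- The fibre map `f_u(z) = z + α cos(2πu) z (1 - z)` on `ℂ`. -/
noncomputable def f (α : ℂ) (u : ℝ) (z : ℂ) : ℂ :=
  z + α * (Real.cos (2 * Real.pi * u) : ℂ) * z * (1 - z)

/-- `f_u^n = f_{E^{n-1}(u)} ∘ ⋯ ∘ f_{E(u)} ∘ f_u` on `ℂ`. -/
noncomputable def fiter (L : ℕ) (α : ℂ) (u : ℝ) : ℕ → ℂ → ℂ
  | 0 => id
  | n + 1 => fun z => f α ((E L)^[n] u) (fiter L α u n z)

/-- `f_u^n` as a self-map of the Riemann sphere (it fixes `∞`). -/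
noncomputable def fhat (L : ℕ) (α : ℂ) (u : ℝ) (n : ℕ) : OnePoint ℂ → OnePoint ℂ :=
  OnePoint.map (fiter L α u n)

/-- The random Fatou set `𝓕_u`. -/
def Fatou (L : ℕ) (α : ℂ) (u : ℝ) : Set (OnePoint ℂ) := fatouSet (fhat L α u)

/-- The random Julia set `𝓙_u`, a subset of the Riemann sphere. -/
def Julia (L : ℕ) (α : ℂ) (u : ℝ) : Set (OnePoint ℂ) := (Fatou L α u)ᶜ

end Pool.Agent.V1170.Kan
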