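import Mathlib

open scoped Topology
open Filter Set Metric

namespace Pool.Agent.V1170.Kan

/-- Quantitative Vitali: holomorphic functions bounded by `1` on a ball and tending to `0`
uniformly on a smaller concentric ball tend to `0` uniformly on the ball of half radius. -/
theorem vitali (h : ℕ → ℂ → ℂ) (q : ℂ) (R ρ : ℝ) (hρ : 0 < ρ) (hρR : ρ ≤ R)
    (hd : ∀ᶠ n in atTop, DifferentiableOn ℂ (h n) (ball q R))
    (hb : ∀ᶠ n in atTop, ∀ z ∈ ball q R, ‖h n z‖ ≤ 1)
    (hs : ∀ ε > 0, ∀ᶠ n in atTop, ∀ z ∈ ball q ρ, ‖h n z‖ ≤ ε) :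
    ∀ ε > 0, ∀ᶠ n in atTop, ∀ z ∈ ball q (R / 2), ‖h n z‖ ≤ ε := by
  have hR : 0 < R := lt_of_lt_of_le hρ hρR
  set c : ℕ → ℕ → ℝ := fun n j => ‖iteratedDeriv j (h n) q‖ / (j.factorial : ℝ) * (R / 2) ^ j
    with hc
  -- bound
  have h1 : ∀ᶠ n in atTop, ∀ j, ‖c n j‖ ≤ (2 / 3 : ℝ) ^ j := by
    filter_upwards [hd, hb] with n hdn hbn j
    have hR' : (0 : ℝ) < 3 * R / 4 := by positivity
    have h2 := Complex.norm_iteratedDeriv_le_of_forall_mem_sphere_norm_le (c := q)
      (R := 3 * R / 4) (C := 1) (f := h n) j hR'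
      (DifferentiableOn.diffContOnCl_ball (U := ball q R) hdn
        (closedBall_subset_ball (by linarith)))
      (fun z hz => hbn z (by
        rw [mem_sphere] at hz
        rw [mem_ball, hz]; linarith))
    have hfac : (0 : ℝ) < (j.factorial : ℝ) := by exact_mod_cast j.factorial_pos
    have h3 : c n j ≤ (2 / 3 : ℝ) ^ j := by
      simp only [hc]
      calc ‖iteratedDeriv j (h n) q‖ / (j.factorial : ℝ) * (R / 2) ^ j
          ≤ ((j.factorial : ℝ) * 1 / (3 * R / 4) ^ j) / (j.factorial : ℝ) * (R / 2) ^ j := by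
            gcongr
        _ = (1 / (3 * R / 4)) ^ j * (R / 2) ^ j := by
            rw [one_div, inv_pow]; field_simp
        _ = (2 / 3 : ℝ) ^ j := by
            rw [← mul_pow]; congr 1; field_simp; norm_num
    have h4 : 0 ≤ c n j := by simp only [hc]; positivity
    rw [Real.norm_eq_abs, abs_of_nonneg h4]; exact h3
  have h2 : ∀ j, Tendsto (fun n => c n j) atTop (𝓝 0) := by
    intro j
    rw [Metric.tendsto_atTop']
    intro ε hε
    have hfac : (0 : ℝ) < (j.factorial : ℝ) := by exact_mod_cast j.factorial_pos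
    -- choose δ with δ * (R/2)^j / (ρ/2)^j < ε
    have hX : 0 < (R / 2) ^ j / (ρ / 2) ^ j := by positivity
    have hδ : 0 < ε / 2 / ((R / 2) ^ j / (ρ / 2) ^ j) := by positivity
    have h5 := hd.and (hs _ hδ)
    rw [eventually_atTop] at h5
    obtain ⟨N, hN⟩ := h5
    refine ⟨N, fun n hn => ?_⟩
    obtain ⟨hdn, hsn⟩ := hN n hn.le
    have h6 := Complex.norm_iteratedDeriv_le_of_forall_mem_sphere_norm_le (c := q)
      (R := ρ / 2) (C := ε / 2 / ((R / 2) ^ j / (ρ / 2) ^ j)) (f := h n) j (by positivity)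
      (DifferentiableOn.diffContOnCl_ball (U := ball q R) hdn
        (closedBall_subset_ball (by linarith)))
      (fun z hz => hsn z (by
        rw [mem_sphere] at hz
        rw [mem_ball, hz]; linarith))
    have h4 : 0 ≤ c n j := by simp only [hc]; positivity
    rw [Real.dist_eq, sub_zero, abs_of_nonneg h4]
    have h7 : c n j ≤ ε / 2 := by
      simp only [hc]
      calc ‖iteratedDeriv j (h n) q‖ / (j.factorial : ℝ) * (R / 2) ^ j
          ≤ ((j.factorial : ℝ) * (ε / 2 / ((R / 2) ^ j / (ρ / 2) ^ j)) / (ρ / 2) ^ j)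
              / (j.factorial : ℝ) * (R / 2) ^ j := by
            gcongr
        _ = ε / 2 := by
            field_simp
    linarith
  have h3 : Tendsto (fun n => ∑' j, c n j) atTop (𝓝 (∑' _ : ℕ, (0 : ℝ))) :=
    tendsto_tsum_of_dominated_convergence
      (summable_geometric_of_lt_one (by norm_num) (by norm_num : (2 / 3 : ℝ) < 1)) h2 h1
  rw [tsum_zero] at h3
  intro ε hε
  have h4 : ∀ᶠ n in atTop, (∑' j, c n j) < ε := h3.eventually (gt_mem_nhds hε)
  filter_upwards [h4, h1, hd] with n hn hn1 hdn z hz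
  have hz' : z ∈ ball q R := by
    rw [mem_ball] at hz ⊢; linarith
  have hT := Complex.hasSum_taylorSeries_on_ball hdn hz'
  have hsum : Summable (fun j => c n j) := by
    refine Summable.of_norm_bounded
      (summable_geometric_of_lt_one (by norm_num) (by norm_num : (2 / 3 : ℝ) < 1)) hn1
  have hle : ∀ j, ‖((j.factorial : ℂ))⁻¹ • (z - q) ^ j • iteratedDeriv j (h n) q‖ ≤ c n j := by
    intro j
    have hfac : (0 : ℝ) < (j.factorial : ℝ) := by exact_mod_cast j.factorial_pos
    rw [norm_smul, norm_smul, norm_inv, norm_pow, Complex.norm_natCast]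
    simp only [hc]
    have hzq : ‖z - q‖ ≤ R / 2 := by
      rw [mem_ball, dist_eq_norm] at hz; exact hz.le
    calc (j.factorial : ℝ)⁻¹ * (‖z - q‖ ^ j * ‖iteratedDeriv j (h n) q‖)
        ≤ (j.factorial : ℝ)⁻¹ * ((R / 2) ^ j * ‖iteratedDeriv j (h n) q‖) := by
          gcongr
      _ = ‖iteratedDeriv j (h n) q‖ / (j.factorial : ℝ) * (R / 2) ^ j := by
          field_simp
  have h8 : ‖h n z‖ ≤ ∑' j, c n j := by
    rw [← hT.tsum_eq]
    exact tsum_of_norm_bounded hsum.hasSum hle
  linarith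

end Pool.Agent.V1170.Kan
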