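import Mathlib
import Pool.Agent.V1170.KanDefs
import Pool.Agent.V1170.KanVitali

open scoped Topology OnePoint
open Filter Set Metric

namespace Pool.Agent.V1170.Kan

/-- distance to infinity -/
noncomputable def B (w : ℂ) : ℝ := 2 / Real.sqrt (1 + ‖w‖ ^ 2)

lemma sqrt_pos' (w : ℂ) : 0 < Real.sqrt (1 + ‖w‖ ^ 2) := Real.sqrt_pos.2 (by positivity)

lemma B_pos (w : ℂ) : 0 < B w := by
  unfold B; have := sqrt_pos' w; positivity

lemma chord_inf (w : ℂ) : chord (w : OnePoint ℂ) ∞ = B w := rfl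

lemma chord_coe (z w : ℂ) : chord (z : OnePoint ℂ) (w : OnePoint ℂ)
    = 2 * ‖z - w‖ / (Real.sqrt (1 + ‖z‖ ^ 2) * Real.sqrt (1 + ‖w‖ ^ 2)) := rfl

/-- distance to infinity on the sphere -/
noncomputable def Binf (y : OnePoint ℂ) : ℝ := y.elim 0 B

lemma sqrt_lip (z w : ℂ) : |Real.sqrt (1 + ‖w‖ ^ 2) - Real.sqrt (1 + ‖z‖ ^ 2)| ≤ ‖z - w‖ := by
  have hz := sqrt_pos' z
  have hw := sqrt_pos' w
  have hz2 : Real.sqrt (1 + ‖z‖ ^ 2) ^ 2 = 1 + ‖z‖ ^ 2 := Real.sq_sqrt (by positivity)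
  have hw2 : Real.sqrt (1 + ‖w‖ ^ 2) ^ 2 = 1 + ‖w‖ ^ 2 := Real.sq_sqrt (by positivity)
  have hz3 : ‖z‖ ≤ Real.sqrt (1 + ‖z‖ ^ 2) := Real.le_sqrt_of_sq_le (by linarith)
  have hw3 : ‖w‖ ≤ Real.sqrt (1 + ‖w‖ ^ 2) := Real.le_sqrt_of_sq_le (by linarith)
  set x := Real.sqrt (1 + ‖z‖ ^ 2)
  set y := Real.sqrt (1 + ‖w‖ ^ 2)
  have h1 : |y - x| * (y + x) = |‖w‖ - ‖z‖| * (‖w‖ + ‖z‖) := by
    have e1 : |y - x| * (y + x) = |y ^ 2 - x ^ 2| := by
      rw [show y ^ 2 - x ^ 2 = (y - x) * (y + x) by ring, abs_mul,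
        abs_of_pos (show 0 < y + x by positivity)]
    have e2 : |‖w‖ - ‖z‖| * (‖w‖ + ‖z‖) = |‖w‖ ^ 2 - ‖z‖ ^ 2| := by
      rw [show ‖w‖ ^ 2 - ‖z‖ ^ 2 = (‖w‖ - ‖z‖) * (‖w‖ + ‖z‖) by ring, abs_mul,
        abs_of_nonneg (show 0 ≤ ‖w‖ + ‖z‖ by positivity)]
    rw [e1, e2, hz2, hw2]; ring_nf
  have h2 : |‖w‖ - ‖z‖| ≤ ‖z - w‖ := by
    rw [abs_sub_comm]; exact abs_norm_sub_norm_le z w
  have h3 : |y - x| * (y + x) ≤ ‖z - w‖ * (y + x) := by
    rw [h1]
    apply mul_le_mul h2 (by linarith) (by positivity) (by positivity)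
  exact le_of_mul_le_mul_right h3 (by positivity)

lemma B_lip (z : ℂ) (y : OnePoint ℂ) : |B z - Binf y| ≤ chord (z : OnePoint ℂ) y := by
  induction y using OnePoint.rec with
  | infty =>
    change |B z - 0| ≤ B z
    rw [sub_zero, abs_of_pos (B_pos z)]
  | coe w =>
    change |B z - B w| ≤ chord (z : OnePoint ℂ) (w : OnePoint ℂ)
    rw [chord_coe]
    have hz := sqrt_pos' z
    have hw := sqrt_pos' w
    have h := sqrt_lip z w
    unfold B
    have e : 2 / Real.sqrt (1 + ‖z‖ ^ 2) - 2 / Real.sqrt (1 + ‖w‖ ^ 2)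
        = 2 * (Real.sqrt (1 + ‖w‖ ^ 2) - Real.sqrt (1 + ‖z‖ ^ 2))
          / (Real.sqrt (1 + ‖z‖ ^ 2) * Real.sqrt (1 + ‖w‖ ^ 2)) := by
      field_simp
    rw [e, abs_div, abs_mul, abs_of_pos (mul_pos hz hw), abs_of_pos (show (0:ℝ) < 2 by norm_num)]
    gcongr

lemma B_continuous : Continuous B := by
  unfold B
  refine Continuous.div continuous_const (by fun_prop) (fun w => (sqrt_pos' w).ne')

lemma B_lt_of_le {w : ℂ} {M : ℝ} (hM : 0 < M) (h : M ≤ ‖w‖) : B w < 2 / M := by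
  unfold B
  have h1 : M < Real.sqrt (1 + ‖w‖ ^ 2) := by
    apply Real.lt_sqrt_of_sq_lt
    nlinarith
  gcongr

lemma one_le_of_B {w : ℂ} (h : B w < 1) : 1 ≤ ‖w‖ := by
  by_contra hc
  push Not at hc
  unfold B at h
  have h1 : Real.sqrt (1 + ‖w‖ ^ 2) ≤ 2 := by
    rw [Real.sqrt_le_left (by norm_num)]
    nlinarith [norm_nonneg w]
  have h2 := sqrt_pos' w
  rw [div_lt_one h2] at h
  linarith

/-- equicontinuity of the distance to infinity at a Fatou point -/
lemma equicont (g : ℕ → ℂ → ℂ) (hg : ∀ n, Continuous (g n)) (p : ℂ)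
    (hp : (p : OnePoint ℂ) ∈ fatouSet (fun n => OnePoint.map (g n))) :
    ∀ ε > 0, ∃ δ > 0, ∃ N : ℕ, ∀ n ≥ N, ∀ z ∈ ball p δ, |B (g n z) - B (g n p)| < ε := by
  intro ε hε
  by_contra hcon
  push Not at hcon
  obtain ⟨U, hUo, hpU, hN⟩ := hp
  have hpre : IsOpen ((↑) ⁻¹' U : Set ℂ) := hUo.preimage OnePoint.continuous_coe
  obtain ⟨r, hr, hball⟩ := Metric.isOpen_iff.1 hpre p hpU
  -- choose bad indices
  have hc2 : ∀ k : ℕ, ∃ n ≥ k + 1, ∃ z ∈ ball p (1 / ((k : ℝ) + 1)),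
      ε ≤ |B (g n z) - B (g n p)| := by
    intro k
    obtain ⟨n, hn, z, hz, h⟩ := hcon (1 / ((k : ℝ) + 1)) (by positivity) (k + 1)
    exact ⟨n, hn, z, hz, h⟩
  choose φ hφ w hw hφw using hc2
  obtain ⟨ψ, hψ, G, hG⟩ := hN φ (fun k => by have := hφ k; omega)
  set K : Set (OnePoint ℂ) := (↑) '' (closedBall p (r / 2)) with hK
  have hKc : IsCompact K := (isCompact_closedBall p (r / 2)).image OnePoint.continuous_coe
  have hKU : K ⊆ U := by
    rintro _ ⟨z, hz, rfl⟩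
    exact hball (closedBall_subset_ball (by linarith) hz)
  obtain ⟨N, hN⟩ := hG K hKU hKc (ε / 6) (by positivity)
  -- for k ≥ N, |B(g_{φψk} z) - Binf (G z)| < ε/6
  have h1 : ∀ k ≥ N, ∀ z ∈ closedBall p (r / 2),
      |B (g (φ (ψ k)) z) - Binf (G z)| < ε / 6 := by
    intro k hk z hz
    have h := hN k hk z ⟨z, hz, rfl⟩
    exact lt_of_le_of_lt (B_lip _ _) h
  have h2 : ∀ k ≥ N, ∀ z ∈ closedBall p (r / 2),
      |B (g (φ (ψ k)) z) - B (g (φ (ψ N)) z)| < ε / 3 := by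
    intro k hk z hz
    have ha := h1 k hk z hz
    have hb := h1 N le_rfl z hz
    rw [abs_lt] at ha hb ⊢
    constructor <;> linarith [ha.1, ha.2, hb.1, hb.2]
  have hcont : ContinuousAt (fun z => B (g (φ (ψ N)) z)) p :=
    (B_continuous.comp (hg _)).continuousAt
  rw [Metric.continuousAt_iff] at hcont
  obtain ⟨δ, hδ, hδ2⟩ := hcont (ε / 3) (by positivity)
  -- take k large
  obtain ⟨k0, hk0⟩ := exists_nat_gt (1 / min δ (r / 2))
  have hmin : 0 < min δ (r / 2) := lt_min hδ (by linarith)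
  set k := max N k0 with hk
  have hkN : N ≤ k := le_max_left _ _
  have hψk : k ≤ ψ k := hψ.id_le k
  have hz := hw (ψ k)
  have hdist : dist (w (ψ k)) p < min δ (r / 2) := by
    rw [mem_ball] at hz
    refine lt_trans hz ?_
    rw [div_lt_iff₀ (by positivity)]
    rw [div_lt_iff₀ hmin] at hk0
    have hk1 : (k0 : ℝ) ≤ (ψ k : ℝ) := by
      exact_mod_cast le_trans (le_max_right N k0) hψk
    nlinarith
  have hmem : w (ψ k) ∈ closedBall p (r / 2) := by
    rw [mem_closedBall]; exact (lt_of_lt_of_le hdist (min_le_right _ _)).le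
  have hpmem : p ∈ closedBall p (r / 2) := mem_closedBall_self (by linarith)
  have ha := h2 k hkN _ hmem
  have hb := h2 k hkN _ hpmem
  have hc := hδ2 (lt_of_lt_of_le hdist (min_le_left _ _))
  rw [Real.dist_eq] at hc
  have hd := hφw (ψ k)
  have : |B (g (φ (ψ k)) (w (ψ k))) - B (g (φ (ψ k)) p)| < ε := by
    rw [abs_lt] at ha hb hc ⊢
    constructor <;> linarith [ha.1, ha.2, hb.1, hb.2, hc.1, hc.2]
  linarith

/-- points near which the sequence tends to infinity uniformly -/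
def Esc (g : ℕ → ℂ → ℂ) : Set ℂ :=
  {p | ∃ δ > 0, ∀ M : ℝ, ∀ᶠ n in atTop, ∀ z ∈ ball p δ, M ≤ ‖g n z‖}

lemma Esc_open (g : ℕ → ℂ → ℂ) : IsOpen (Esc g) := by
  rw [Metric.isOpen_iff]
  rintro p ⟨δ, hδ, h⟩
  refine ⟨δ / 2, by positivity, fun q hq => ⟨δ / 2, by positivity, fun M => ?_⟩⟩
  filter_upwards [h M] with n hn z hz
  apply hn
  rw [mem_ball] at *
  linarith [dist_triangle z q p]

/-- local constancy of the escaping set on the Fatou set -/
lemma Esc_closed (g : ℕ → ℂ → ℂ) (hg : ∀ n, Differentiable ℂ (g n)) (p : ℂ)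
    (hp : (p : OnePoint ℂ) ∈ fatouSet (fun n => OnePoint.map (g n)))
    (hcl : p ∈ closure (Esc g)) : p ∈ Esc g := by
  obtain ⟨δ, hδ, N, hN⟩ := equicont g (fun n => (hg n).continuous) p hp (1 / 4) (by norm_num)
  obtain ⟨q, hq, hqp⟩ := Metric.mem_closure_iff.1 hcl (δ / 8) (by positivity)
  obtain ⟨ρ, hρ, hρM⟩ := hq
  -- near q small
  set ρ' := min ρ (δ / 2) with hρ'
  have hρ'0 : 0 < ρ' := lt_min hρ (by positivity)
  have hbig : ∀ᶠ n in atTop, ∀ z ∈ ball p δ, 1 ≤ ‖g n z‖ := by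
    filter_upwards [hρM 8, eventually_ge_atTop N] with n hn hnN z hz
    have h1 : B (g n q) < 1 / 4 := by
      have := B_lt_of_le (by norm_num) (hn q (mem_ball_self hρ))
      linarith
    have hq : q ∈ ball p δ := by
      rw [mem_ball, dist_comm]; linarith
    have h2 := hN n hnN q hq
    have h3 := hN n hnN z hz
    apply one_le_of_B
    rw [abs_lt] at h2 h3
    linarith [h2.1, h2.2, h3.1, h3.2]
  have hsub : ball q (δ / 2) ⊆ ball p δ := by
    intro z hz
    rw [mem_ball] at *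
    have : dist q p < δ / 8 := by rw [dist_comm]; exact hqp
    linarith [dist_triangle z q p]
  have hV := vitali (fun n z => (g n z)⁻¹) q (δ / 2) ρ' hρ'0 (min_le_right _ _)
    (by
      filter_upwards [hbig] with n hn
      intro z hz
      have h1 : g n z ≠ 0 := by
        intro h0
        have := hn z (hsub hz)
        rw [h0, norm_zero] at this; linarith
      exact ((hg n z).inv h1).differentiableWithinAt)
    (by
      filter_upwards [hbig] with n hn z hz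
      rw [norm_inv]
      exact inv_le_one_of_one_le₀ (hn z (hsub hz)))
    (by
      intro ε hε
      filter_upwards [hρM (1 / ε)] with n hn z hz
      have h1 := hn z (ball_subset_ball (min_le_left _ _) hz)
      rw [norm_inv]
      have h2 : 0 < 1 / ε := by positivity
      calc ‖g n z‖⁻¹ ≤ (1 / ε)⁻¹ := by gcongr
        _ = ε := by simp)
  refine ⟨δ / 8, by positivity, fun M => ?_⟩
  have hM' : 0 < |M| + 1 := by positivity
  filter_upwards [hV (1 / (|M| + 1)) (by positivity), hbig] with n hn hn2 z hz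
  have hz1 : z ∈ ball q (δ / 2 / 2) := by
    rw [mem_ball] at *
    linarith [dist_triangle z p q]
  have hz2 : z ∈ ball p δ := by
    rw [mem_ball] at *; linarith
  have h1 := hn z hz1
  have h2 := hn2 z hz2
  have h3 : 0 < ‖g n z‖ := by linarith
  rw [norm_inv, one_div] at h1
  have h4 : |M| + 1 ≤ ‖g n z‖ := (inv_le_inv₀ h3 hM').1 h1
  linarith [le_abs_self M]

/-- uniform escape near `p` implies `p` is in the Fatou set (finite point or infinity version). -/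
lemma fatou_of_uniform (F : ℕ → OnePoint ℂ → OnePoint ℂ) (U : Set (OnePoint ℂ)) (hU : IsOpen U)
    (h : ∀ ε > 0, ∀ᶠ n in atTop, ∀ z ∈ U, chord (F n z) ∞ < ε)
    (hself : ∀ x, chord x x = 0) : U ⊆ fatouSet F := by
  intro p hp
  refine ⟨U, hU, hp, fun φ _ => ?_⟩
  by_cases hb : ∃ n, ∃ᶠ k in atTop, φ k = n
  · obtain ⟨n, hn⟩ := hb
    obtain ⟨ψ, hψ, hψ2⟩ := extraction_of_frequently_atTop hn
    refine ⟨ψ, hψ, F n, fun K _ _ ε hε => ⟨0, fun k _ z _ => ?_⟩⟩
    rw [hψ2 k, hself]; exact hε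
  · push Not at hb
    have ht : Tendsto φ atTop atTop := by
      rw [Filter.tendsto_atTop]
      intro b
      have : ∀ᶠ k in atTop, ∀ n ∈ Finset.range b, φ k ≠ n := by
        rw [Filter.eventually_all_finset]
        intro n _
        exact hb n
      filter_upwards [this] with k hk
      by_contra hc
      push Not at hc
      exact hk (φ k) (Finset.mem_range.2 hc) rfl
    refine ⟨id, strictMono_id, fun _ => ∞, fun K hK _ ε hε => ?_⟩
    have h2 := ht.eventually (h ε hε)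
    rw [eventually_atTop] at h2
    obtain ⟨N, hN⟩ := h2
    exact ⟨N, fun k hk z hz => hN k hk z (hK hz)⟩

lemma chord_self (x : OnePoint ℂ) : chord x x = 0 := by
  induction x using OnePoint.rec with
  | infty => rfl
  | coe w => rw [chord_coe]; simp

end Pool.Agent.V1170.Kan
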