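import Mathlib
import Pool.Agent.V1170.KanFatou

open scoped Topology OnePoint
open Filter Set Metric

namespace Pool.Agent.V1170.Kan

/-- one step: large points stay large -/
lemma step_far (a : ℂ) (M : ℝ) : ∃ M' : ℝ, ∀ w : ℂ, M' ≤ ‖w‖ → M ≤ ‖w + a * (w * (1 - w))‖ := by
  by_cases ha : a = 0
  · exact ⟨M, fun w hw => by rw [ha]; simpa using hw⟩
  · have ha' : 0 < ‖a‖ := norm_pos_iff.2 ha
    refine ⟨max M ((2 + ‖a‖) / ‖a‖), fun w hw => ?_⟩
    have h1 : M ≤ ‖w‖ := le_trans (le_max_left _ _) hw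
    have h2 : (2 + ‖a‖) / ‖a‖ ≤ ‖w‖ := le_trans (le_max_right _ _) hw
    rw [div_le_iff₀ ha'] at h2
    have e : w + a * (w * (1 - w)) = w * (-(a * w - (1 + a))) := by ring
    rw [e, norm_mul, norm_neg]
    have h3 : 1 ≤ ‖a * w - (1 + a)‖ := by
      have := norm_sub_norm_le (a * w) (1 + a)
      have h4 : ‖1 + a‖ ≤ 1 + ‖a‖ := by
        have := norm_add_le (1 : ℂ) a
        simpa using this
      rw [norm_mul] at this
      nlinarith
    nlinarith [norm_nonneg w]

section
variable (a : ℕ → ℂ) (g : ℕ → ℂ → ℂ) (hg0 : ∀ z, g 0 z = z)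
  (hg : ∀ n z, g (n + 1) z = g n z + a n * (g n z * (1 - g n z)))

include hg0 hg

lemma g_diff (n : ℕ) : Differentiable ℂ (g n) := by
  induction n with
  | zero =>
    have : g 0 = id := funext hg0
    rw [this]; exact differentiable_id
  | succ n ih =>
    have : g (n + 1) = fun z => g n z + a n * (g n z * (1 - g n z)) := funext (hg n)
    rw [this]
    exact ih.add ((ih.mul ((differentiable_const 1).sub ih)).const_mul _)

lemma g_far (n : ℕ) (M : ℝ) : ∃ ρ : ℝ, ∀ z : ℂ, ρ ≤ ‖z‖ → M ≤ ‖g n z‖ := by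
  induction n generalizing M with
  | zero => exact ⟨M, fun z hz => by rw [hg0]; exact hz⟩
  | succ n ih =>
    obtain ⟨M', hM'⟩ := step_far (a n) M
    obtain ⟨ρ, hρ⟩ := ih M'
    exact ⟨ρ, fun z hz => by rw [hg]; exact hM' _ (hρ z hz)⟩

/-- the main separation theorem -/
theorem separation (m : ℕ) (R : ℕ → ℝ) (hR : Tendsto R atTop atTop)
    (hstep : ∀ n ≥ m, ∀ z : ℂ, R n ≤ ‖z‖ → R (n + 1) ≤ ‖z + a n * (z * (1 - z))‖)
    (zc κ : ℂ) (hκ : κ ≠ 0)
    (hline : ∀ τ : ℝ, R m < ‖g m (zc + (τ * Complex.I) * κ)‖)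
    (hp : ∀ n ≥ 1, g n (zc + κ) = 0) (hm : ∀ n ≥ 1, g n (zc - κ) = 0) :
    ¬ IsPreconnected (fatouSet (fun n => OnePoint.map (g n)))ᶜ := by
  have hdiff := g_diff a g hg0 hg
  set W : Set ℂ := {z | R m < ‖g m z‖} with hW
  have hWo : IsOpen W := isOpen_lt continuous_const (hdiff m).continuous.norm
  have hWR : ∀ n ≥ m, ∀ z ∈ W, R n ≤ ‖g n z‖ := by
    intro n hn
    induction n, hn using Nat.le_induction with
    | base => intro z hz; exact le_of_lt hz
    | succ n hn ih =>
      intro z hz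
      rw [hg]; exact hstep n hn _ (ih z hz)
  have hWesc : W ⊆ Esc g := by
    intro z hz
    obtain ⟨δ, hδ, hb⟩ := Metric.isOpen_iff.1 hWo z hz
    refine ⟨δ, hδ, fun M => ?_⟩
    filter_upwards [hR.eventually_ge_atTop M, eventually_ge_atTop m] with n h1 h2 w hw
    exact le_trans h1 (hWR n h2 w (hb hw))
  obtain ⟨ρ, hρ⟩ := g_far a g hg0 hg m (R m + 1)
  have hfar : ∀ z : ℂ, ρ ≤ ‖z‖ → z ∈ W := fun z hz => by
    have := hρ z hz
    change R m < ‖g m z‖
    linarith
  -- the open set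
  set U : Set (OnePoint ℂ) := (↑) '' W ∪ {∞} with hU
  have hpre : ((↑) ⁻¹' U : Set ℂ) = W := by
    ext z
    simp [hU]
  have hUo : IsOpen U := by
    rw [OnePoint.isOpen_iff_of_mem (by simp [hU])]
    rw [hpre]
    refine ⟨hWo.isClosed_compl, ?_⟩
    refine (isCompact_closedBall (0 : ℂ) ρ).of_isClosed_subset hWo.isClosed_compl ?_
    intro z hz
    rw [mem_closedBall, dist_zero_right]
    by_contra hc
    push Not at hc
    exact hz (hfar z hc.le)
  have hUF : U ⊆ fatouSet (fun n => OnePoint.map (g n)) := by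
    refine fatou_of_uniform _ U hUo ?_ chord_self
    intro ε hε
    filter_upwards [hR.eventually_ge_atTop (2 / ε), eventually_ge_atTop m] with n h1 h2 z hz
    rcases hz with ⟨w, hw, rfl⟩ | hz
    · change chord ((g n w : ℂ) : OnePoint ℂ) ∞ < ε
      rw [chord_inf]
      have h3 : 2 / ε ≤ ‖g n w‖ := le_trans h1 (hWR n h2 w hw)
      have := B_lt_of_le (show 0 < 2 / ε by positivity) h3
      have e : 2 / (2 / ε) = ε := by field_simp
      rwa [e] at this
    · rw [mem_singleton_iff] at hz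
      subst hz
      change chord ∞ ∞ < ε
      rw [chord_self]; exact hε
  -- half planes
  have half : ∀ k : ℂ, k ≠ 0 → (∀ n ≥ 1, g n (zc + k) = 0) →
      ∃ z : ℂ, 0 < ((z - zc) / k).re ∧ ((z : ℂ) : OnePoint ℂ) ∉
        fatouSet (fun n => OnePoint.map (g n)) := by
    intro k hk hkz
    by_contra hcon
    push Not at hcon
    set H : Set ℂ := (fun z => zc + k * z) '' {z : ℂ | 0 < z.re} with hH
    have hHmem : ∀ z, z ∈ H ↔ 0 < ((z - zc) / k).re := by
      intro z
      constructor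
      · rintro ⟨w, hw, rfl⟩
        have : (zc + k * w - zc) / k = w := by field_simp; ring
        change 0 < ((zc + k * w - zc) / k).re
        rw [this]; exact hw
      · intro h
        refine ⟨(z - zc) / k, h, ?_⟩
        change zc + k * ((z - zc) / k) = z
        field_simp; ring
    have hHp : IsPreconnected H :=
      (convex_halfSpace_re_gt 0).isPreconnected.image _ (by fun_prop)
    have hsub : H ⊆ Esc g := by
      refine hHp.subset_of_closure_inter_subset (Esc_open g) ?_ ?_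
      · -- far point
        have hk' : 0 < ‖k‖ := norm_pos_iff.2 hk
        set t : ℝ := (|ρ| + ‖zc‖ + 1) / ‖k‖ with ht
        have ht0 : 0 < t := by positivity
        refine ⟨zc + k * (t : ℂ), ⟨(t : ℂ), by simpa using ht0, rfl⟩, hWesc (hfar _ ?_)⟩
        have h1 : ‖k * (t : ℂ)‖ = |ρ| + ‖zc‖ + 1 := by
          rw [norm_mul, Complex.norm_real, Real.norm_eq_abs, abs_of_pos ht0, ht]
          field_simp
        have h2 : ‖k * (t : ℂ)‖ - ‖zc‖ ≤ ‖zc + k * (t : ℂ)‖ := by
          have := norm_sub_norm_le (k * (t : ℂ)) (-zc)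
          rw [norm_neg, sub_neg_eq_add, add_comm (k * (t : ℂ))] at this
          exact this
        linarith [le_abs_self ρ]
      · rintro z ⟨hz1, hz2⟩
        exact Esc_closed g hdiff z (hcon z ((hHmem z).1 hz2)) hz1
    have hmem : zc + k ∈ H := ⟨1, by simp, by simp⟩
    obtain ⟨δ, hδ, h⟩ := hsub hmem
    have h1 := (h 1).and (eventually_ge_atTop 1)
    obtain ⟨n, hn, hn1⟩ := h1.exists
    have h2 := hn _ (mem_ball_self hδ)
    rw [hkz n hn1, norm_zero] at h2
    linarith
  intro hJ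
  obtain ⟨z1, hz1, hz1J⟩ := half κ hκ hp
  obtain ⟨z2, hz2, hz2J⟩ := half (-κ) (neg_ne_zero.2 hκ) (by simpa [sub_eq_add_neg] using hm)
  set S1 : Set ℂ := {z | 0 < ((z - zc) / κ).re} with hS1
  set S2 : Set ℂ := {z | ((z - zc) / κ).re < 0} with hS2
  have hcont : Continuous (fun z : ℂ => ((z - zc) / κ).re) :=
    Complex.continuous_re.comp ((continuous_id.sub continuous_const).div_const κ)
  have hS1o : IsOpen S1 := isOpen_lt continuous_const hcont
  have hS2o : IsOpen S2 := isOpen_lt hcont continuous_const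
  have hcov : (fatouSet (fun n => OnePoint.map (g n)))ᶜ ⊆
      ((↑) '' S1 : Set (OnePoint ℂ)) ∪ ((↑) '' S2 : Set (OnePoint ℂ)) := by
    intro p hpJ
    induction p using OnePoint.rec with
    | infty => exact absurd (hUF (by simp [hU])) hpJ
    | coe z =>
      rcases lt_trichotomy 0 ((z - zc) / κ).re with h | h | h
      · exact Or.inl ⟨z, h, rfl⟩
      · exfalso
        apply hpJ
        apply hUF
        refine Or.inl ⟨z, ?_, rfl⟩
        have e : z = zc + ((((z - zc) / κ).im : ℝ) * Complex.I) * κ := by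
          have h1 : (z - zc) / κ = (((z - zc) / κ).im : ℝ) * Complex.I := by
            apply Complex.ext
            · simpa using h.symm
            · simp
          have h2 : z - zc = (((z - zc) / κ).im : ℝ) * Complex.I * κ := by
            rw [← h1]; field_simp
          rw [← h2]; ring
        change R m < ‖g m z‖
        rw [e]; exact hline _
      · exact Or.inr ⟨z, h, rfl⟩
  have hres := hJ _ _ (OnePoint.isOpen_image_coe.2 hS1o) (OnePoint.isOpen_image_coe.2 hS2o) hcov
    ⟨(z1 : OnePoint ℂ), hz1J, z1, hz1, rfl⟩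
    ⟨(z2 : OnePoint ℂ), hz2J, z2, by
      change ((z2 - zc) / κ).re < 0
      rw [div_neg, Complex.neg_re] at hz2; linarith, rfl⟩
  obtain ⟨p, _, ⟨w1, hw1, hw1p⟩, ⟨w2, hw2, hw2p⟩⟩ := hres
  have : w1 = w2 := OnePoint.coe_injective (hw1p.trans hw2p.symm)
  subst this
  exact lt_asymm (show (0 : ℝ) < ((w1 - zc) / κ).re from hw1) hw2

end

end Pool.Agent.V1170.Kan
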