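import Mathlib
import Pool.Agent.V1170.KanSep
import Pool.Agent.V1170.KanGrowth
import Pool.Agent.V1170.KanMeasure

open scoped Topology OnePoint
open Filter Set Metric

namespace Pool.Agent.V1170.Kan

/-- coefficients -/
noncomputable def ak (L : ℕ) (α : ℂ) (u : ℝ) (k : ℕ) : ℂ :=
  α * (Real.cos (2 * Real.pi * ((L : ℝ) ^ k * u)) : ℂ)

lemma norm_ak (L : ℕ) (α : ℂ) (u : ℝ) (k : ℕ) :
    ‖ak L α u k‖ = ‖α‖ * |Real.cos (2 * Real.pi * ((L : ℝ) ^ k * u))| := by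
  rw [ak, norm_mul, Complex.norm_real, Real.norm_eq_abs]

lemma norm_ak_le (L : ℕ) (α : ℂ) (u : ℝ) (k : ℕ) : ‖ak L α u k‖ ≤ ‖α‖ := by
  rw [norm_ak]
  have := Real.abs_cos_le_one (2 * Real.pi * ((L : ℝ) ^ k * u))
  have h2 := norm_nonneg α
  nlinarith

/-- the escape radii -/
noncomputable def Rad (A : ℝ) (n : ℕ) : ℝ := 384 / A * 4 ^ (n - 20)

lemma Rad_tendsto (A : ℝ) (hA : 0 < A) : Tendsto (Rad A) atTop atTop := by
  have h1 : Tendsto (fun n : ℕ => (4 : ℝ) ^ n) atTop atTop :=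
    tendsto_pow_atTop_atTop_of_one_lt (by norm_num)
  have h2 : Tendsto (fun n : ℕ => n - 20) atTop atTop := tendsto_sub_atTop_nat 20
  exact (h1.comp h2).const_mul_atTop (by positivity)

lemma Rad_step (a : ℕ → ℂ) (A : ℝ) (hA : 0 < A) (hA1 : A < 1) (ha : ∀ k, ‖a k‖ ≤ A)
    (hlow : ∀ j : ℕ, A * ((1 / 2 : ℝ) ^ j / 64) ≤ ‖a (20 + j)‖) :
    ∀ n ≥ 20, ∀ z : ℂ, Rad A n ≤ ‖z‖ → Rad A (n + 1) ≤ ‖z + a n * (z * (1 - z))‖ := by
  intro n hn z hz
  obtain ⟨j, rfl⟩ := Nat.exists_eq_add_of_le hn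
  have e1 : Rad A (20 + j) = 384 / A * 4 ^ j := by
    unfold Rad; congr 2; omega
  have e2 : Rad A (20 + j + 1) = 4 * (384 / A * 4 ^ j) := by
    unfold Rad
    have : 20 + j + 1 - 20 = j + 1 := by omega
    rw [this, pow_succ]; ring
  rw [e1] at hz
  rw [e2]
  have h1 := step_lower (a (20 + j)) z
  have h2 := hlow j
  have h3 := ha (20 + j)
  have hp : 6 ≤ ‖a (20 + j)‖ * ‖z‖ := by
    calc (6 : ℝ) = 6 * 1 := by norm_num
      _ ≤ 6 * 2 ^ j := by gcongr; exact one_le_pow₀ (by norm_num)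
      _ = (A * ((1 / 2 : ℝ) ^ j / 64)) * (384 / A * 4 ^ j) := by
          have : (4 : ℝ) ^ j = 2 ^ j * 2 ^ j := by rw [← mul_pow]; norm_num
          rw [this, one_div, inv_pow]
          field_simp
          norm_num
      _ ≤ ‖a (20 + j)‖ * ‖z‖ := by gcongr
  have h4 : ‖z‖ * 4 ≤ ‖z‖ * (‖a (20 + j)‖ * ‖z‖ - 1 - ‖a (20 + j)‖) :=
    mul_le_mul_of_nonneg_left (by linarith) (norm_nonneg _)
  linarith

lemma sin_ratio (L x : ℝ) (hL : 1 ≤ L) (hx : 0 < x) (h : L * x ≤ 1) :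
    L * (1 - (L * x) ^ 2 / 6) * Real.sin x ≤ Real.sin (L * x) := by
  have hLx : 0 < L * x := by positivity
  have h1 := Real.sin_gt_sub_cube hLx
  have h2 := Real.sin_lt hx
  have h3 : 0 ≤ 1 - (L * x) ^ 2 / 6 := by nlinarith
  have h4 : L * (1 - (L * x) ^ 2 / 6) * Real.sin x ≤ L * (1 - (L * x) ^ 2 / 6) * x :=
    mul_le_mul_of_nonneg_left h2.le (mul_nonneg (by linarith) h3)
  have h5 : L * (1 - (L * x) ^ 2 / 6) * x = L * x - (L * x) ^ 3 / 6 := by ring
  linarith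

/-- `θ` -/
noncomputable def th (L : ℕ) : ℝ := if Even L then 0 else 1 / 4

lemma th_nonneg (L : ℕ) : 0 ≤ th L := by unfold th; split_ifs <;> norm_num
lemma th_le (L : ℕ) : th L ≤ 1 / 4 := by unfold th; split_ifs <;> norm_num

lemma pow20 (L : ℕ) : ∃ q : ℕ, (L : ℝ) ^ 20 * (1 / 4) = q + th L := by
  unfold th
  split_ifs with h
  · obtain ⟨r, rfl⟩ := h
    refine ⟨2 ^ 18 * r ^ 20, ?_⟩
    push_cast; ring
  · have h1 : Odd L := Nat.not_even_iff_odd.1 h
    have h2 : L ^ 20 % 4 = 1 := by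
      have h3 : L % 4 = 1 ∨ L % 4 = 3 := by
        obtain ⟨r, rfl⟩ := h1; omega
      rw [Nat.pow_mod]
      rcases h3 with h3 | h3 <;> rw [h3]
    refine ⟨L ^ 20 / 4, ?_⟩
    have h4 : L ^ 20 = 4 * (L ^ 20 / 4) + 1 := by omega
    have h5 : ((L : ℝ) ^ 20) = 4 * ((L ^ 20 / 4 : ℕ) : ℝ) + 1 := by exact_mod_cast h4
    rw [h5]; ring

/-- late coefficients -/
lemma late (L : ℕ) (u : ℝ) (j : ℕ) :
    Real.cos (2 * Real.pi * ((L : ℝ) ^ (20 + j) * u))
      = Real.cos (2 * Real.pi * ((L : ℝ) ^ j * (th L + (L : ℝ) ^ 20 * (u - 1 / 4)))) := by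
  obtain ⟨q, hq⟩ := pow20 L
  have e : 2 * Real.pi * ((L : ℝ) ^ (20 + j) * u)
      = 2 * Real.pi * ((L : ℝ) ^ j * (th L + (L : ℝ) ^ 20 * (u - 1 / 4)))
        + ((L ^ j * q : ℕ) : ℝ) * (2 * Real.pi) := by
    have e1 : (L : ℝ) ^ (20 + j) * u
      = (L : ℝ) ^ j * ((L : ℝ) ^ 20 * (1 / 4) + (L : ℝ) ^ 20 * (u - 1 / 4)) := by
      rw [pow_add]; ring
    rw [e1, hq]; push_cast; ring
  rw [e, Real.cos_add_nat_mul_two_pi]

/-- early coefficients -/
lemma early_arg (L : ℕ) (u : ℝ) (k : ℕ) :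
    2 * Real.pi * ((L : ℝ) ^ k * u)
      = (L : ℝ) ^ k * (2 * Real.pi * (u - 1 / 4)) + (L : ℝ) ^ k * (Real.pi / 2) := by ring

lemma early_even (L : ℕ) (hL : Even L) (u : ℝ) (k : ℕ) (hk : 1 ≤ k) :
    |Real.cos (2 * Real.pi * ((L : ℝ) ^ k * u))|
      = |Real.cos ((L : ℝ) ^ k * (2 * Real.pi * (u - 1 / 4)))| := by
  obtain ⟨r, hr⟩ := (hL.pow_of_ne_zero (by omega : k ≠ 0))
  have h2 : (L : ℝ) ^ k = r + r := by exact_mod_cast hr
  rw [early_arg]
  have e : (L : ℝ) ^ k * (Real.pi / 2) = r * Real.pi := by rw [h2]; ring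
  rw [e, abs_cos_add_even]

lemma early_odd (L : ℕ) (hL : Odd L) (u : ℝ) (k : ℕ) :
    |Real.cos (2 * Real.pi * ((L : ℝ) ^ k * u))|
      = |Real.sin ((L : ℝ) ^ k * (2 * Real.pi * (u - 1 / 4)))| := by
  obtain ⟨r, hr⟩ := hL.pow (n := k)
  have h2 : (L : ℝ) ^ k = 2 * r + 1 := by exact_mod_cast hr
  rw [early_arg]
  have e : (L : ℝ) ^ k * (Real.pi / 2) = Real.pi / 2 + r * Real.pi := by rw [h2]; ring
  rw [e, ← add_assoc, abs_cos_add_odd]

lemma zero_arg (L : ℕ) (u : ℝ) :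
    Real.cos (2 * Real.pi * ((L : ℝ) ^ 0 * u)) = -Real.sin (2 * Real.pi * (u - 1 / 4)) := by
  have e : 2 * Real.pi * ((L : ℝ) ^ 0 * u) = 2 * Real.pi * (u - 1 / 4) + Real.pi / 2 := by ring
  rw [e, Real.cos_add_pi_div_two]

lemma one_arg_three (L : ℕ) (hL : L % 4 = 3) (u : ℝ) :
    Real.cos (2 * Real.pi * ((L : ℝ) ^ 1 * u)) = Real.sin ((L : ℝ) * (2 * Real.pi * (u - 1 / 4))) := by
  have h1 : L = 4 * (L / 4) + 3 := by omega
  have h2 : (L : ℝ) = 4 * ((L / 4 : ℕ) : ℝ) + 3 := by exact_mod_cast h1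
  have e : 2 * Real.pi * ((L : ℝ) ^ 1 * u)
      = (((L : ℝ) * (2 * Real.pi * (u - 1 / 4)) + Real.pi) + Real.pi / 2)
        + ((L / 4 : ℕ) : ℝ) * (2 * Real.pi) := by
    have : 2 * Real.pi * ((L : ℝ) ^ 1 * u)
      = (L : ℝ) * (2 * Real.pi * (u - 1 / 4)) + (L : ℝ) * (Real.pi / 2) := by ring
    rw [this]
    nth_rewrite 2 [h2]
    ring
  rw [e, Real.cos_add_nat_mul_two_pi, Real.cos_add_pi_div_two, Real.sin_add_pi, neg_neg]

lemma zero_orbit (a : ℕ → ℂ) (g : ℕ → ℂ → ℂ)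
    (hg : ∀ n z, g (n + 1) z = g n z + a n * (g n z * (1 - g n z))) (z : ℂ) (h1 : g 1 z = 0) :
    ∀ n ≥ 1, g n z = 0 := by
  intro n hn
  induction n, hn using Nat.le_induction with
  | base => exact h1
  | succ n hn ih => rw [hg, ih]; ring

set_option maxHeartbeats 1000000 in
theorem core (L : ℕ) (hL : 1 < L) (α : ℂ) (h0 : 0 < ‖α‖) (h1 : ‖α‖ < 1) (u : ℝ)
    (hu : u ∈ Lam L (th L)) (g : ℕ → ℂ → ℂ) (hg0 : ∀ z, g 0 z = z)
    (hg : ∀ n z, g (n + 1) z = g n z + ak L α u n * (g n z * (1 - g n z))) :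
    ¬ IsPreconnected (fatouSet (fun n => OnePoint.map (g n)))ᶜ := by
  obtain ⟨⟨ht0, ht1⟩, hgood⟩ := hu
  have hpi := Real.pi_pos
  have hpi4 := Real.pi_lt_four
  set s := 2 * Real.pi * (u - 1 / 4) with hs
  have hL2 : (2 : ℝ) ≤ L := by exact_mod_cast hL
  have hL20 : (0 : ℝ) < (L : ℝ) ^ 20 := by positivity
  have hu0 : 0 < u - 1 / 4 := by
    by_contra hc
    push Not at hc
    nlinarith
  have hs0 : 0 < s := by positivity
  have hLs : (L : ℝ) ^ 20 * s < 1 := by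
    have : (L : ℝ) ^ 20 * s = 2 * Real.pi * ((L : ℝ) ^ 20 * (u - 1 / 4)) := by rw [hs]; ring
    rw [this]; nlinarith
  have hks : ∀ k ≤ 20, (L : ℝ) ^ k * s < 1 := by
    intro k hk
    have : (L : ℝ) ^ k ≤ (L : ℝ) ^ 20 := pow_le_pow_right₀ (by linarith) hk
    nlinarith
  have hks0 : ∀ k, 0 < (L : ℝ) ^ k * s := fun k => by positivity
  have h17 : (2 : ℝ) ^ 17 ≤ (L : ℝ) ^ 17 := by gcongr
  have hks3 : ∀ k ≤ 3, (L : ℝ) ^ k * s ≤ 1 / 131072 := by
    intro k hk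
    have h3 : (L : ℝ) ^ k ≤ (L : ℝ) ^ 3 := pow_le_pow_right₀ (by linarith) hk
    have h4 : (L : ℝ) ^ 20 * s = (L : ℝ) ^ 17 * ((L : ℝ) ^ 3 * s) := by ring
    have h5 : (2 : ℝ) ^ 17 * ((L : ℝ) ^ 3 * s) ≤ (L : ℝ) ^ 17 * ((L : ℝ) ^ 3 * s) :=
      mul_le_mul_of_nonneg_right h17 (hks0 3).le
    have h6 : (L : ℝ) ^ k * s ≤ (L : ℝ) ^ 3 * s := mul_le_mul_of_nonneg_right h3 hs0.le
    norm_num at h5
    linarith
  have hs20 : s ≤ 1 / 2 ^ 20 := by
    have h5 : (2 : ℝ) ^ 20 ≤ (L : ℝ) ^ 20 := by gcongr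
    have : (2 : ℝ) ^ 20 * s ≤ 1 := by nlinarith
    rw [le_div_iff₀ (by positivity)]; linarith
  set a := ak L α u with ha
  set A := ‖α‖ with hA
  have hAk : ∀ k, ‖a k‖ ≤ A := fun k => norm_ak_le L α u k
  have hsin : ∀ k ≤ 20, 0 < Real.sin ((L : ℝ) ^ k * s) := fun k hk =>
    Real.sin_pos_of_pos_of_lt_pi (hks0 k) (lt_trans (hks k hk) (by linarith [Real.pi_gt_three]))
  have hsins : 0 < Real.sin s := by simpa using hsin 0 (by norm_num)
  have ha0n : ‖a 0‖ = A * Real.sin s := by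
    rw [ha, norm_ak, zero_arg, abs_neg, ← hs, abs_of_pos hsins]
  have ha0 : a 0 ≠ 0 := by
    rw [← norm_pos_iff, ha0n]; positivity
  have ha0s : ‖a 0‖ ≤ A / 2 ^ 20 := by
    rw [ha0n]
    have h3 := Real.sin_lt hs0
    calc A * Real.sin s ≤ A * (1 / 2 ^ 20) := by gcongr; linarith
      _ = A / 2 ^ 20 := by ring
  have h1a : 1 + a 0 ≠ 0 := by
    intro h
    have : a 0 = -1 := by linear_combination h
    rw [this, norm_neg, norm_one] at ha0s
    have : A / 2 ^ 20 < 1 := by rw [div_lt_one (by positivity)]; linarith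
    linarith
  have hlate : ∀ j : ℕ, A * ((1 / 2 : ℝ) ^ j / 64) ≤ ‖a (20 + j)‖ := by
    intro j
    rw [ha, norm_ak, late]
    gcongr
    exact hgood j
  have hline : ∀ τ : ℝ, Rad A 20 <
      ‖g 20 ((1 + a 0) / (2 * a 0) + (τ * Complex.I) * ((1 + a 0) / (2 * a 0)))‖ := by
    intro τ
    have hR : Rad A 20 = 384 / A := by simp [Rad]
    rw [hR]
    rcases Nat.even_or_odd L with hev | hodd
    · refine even_case a g hg0 hg A h0 h1 hAk ha0 ha0s ?_ τ
      intro k hk1 hk2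
      rw [ha, norm_ak, early_even L hev u k hk1]
      have h3 : (1 / 2 : ℝ) ≤ Real.cos ((L : ℝ) ^ k * s) := by
        have h4 := @Real.one_sub_sq_div_two_le_cos ((L : ℝ) ^ k * s)
        have h5 := hks k (by omega)
        have h6 := hks0 k
        nlinarith
      have h4 : (1 / 2 : ℝ) ≤ |Real.cos ((L : ℝ) ^ k * s)| := le_trans h3 (le_abs_self _)
      calc A / 2 = A * (1 / 2) := by ring
        _ ≤ A * |Real.cos ((L : ℝ) ^ k * s)| := by gcongr
    · have hn : ∀ k ≤ 20, ‖a k‖ = A * Real.sin ((L : ℝ) ^ k * s) := by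
        intro k hk
        rw [ha, norm_ak, early_odd L hodd u k, ← hs, abs_of_pos (hsin k hk)]
      have hL3 : (3 : ℝ) ≤ L := by
        have : 3 ≤ L := by
          obtain ⟨r, rfl⟩ := hodd; omega
        exact_mod_cast this
      have hratio : ∀ k < 20, (L : ℝ) * (1 - ((L : ℝ) ^ (k + 1) * s) ^ 2 / 6) * ‖a k‖
          ≤ ‖a (k + 1)‖ := by
        intro k hk
        rw [hn k (by omega), hn (k + 1) (by omega)]
        have e : (L : ℝ) ^ (k + 1) * s = L * ((L : ℝ) ^ k * s) := by ring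
        have h3 := sin_ratio L ((L : ℝ) ^ k * s) (by linarith) (hks0 k)
          (by rw [← e]; exact (hks (k + 1) (by omega)).le)
        rw [← e] at h3
        calc (L : ℝ) * (1 - ((L : ℝ) ^ (k + 1) * s) ^ 2 / 6) * (A * Real.sin ((L : ℝ) ^ k * s))
            = A * ((L : ℝ) * (1 - ((L : ℝ) ^ (k + 1) * s) ^ 2 / 6)
                * Real.sin ((L : ℝ) ^ k * s)) := by ring
          _ ≤ A * Real.sin ((L : ℝ) ^ (k + 1) * s) := by gcongr
      have hr : ∀ k < 20, 9 / 4 * ‖a k‖ ≤ ‖a (k + 1)‖ := by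
        intro k hk
        refine le_trans ?_ (hratio k hk)
        gcongr
        have h5 := hks (k + 1) (by omega)
        have h6 := hks0 (k + 1)
        have h7 : (5 / 6 : ℝ) ≤ 1 - ((L : ℝ) ^ (k + 1) * s) ^ 2 / 6 := by nlinarith
        calc (9 / 4 : ℝ) ≤ 3 * (5 / 6) := by norm_num
          _ ≤ _ := mul_le_mul hL3 h7 (by norm_num) (by linarith)
      have hsm : ∀ k < 3, ‖a k‖ ≤ 1 / 1000 := by
        intro k hk
        rw [hn k (by omega)]
        have h3 := Real.sin_lt (hks0 k)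
        have h4 := hks3 k (by omega)
        have h5 := hsin k (by omega)
        nlinarith
      have hr3 : ∀ k < 3, (L : ℝ) * (999 / 1000) * ‖a k‖ ≤ ‖a (k + 1)‖ := by
        intro k hk
        refine le_trans ?_ (hratio k (by omega))
        gcongr
        have h5 := hks3 (k + 1) (by omega)
        have h6 := hks0 (k + 1)
        nlinarith
      have hmod : L % 4 = 1 ∨ L % 4 = 3 := by
        obtain ⟨r, rfl⟩ := hodd; omega
      rcases hmod with hm1 | hm3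
      · have hL5 : (5 : ℝ) ≤ L := by
          have : 5 ≤ L := by omega
          exact_mod_cast this
        refine odd_case_one a g hg0 hg A h0 h1 hAk ha0 hr hsm ?_ τ
        intro k hk
        refine le_trans ?_ (hr3 k hk)
        gcongr
        linarith
      · have hs1 := hsin 1 (by norm_num)
        rw [pow_one] at hs1
        refine odd_case_three a g hg0 hg A h0 h1 hAk ha0 hr hsm
          (Real.sin ((L : ℝ) * s) / Real.sin s) ?_ ?_ ?_ τ
        · rw [le_div_iff₀ hsins]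
          have h3 := hratio 0 (by norm_num)
          rw [hn 0 (by norm_num), hn 1 (by norm_num)] at h3
          have h4 : (L : ℝ) * (1 - ((L : ℝ) ^ (0 + 1) * s) ^ 2 / 6)
              * Real.sin s ≤ Real.sin ((L : ℝ) * s) := by
            have h5 := sin_ratio L s (by linarith) hs0 (by
              have := (hks 1 (by norm_num)).le
              rwa [pow_one] at this)
            simpa using h5
          refine le_trans ?_ h4
          gcongr
          have h5 := hks3 1 (by norm_num)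
          have h6 := hks0 1
          rw [zero_add]
          nlinarith
        · change α * _ = -(_) * (α * _)
          rw [one_arg_three L hm3, zero_arg, ← hs]
          push_cast
          have hne : (Complex.sin (s : ℂ)) ≠ 0 := by
            rw [← Complex.ofReal_sin]
            exact_mod_cast hsins.ne'
          field_simp
        · intro k hk
          refine le_trans ?_ (hr3 k hk)
          gcongr
          linarith
  refine separation a g hg0 hg 20 (Rad A) (Rad_tendsto A h0) (Rad_step a A h0 h1 hAk hlate)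
    ((1 + a 0) / (2 * a 0)) ((1 + a 0) / (2 * a 0)) ?_ hline ?_ ?_
  · exact div_ne_zero h1a (mul_ne_zero two_ne_zero ha0)
  · apply zero_orbit a g hg
    rw [hg 0, hg0]
    field_simp
    ring
  · apply zero_orbit a g hg
    rw [hg 0, hg0]
    simp

/-- iterates of the base map -/
lemma E_iter (L : ℕ) (u : ℝ) (n : ℕ) : n ≥ 0 →
    ∃ N : ℤ, (E L)^[n] u = (L : ℝ) ^ n * u - N := by
  intro _
  induction n with
  | zero => exact ⟨0, by simp⟩
  | succ n ih =>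
    obtain ⟨N, hN⟩ := ih (by omega)
    refine ⟨L * N + ⌊(L : ℝ) * ((L : ℝ) ^ n * u - N)⌋, ?_⟩
    rw [Function.iterate_succ_apply', hN]
    unfold E
    rw [Int.fract]
    push_cast
    ring

lemma cos_E_iter (L : ℕ) (u : ℝ) (n : ℕ) :
    Real.cos (2 * Real.pi * ((E L)^[n] u)) = Real.cos (2 * Real.pi * ((L : ℝ) ^ n * u)) := by
  obtain ⟨N, hN⟩ := E_iter L u n (Nat.zero_le n)
  rw [hN]
  have e : 2 * Real.pi * ((L : ℝ) ^ n * u - N)
      = 2 * Real.pi * ((L : ℝ) ^ n * u) - N * (2 * Real.pi) := by ring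
  rw [e, Real.cos_sub_int_mul_two_pi]

theorem main (L : ℕ) (hL : 1 < L) (α : ℂ) (h0 : 0 < ‖α‖) (h1 : ‖α‖ < 1) (u : ℝ)
    (hu : u ∈ Lam L (th L)) : ¬ IsPreconnected (Julia L α u) := by
  refine core L hL α h0 h1 u hu (fiter L α u) (fun z => rfl) ?_
  intro n z
  change f α ((E L)^[n] u) (fiter L α u n z) = _
  unfold f ak
  rw [cos_E_iter]
  ring

end Pool.Agent.V1170.Kan
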