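import Pool.Agent.V1170.BifDefs

set_option autoImplicit false

open Filter Topology Metric

namespace Pool.Agent.V1170.Bif

/-- nonempty compact sets invariant under all the maps `f_a`, `a` in the closed ball -/
def Inv (c : ℂ) (r : ℝ) (L : Set ℂ) : Prop :=
  L.Nonempty ∧ IsCompact L ∧ ∀ z ∈ L, ∀ v : ℂ, ‖v‖ ≤ r → z ^ 2 + c + v ∈ L

lemma isInvariant_iff {c : ℂ} {r : ℝ} {L : Set ℂ} :
    IsInvariant c r L ↔ ∀ z ∈ L, ∀ v : ℂ, ‖v‖ ≤ r → z ^ 2 + c + v ∈ L := by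
  constructor
  · intro h z hz v hv
    have h1 := h (f (c + v)) (InSemigroup.gen _ (by simpa using hv))
    have h2 : f (c + v) z ∈ L := h1 ⟨z, hz, rfl⟩
    rw [f] at h2
    rwa [add_assoc]
  · intro h g hg
    induction hg with
    | gen a ha =>
      rintro _ ⟨z, hz, rfl⟩
      have h1 := h z hz (a - c) (by simpa [dist_eq_norm] using ha)
      rw [f]
      convert h1 using 1
      ring
    | comp a ha g hg ih =>
      rintro _ ⟨z, hz, rfl⟩
      have h2 : g z ∈ L := ih ⟨z, hz, rfl⟩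
      have h1 := h (g z) h2 (a - c) (by simpa [dist_eq_norm] using ha)
      rw [Function.comp_apply, f]
      convert h1 using 1
      ring

lemma Inv.mono {c : ℂ} {r s : ℝ} {L : Set ℂ} (h : Inv c r L) (hs : s ≤ r) : Inv c s L :=
  ⟨h.1, h.2.1, fun z hz v hv => h.2.2 z hz v (hv.trans hs)⟩

/-- every nonempty compact invariant set contains a minimal one -/
lemma exists_minimal {c : ℂ} {r : ℝ} {L : Set ℂ} (h : Inv c r L) :
    ∃ L', IsPlanarMinimal c r L' := by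
  obtain ⟨m, -, hm⟩ := zorn_superset_nonempty {K : Set ℂ | Inv c r K} (by
    intro C hC hchain hne
    refine ⟨⋂₀ C, ?_, fun s hs => Set.sInter_subset_of_mem hs⟩
    obtain ⟨K0, hK0⟩ := hne
    have hdir : DirectedOn (fun x1 x2 => x1 ⊇ x2) C := by
      intro x hx y hy
      rcases hchain.total hx hy with h | h
      · exact ⟨x, hx, subset_rfl, h⟩
      · exact ⟨y, hy, h, subset_rfl⟩
    have : Nonempty C := ⟨⟨K0, hK0⟩⟩
    refine ⟨?_, ?_, ?_⟩
    · exact IsCompact.nonempty_sInter_of_directed_nonempty_isCompact_isClosed hdir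
        (fun U hU => (hC hU).1) (fun U hU => (hC hU).2.1) (fun U hU => (hC hU).2.1.isClosed)
    · exact (hC hK0).2.1.of_isClosed_subset
        (isClosed_sInter fun U hU => (hC hU).2.1.isClosed) (Set.sInter_subset_of_mem hK0)
    · intro z hz v hv U hU
      exact (hC hU).2.2 z (hz U hU) v hv) L h
  refine ⟨m, ⟨⟨hm.1.1, hm.1.2.1, isInvariant_iff.mpr hm.1.2.2⟩, ?_⟩⟩
  rintro L' hL' ⟨h1, h2, h3⟩
  exact hm.eq_of_subset ⟨h1, h2, isInvariant_iff.mp h3⟩ hL'

lemma exists_minimal_iff {c : ℂ} {r : ℝ} :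
    (∃ L, IsPlanarMinimal c r L) ↔ ∃ L, Inv c r L :=
  ⟨fun ⟨L, h, _⟩ => ⟨L, h.1, h.2.1, isInvariant_iff.mp h.2.2⟩, fun ⟨_, h⟩ => exists_minimal h⟩

/-- the norm bound for points of an invariant set -/
lemma Inv.norm_le {c : ℂ} {r : ℝ} {L : Set ℂ} (h : Inv c r L) (hr : 0 ≤ r) {z : ℂ} (hz : z ∈ L) :
    ‖z‖ ≤ 1 + ‖c‖ := by
  obtain ⟨w, hw, hmax⟩ := h.2.1.exists_isMaxOn h.1 continuous_norm.continuousOn
  have h1 : ‖w ^ 2 + c + 0‖ ≤ ‖w‖ := hmax (h.2.2 w hw 0 (by simpa using hr))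
  have h2 : ‖w‖ ^ 2 - ‖c‖ ≤ ‖w ^ 2 + c + 0‖ := by
    have := norm_sub_le (w ^ 2 + c) c
    rw [add_sub_cancel_right, norm_pow] at this
    rw [add_zero]
    linarith
  have h3 : ‖z‖ ≤ ‖w‖ := hmax hz
  nlinarith [norm_nonneg c, norm_nonneg w]

/-- for large radius there is no invariant set -/
lemma not_inv_large {c : ℂ} {r : ℝ} {L : Set ℂ} (hr : 2 * (1 + ‖c‖) < r) : ¬ Inv c r L := by
  intro h
  obtain ⟨z, hz⟩ := h.1
  have hr0 : 0 ≤ r := by have := norm_nonneg c; linarith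
  have h1 := h.norm_le hr0 (h.2.2 z hz 0 (by simpa using hr0))
  have h2 := h.norm_le hr0 (h.2.2 z hz (r : ℂ) (by
    rw [Complex.norm_real, Real.norm_of_nonneg hr0]))
  have h3 : ‖(r : ℂ)‖ ≤ ‖z ^ 2 + c + r‖ + ‖z ^ 2 + c + 0‖ := by
    have h4 := norm_sub_le (z ^ 2 + c + r) (z ^ 2 + c + 0)
    have h5 : z ^ 2 + c + r - (z ^ 2 + c + 0) = (r : ℂ) := by ring
    rwa [h5] at h4
  rw [Complex.norm_real, Real.norm_of_nonneg hr0] at h3
  linarith

lemma le_rbif {c : ℂ} {s : ℝ} (h : ∀ r, 0 ≤ r → r < s → ∃ L, Inv c r L) : s ≤ rbif c := by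
  apply le_csInf
  · refine ⟨2 * (1 + ‖c‖) + 1, by positivity, ?_⟩
    rw [exists_minimal_iff]
    rintro ⟨L, hL⟩
    exact not_inv_large (by linarith) hL
  · rintro r ⟨hr0, hr⟩
    rw [exists_minimal_iff] at hr
    by_contra hcon
    push Not at hcon
    exact hr (h r hr0 hcon)

lemma rbif_le {c : ℂ} {r : ℝ} (hr : 0 ≤ r) (h : ¬ ∃ L, Inv c r L) : rbif c ≤ r := by
  apply csInf_le
  · exact ⟨0, fun x hx => hx.1⟩
  · exact ⟨hr, by rwa [exists_minimal_iff]⟩

/-- if the orbit of `0` is bounded the parameter is in the Mandelbrot set -/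
lemma mem_mandelbrot_of_bounded {c : ℂ} {B : ℝ} (h : ∀ n, ‖(f c)^[n] 0‖ ≤ B) : c ∈ mandelbrot := by
  intro ht
  obtain ⟨n, hn⟩ := (ht.eventually (eventually_gt_atTop B)).exists
  exact absurd (h n) (not_le.mpr hn)

lemma closedBall_subset_mandelbrot : closedBall (0 : ℂ) (1 / 4) ⊆ mandelbrot := by
  intro c hc
  rw [mem_closedBall_zero_iff] at hc
  apply mem_mandelbrot_of_bounded (B := 1 / 2)
  intro n
  induction n with
  | zero => simp
  | succ n ih =>
    rw [Function.iterate_succ_apply', f]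
    refine (norm_add_le _ _).trans ?_
    rw [norm_pow]
    nlinarith [norm_nonneg ((f c)^[n] 0)]

lemma not_mem_mandelbrot {δ : ℝ} (hδ : 0 < δ) : ((1 / 4 + δ : ℝ) : ℂ) ∉ mandelbrot := by
  intro h
  apply h
  have key : ∀ n : ℕ, ∃ x : ℝ, (f ((1 / 4 + δ : ℝ) : ℂ))^[n] 0 = (x : ℂ) ∧ n * δ ≤ x := by
    intro n
    induction n with
    | zero => exact ⟨0, by simp, by simp⟩
    | succ n ih =>
      obtain ⟨x, hx, hxn⟩ := ih
      refine ⟨x ^ 2 + (1 / 4 + δ), ?_, ?_⟩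
      · rw [Function.iterate_succ_apply', hx, f]; push_cast; ring
      · push_cast
        nlinarith [sq_nonneg (x - 1 / 2)]
  have h1 : Tendsto (fun n : ℕ => (n : ℝ) * δ) atTop atTop :=
    tendsto_natCast_atTop_atTop.atTop_mul_const hδ
  refine tendsto_atTop_mono ?_ h1
  intro n
  obtain ⟨x, hx, hxn⟩ := key n
  rw [hx, Complex.norm_real]
  exact hxn.trans (le_abs_self x)

lemma quarter_mem_frontier : (1 / 4 : ℂ) ∈ frontier mandelbrot := by
  rw [frontier_eq_closure_inter_closure]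
  refine ⟨subset_closure (closedBall_subset_mandelbrot (by simp)), ?_⟩
  rw [Metric.mem_closure_iff]
  intro ε hε
  refine ⟨((1 / 4 + ε / 2 : ℝ) : ℂ), not_mem_mandelbrot (by positivity), ?_⟩
  rw [dist_eq_norm]
  have : (1 / 4 : ℂ) - ((1 / 4 + ε / 2 : ℝ) : ℂ) = ((-(ε / 2) : ℝ) : ℂ) := by push_cast; ring
  rw [this, Complex.norm_real, norm_neg, Real.norm_of_nonneg (by positivity)]
  linarith

end Pool.Agent.V1170.Bif
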