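import Pool.Agent.V1170.BifBasic

set_option autoImplicit false

open Filter Topology Metric

namespace Pool.Agent.V1170.Bif

/-- the real inequality behind the invariant disc -/
lemma disc_ineq {x y p q R ρ : ℝ} (hpq : p ^ 2 + q ^ 2 = 1) (hp : 0 < p) (hR : R = p / 4)
    (hρ0 : 0 < ρ) (hρ : ρ ≤ p ^ 3 / 72) (hw : x ^ 2 + y ^ 2 ≤ 2 * R * (-(x * p + y * q)))
    (hw2 : x ^ 2 + y ^ 2 ≤ (2 * R) ^ 2) :
    (x ^ 2 + y ^ 2) * ((1 + x) ^ 2 + y ^ 2) ≤
      2 * (R - ρ) * (((1 + x) ^ 2 + y ^ 2) * (-(x * p + y * q)) +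
        (x ^ 2 + y ^ 2) * (p * (1 + x) + q * y)) := by
  have hp1 : p ≤ 1 := by nlinarith [sq_nonneg q]
  have hR0 : 0 < R := by rw [hR]; positivity
  have hR1 : R ≤ 1 / 4 := by rw [hR]; linarith
  have hpp : p ^ 3 ≤ p := by nlinarith [mul_pos hp hp]
  have hρR : ρ ≤ R / 2 := by rw [hR]; linarith
  set S := x ^ 2 + y ^ 2 with hS
  set N := (1 + x) ^ 2 + y ^ 2 with hN
  set A := -(x * p + y * q) with hA
  set B := p * (1 + x) + q * y with hB
  have hS0 : 0 ≤ S := by positivity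
  have hN0 : 0 ≤ N := by positivity
  -- bounds
  have hA2 : A ^ 2 ≤ S := by
    have h1 : (x * p + y * q) ^ 2 + (x * q - y * p) ^ 2 = S := by
      have : (x * p + y * q) ^ 2 + (x * q - y * p) ^ 2 = (x ^ 2 + y ^ 2) * (p ^ 2 + q ^ 2) := by ring
      rw [this, hpq, mul_one]
    rw [hA]
    nlinarith [sq_nonneg (x * q - y * p)]
  have hA1 : A ≤ 2 * R := by
    have : A ^ 2 ≤ (2 * R) ^ 2 := hA2.trans hw2
    exact (abs_le_of_sq_le_sq' this (by positivity)).2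
  have hBA : B = p - A := by rw [hB, hA]; ring
  have hB0 : p / 2 ≤ B := by rw [hBA]; rw [hR] at hA1; linarith
  have hN1 : N ≤ 9 / 4 := by
    have hx1 : x ≤ 1 / 2 := by
      have : x ^ 2 ≤ (1 / 2) ^ 2 := by nlinarith [sq_nonneg y]
      exact (abs_le_of_sq_le_sq' this (by norm_num)).2
    have : N = 1 + 2 * x + S := by rw [hN, hS]; ring
    rw [this]
    nlinarith
  have hRρ : R / 2 ≤ R - ρ := by linarith
  -- main
  have h1 : (R - ρ) / R * (N * S) ≤ 2 * (R - ρ) * (N * A) := by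
    have h2 : N * S ≤ N * (2 * R * A) := mul_le_mul_of_nonneg_left hw hN0
    have h3 : (R - ρ) / R * (N * S) ≤ (R - ρ) / R * (N * (2 * R * A)) :=
      mul_le_mul_of_nonneg_left h2 (div_nonneg (by linarith) hR0.le)
    refine h3.trans (le_of_eq ?_)
    field_simp
  have h4 : N * (ρ / R) ≤ 2 * (R - ρ) * B := by
    have h5 : ρ / R ≤ 4 * p ^ 2 / 72 := by
      rw [hR, div_le_iff₀ (by positivity)]
      nlinarith
    have h6 : N * (ρ / R) ≤ 9 / 4 * (4 * p ^ 2 / 72) := by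
      apply mul_le_mul hN1 h5 (by positivity) (by norm_num)
    have h7 : (R / 2) * (p / 2) ≤ (R - ρ) * B := by
      apply mul_le_mul hRρ hB0 (by positivity) (by linarith)
    rw [hR] at h7
    nlinarith
  have h8 : S * (N * (ρ / R)) ≤ S * (2 * (R - ρ) * B) := mul_le_mul_of_nonneg_left h4 hS0
  have h9 : (R - ρ) / R * (N * S) = N * S - S * (N * (ρ / R)) := by field_simp
  nlinarith

/-- the invariant closed disc -/
lemma inv_disc {u : ℂ} {ρ : ℝ} (hu : ‖u‖ = 1) (hp : 0 < u.re) (hρ0 : 0 < ρ)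
    (hρ : ρ ≤ u.re ^ 3 / 72) :
    Inv (1 / 4 - ρ * u) ρ (closedBall (1 / 2 - (u.re / 4 : ℝ) * u) (u.re / 4)) := by
  set R : ℝ := u.re / 4 with hR
  have hpq : u.re ^ 2 + u.im ^ 2 = 1 := by
    have h := Complex.sq_norm u
    rw [hu, Complex.normSq_apply] at h
    linarith
  have hp1 : u.re ≤ 1 := by nlinarith [sq_nonneg u.im]
  have hR0 : 0 < R := by rw [hR]; positivity
  have hρR : ρ ≤ R / 2 := by
    have hpp : u.re ^ 3 ≤ u.re := by nlinarith [mul_pos hp hp]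
    rw [hR]; linarith
  refine ⟨nonempty_closedBall.mpr hR0.le, isCompact_closedBall _ _, ?_⟩
  intro z hz v hv
  rw [mem_closedBall, dist_eq_norm] at hz ⊢
  set w : ℂ := z - 1 / 2 with hw
  have hz' : ‖w + R * u‖ ≤ R := by
    have : w + R * u = z - (1 / 2 - R * u) := by rw [hw]; ring
    rwa [this]
  have e1 : z ^ 2 + (1 / 4 - ρ * u) + v - (1 / 2 - R * u) = (w * (1 + w) + ((R - ρ : ℝ) : ℂ) * u) + v := by
    rw [hw]; push_cast; ring
  rw [e1]
  refine (norm_add_le _ _).trans ?_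
  have key : ‖w * (1 + w) + ((R - ρ : ℝ) : ℂ) * u‖ ≤ R - ρ := by
    apply le_of_sq_le (by linarith)
    have hsq : ∀ a : ℂ, ∀ s : ℝ, ‖a + (s : ℂ) * u‖ ^ 2 =
        a.re ^ 2 + a.im ^ 2 + 2 * s * (a.re * u.re + a.im * u.im) + s ^ 2 := by
      intro a s
      rw [Complex.sq_norm, Complex.normSq_apply]
      simp only [Complex.add_re, Complex.add_im, Complex.re_ofReal_mul, Complex.im_ofReal_mul]
      linear_combination s ^ 2 * hpq
    rw [hsq]
    have hz2 : ‖w + R * u‖ ^ 2 ≤ R ^ 2 := pow_le_pow_left₀ (norm_nonneg _) hz' 2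
    rw [hsq] at hz2
    have hw1 : w.re ^ 2 + w.im ^ 2 ≤ 2 * R * (-(w.re * u.re + w.im * u.im)) := by linarith
    have hw2 : w.re ^ 2 + w.im ^ 2 ≤ (2 * R) ^ 2 := by
      have h1 : ‖w‖ ≤ 2 * R := by
        have h2 : w = (w + R * u) - R * u := by ring
        rw [h2]
        refine (norm_sub_le _ _).trans ?_
        rw [norm_mul, hu, Complex.norm_real, Real.norm_of_nonneg hR0.le]
        linarith
      have h3 := pow_le_pow_left₀ (norm_nonneg _) h1 2
      rw [Complex.sq_norm, Complex.normSq_apply] at h3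
      linarith
    have h := disc_ineq hpq hp hR hρ0 hρ hw1 hw2
    have hre : (w * (1 + w)).re = w.re * (1 + w.re) - w.im * w.im := by
      simp [Complex.mul_re]
    have him : (w * (1 + w)).im = w.re * w.im + w.im * (1 + w.re) := by
      simp [Complex.mul_im]
    rw [hre, him]
    nlinarith [h]
  linarith
where
  le_of_sq_le {a b : ℝ} (hb : 0 ≤ b) (h : a ^ 2 ≤ b ^ 2) : a ≤ b :=
    (abs_le_of_sq_le_sq' h hb).2

/-- The region near the cusp `1 / 4`. -/
def region : Set ℂ := {c | 72 * ‖c - 1 / 4‖ ^ 4 < (1 / 4 - c.re) ^ 3 ∧ c.im ≠ 0}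

lemma isOpen_region : IsOpen region := by
  have h : region = {c : ℂ | 72 * ‖c - 1 / 4‖ ^ 4 < (1 / 4 - c.re) ^ 3} ∩ {c : ℂ | c.im ≠ 0} := rfl
  rw [h]
  apply IsOpen.inter
  · exact isOpen_lt (by fun_prop) (by fun_prop)
  · exact isOpen_ne_fun Complex.continuous_im continuous_const

lemma region_nonempty : region.Nonempty := by
  refine ⟨⟨1 / 4 - 1 / 1000, 1 / 1000⟩, ?_, ?_⟩
  · have h : ‖(⟨1 / 4 - 1 / 1000, 1 / 1000⟩ : ℂ) - 1 / 4‖ ^ 4 = (2 / 1000000) ^ 2 := by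
      have h2 : ‖(⟨1 / 4 - 1 / 1000, 1 / 1000⟩ : ℂ) - 1 / 4‖ ^ 2 = 2 / 1000000 := by
        rw [Complex.sq_norm, Complex.normSq_apply]
        norm_num
      have h3 : ‖(⟨1 / 4 - 1 / 1000, 1 / 1000⟩ : ℂ) - 1 / 4‖ ^ 4 =
        (‖(⟨1 / 4 - 1 / 1000, 1 / 1000⟩ : ℂ) - 1 / 4‖ ^ 2) ^ 2 := by ring
      rw [h3, h2]
    rw [h]
    norm_num
  · norm_num

/-- parametrisation of the region -/
lemma region_param {c : ℂ} (hc : c ∈ region) : ∃ (u : ℂ) (ρ : ℝ), ‖u‖ = 1 ∧ 0 < u.re ∧ 0 < ρ ∧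
    ρ ≤ u.re ^ 3 / 72 ∧ c = 1 / 4 - ρ * u := by
  obtain ⟨h1, h2⟩ := hc
  have hne : c ≠ 1 / 4 := by rintro rfl; apply h2; norm_num
  set ρ : ℝ := ‖c - 1 / 4‖ with hρ
  have hρ0 : 0 < ρ := norm_pos_iff.mpr (sub_ne_zero.mpr hne)
  have hρc : (ρ : ℂ) ≠ 0 := by exact_mod_cast hρ0.ne'
  refine ⟨(1 / 4 - c) / ρ, ρ, ?_, ?_, hρ0, ?_, ?_⟩
  · rw [norm_div, Complex.norm_real, Real.norm_of_nonneg hρ0.le, norm_sub_rev, ← hρ]
    field_simp
  · rw [Complex.div_ofReal_re]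
    apply div_pos _ hρ0
    have h3 : 0 < (1 / 4 - c.re) ^ 3 := lt_of_le_of_lt (by positivity) h1
    have h4 : 0 < 1 / 4 - c.re := by
      by_contra hcon
      push Not at hcon
      have : (1 / 4 - c.re) ^ 3 ≤ 0 := by
        have h5 : (1 / 4 - c.re) ^ 3 = (1 / 4 - c.re) * (1 / 4 - c.re) ^ 2 := by ring
        rw [h5]
        exact mul_nonpos_of_nonpos_of_nonneg hcon (sq_nonneg _)
      linarith
    simpa using h4
  · rw [Complex.div_ofReal_re]
    have h3 : ((1 / 4 : ℂ) - c).re = 1 / 4 - c.re := by simp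
    rw [h3, div_pow, div_div, le_div_iff₀ (by positivity)]
    nlinarith
  · field_simp
    ring

theorem region_spec {c : ℂ} (hc : c ∈ region) :
    c ∉ frontier mandelbrot ∧ c ∉ {z : ℂ | ∃ t : ℝ, 0 ≤ t ∧ t ≤ 1 / 4 ∧ z = t} ∧
      infDist c (frontier mandelbrot) ≤ rbif c ∧ infDist c (frontier mandelbrot) ≤ ‖c - 1 / 4‖ ∧
      ‖c - 1 / 4‖ ≤ rbif c := by
  have him := hc.2
  obtain ⟨u, ρ, hu, hp, hρ0, hρ, hcu⟩ := region_param hc
  have hnorm : ‖c - 1 / 4‖ = ρ := by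
    rw [hcu]
    have : (1 / 4 - ρ * u - 1 / 4 : ℂ) = -(ρ * u) := by ring
    rw [this, norm_neg, norm_mul, hu, Complex.norm_real, Real.norm_of_nonneg hρ0.le, mul_one]
  have h1 : ρ ≤ rbif c := by
    apply le_rbif
    intro r _ hr1
    rw [hcu]
    exact ⟨_, (inv_disc hu hp hρ0 hρ).mono hr1.le⟩
  have h2 : infDist c (frontier mandelbrot) ≤ ρ := by
    have := infDist_le_dist_of_mem (x := c) quarter_mem_frontier
    rwa [dist_eq_norm, hnorm] at this
  refine ⟨?_, ?_, h2.trans h1, by rwa [hnorm], by rwa [hnorm]⟩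
  · have hball : c ∈ interior mandelbrot := by
      apply interior_mono closedBall_subset_mandelbrot
      rw [mem_interior]
      refine ⟨ball 0 (1 / 4), ball_subset_closedBall, isOpen_ball, ?_⟩
      rw [mem_ball_zero_iff]
      have hpq : u.re ^ 2 + u.im ^ 2 = 1 := by
        have h := Complex.sq_norm u
        rw [hu, Complex.normSq_apply] at h
        linarith
      have hp1 : u.re ≤ 1 := by nlinarith [sq_nonneg u.im]
      have hpp : u.re ^ 3 ≤ u.re := by nlinarith [mul_pos hp hp]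
      have h5 : ‖c‖ ^ 2 < (1 / 4) ^ 2 := by
        rw [hcu, Complex.sq_norm, Complex.normSq_apply]
        simp only [Complex.sub_re, Complex.sub_im, Complex.re_ofReal_mul, Complex.im_ofReal_mul]
        norm_num
        have h6 : ρ * ρ < ρ * (u.re / 2) := mul_lt_mul_of_pos_left (by linarith) hρ0
        have h7 : ρ * u.im * (ρ * u.im) = ρ * ρ * (1 - u.re ^ 2) := by
          linear_combination ρ * ρ * hpq
        rw [h7]
        nlinarith
      exact lt_of_pow_lt_pow_left₀ 2 (by norm_num) h5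
    intro hfr
    exact hfr.2 hball
  · rintro ⟨t, -, -, ht⟩
    apply him
    rw [ht]
    simp

end Pool.Agent.V1170.Bif
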