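import Mathlib

set_option autoImplicit false

open Filter Topology Metric

namespace Pool.Agent.V1170.Bif

/-- The quadratic map `f_a(z) = z ^ 2 + a`. -/
def f (a z : ℂ) : ℂ := z ^ 2 + a

/-- The Mandelbrot set: the parameters `c` for which the orbit of `0` under `f_c` does not tend to
infinity. -/
def mandelbrot : Set ℂ := {c | ¬ Tendsto (fun n : ℕ => ‖(f c)^[n] 0‖) atTop atTop}

/-- The main cardioid: the parameters `λ / 2 - λ ^ 2 / 4` with `|λ| < 1`. -/
def mainCardioid : Set ℂ := {c | ∃ l : ℂ, ‖l‖ < 1 ∧ c = l / 2 - l ^ 2 / 4}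

/-- The semigroup `G_{c,r}`: all compositions `f_{c_N} ∘ ... ∘ f_{c_1}` with `N ≥ 1` and every `c_i`
in the closed ball with centre `c` and radius `r`. -/
inductive InSemigroup (c : ℂ) (r : ℝ) : (ℂ → ℂ) → Prop
  | gen (a : ℂ) (ha : a ∈ closedBall c r) : InSemigroup c r (f a)
  | comp (a : ℂ) (ha : a ∈ closedBall c r) (g : ℂ → ℂ) (hg : InSemigroup c r g) :
      InSemigroup c r (f a ∘ g)

/-- `g(L) ⊆ L` for every `g` in `G_{c,r}`. -/
def IsInvariant (c : ℂ) (r : ℝ) (L : Set ℂ) : Prop :=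
  ∀ g : ℂ → ℂ, InSemigroup c r g → g '' L ⊆ L

/-- `L` is a planar minimal set of `G_{c,r}`: a nonempty compact subset of `ℂ` with `g(L) ⊆ L` for
all `g` in `G_{c,r}` that is minimal under inclusion among such sets. -/
def IsPlanarMinimal (c : ℂ) (r : ℝ) (L : Set ℂ) : Prop :=
  (L.Nonempty ∧ IsCompact L ∧ IsInvariant c r L) ∧
    ∀ L' : Set ℂ, L' ⊆ L → (L'.Nonempty ∧ IsCompact L' ∧ IsInvariant c r L') → L' = L

/-- The bifurcation radius: the infimum of the `r ≥ 0` for which `G_{c,r}` has no planar minimal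
set. -/
noncomputable def rbif (c : ℂ) : ℝ :=
  sInf {r : ℝ | 0 ≤ r ∧ ¬ ∃ L : Set ℂ, IsPlanarMinimal c r L}

end Pool.Agent.V1170.Bif
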