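import Mathlib

set_option autoImplicit false

namespace Pool.Agent.V1170.DM

open Matrix SimpleGraph

/-- The algebraic connectivity: the second smallest root (with multiplicity) of the characteristic
polynomial of the Laplacian matrix, i.e. entry number one (counting from zero) of the increasingly
sorted list of all its real roots. -/
noncomputable def algConn {V : Type} [Fintype V] [DecidableEq V] (G : SimpleGraph V)
    [DecidableRel G.Adj] : ℝ :=
  ((G.lapMatrix ℝ).charpoly.roots.sort (· ≤ ·)).getD 1 0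

/-- The equation satisfied by the angle `t` for degree `d` and diameter `D`
(all tangents and quotients being defined). -/
def AngleEq (d D : ℕ) (t : ℝ) : Prop :=
  (∃ K : ℕ, D = 2 * K ∧ Real.cos (K * t) ≠ 0 ∧ Real.cos t ≠ 0 ∧
    Real.tan (K * t) = -((d : ℝ) / (d - 2)) * Real.tan t) ∨
  (∃ K : ℕ, D + 1 = 2 * K ∧ Real.cos (K * t) ≠ 0 ∧
    √((d : ℝ) - 1) * (d - 2 * Real.cos t ^ 2) + (d - 2) * Real.cos t ≠ 0 ∧
    Real.tan (K * t) = -(((2 * √((d : ℝ) - 1) * Real.cos t + d) * Real.sin t) /
      (√((d : ℝ) - 1) * (d - 2 * Real.cos t ^ 2) + (d - 2) * Real.cos t)))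

/-- `G` is a diameter-maximal `d`-regular graph of diameter `D`: it is connected, `d`-regular, of
diameter `D`, and its algebraic connectivity equals `d - 2 √(d-1) cos θ`, where `θ` is the smallest
positive root of the angle equation. -/
def DiameterMaximal {V : Type} [Fintype V] [DecidableEq V] (G : SimpleGraph V)
    [DecidableRel G.Adj] (d D : ℕ) : Prop :=
  G.Connected ∧ G.IsRegularOfDegree d ∧ G.diam = D ∧
    ∃ θ : ℝ, IsLeast {t : ℝ | 0 < t ∧ AngleEq d D t} θ ∧
      algConn G = d - 2 * √((d : ℝ) - 1) * Real.cos θ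

section general

variable {V : Type} [Fintype V] [DecidableEq V] (G : SimpleGraph V) [DecidableRel G.Adj]

lemma mem_roots_iff (a : ℝ) (A : Matrix V V ℝ) :
    a ∈ A.charpoly.roots ↔ ∃ v : V → ℝ, v ≠ 0 ∧ A.mulVec v = a • v := by
  rw [Polynomial.mem_roots (Matrix.charpoly_monic A).ne_zero, Polynomial.IsRoot.def,
    Matrix.eval_charpoly, ← Matrix.exists_mulVec_eq_zero_iff]
  constructor
  · rintro ⟨v, hv, h⟩
    refine ⟨v, hv, ?_⟩
    rw [Matrix.sub_mulVec] at h
    have h2 : (Matrix.scalar V a).mulVec v = a • v := by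
      ext i; simp [Matrix.mulVec_diagonal]
    rw [h2] at h
    exact (sub_eq_zero.mp h).symm
  · rintro ⟨v, hv, h⟩
    refine ⟨v, hv, ?_⟩
    rw [Matrix.sub_mulVec]
    have h2 : (Matrix.scalar V a).mulVec v = a • v := by
      ext i; simp [Matrix.mulVec_diagonal]
    rw [h2, h, sub_self]

theorem algConn_eq (hconn : G.Connected) (lam : ℝ) (hlam : 0 < lam)
    (hall : ∀ (a : ℝ) (v : V → ℝ), v ≠ 0 → (G.lapMatrix ℝ).mulVec v = a • v → a ≤ 0 ∨ lam ≤ a)
    (hex : ∃ v : V → ℝ, v ≠ 0 ∧ (G.lapMatrix ℝ).mulVec v = lam • v) : algConn G = lam := by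
  classical
  haveI := hconn.nonempty
  have hA := G.isHermitian_lapMatrix ℝ
  have hroots : (G.lapMatrix ℝ).charpoly.roots
      = Multiset.map (fun i => hA.eigenvalues i) Finset.univ.val := by
    rw [hA.roots_charpoly_eq_eigenvalues]; rfl
  have hev : ∀ i, (G.lapMatrix ℝ).mulVec (⇑(hA.eigenvectorBasis i))
      = hA.eigenvalues i • ⇑(hA.eigenvectorBasis i) := fun i => hA.mulVec_eigenvectorBasis i
  have hne : ∀ i, (⇑(hA.eigenvectorBasis i) : V → ℝ) ≠ 0 := by
    intro i h
    have h1 := hA.eigenvectorBasis.orthonormal.1 i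
    have : hA.eigenvectorBasis i = 0 := by
      ext j; exact congrFun h j
    rw [this] at h1; simp at h1
  have hpos : ∀ i, 0 ≤ hA.eigenvalues i := fun i =>
    (posSemidef_lapMatrix ℝ G).eigenvalues_nonneg i
  have hA' : ∀ i, hA.eigenvalues i = 0 ∨ lam ≤ hA.eigenvalues i := by
    intro i
    rcases hall _ _ (hne i) (hev i) with h | h
    · left; exact le_antisymm h (hpos i)
    · right; exact h
  -- zero is a root
  have h0 : (0 : ℝ) ∈ (G.lapMatrix ℝ).charpoly.roots := by
    rw [mem_roots_iff]
    refine ⟨fun _ => 1, ?_, ?_⟩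
    · intro h
      have := congrFun h (Classical.arbitrary V)
      simp at this
    · rw [G.lapMatrix_mulVec_const_eq_zero, zero_smul]
  have hl : lam ∈ (G.lapMatrix ℝ).charpoly.roots := (mem_roots_iff _ _).mpr hex
  -- a unique index with eigenvalue zero
  have hconst : ∀ i, hA.eigenvalues i = 0 → ∀ x y, hA.eigenvectorBasis i x = hA.eigenvectorBasis i y := by
    intro i hi x y
    have h1 := hev i
    rw [hi, zero_smul] at h1
    rw [G.lapMatrix_mulVec_eq_zero_iff_forall_reachable] at h1
    exact h1 x y (hconn.preconnected x y)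
  have huniq : ∀ i j, hA.eigenvalues i = 0 → hA.eigenvalues j = 0 → i = j := by
    intro i j hi hj
    by_contra hij
    have horth : inner ℝ (hA.eigenvectorBasis i) (hA.eigenvectorBasis j) = 0 :=
      hA.eigenvectorBasis.orthonormal.2 hij
    rw [EuclideanSpace.inner_eq_star_dotProduct] at horth
    obtain ⟨x0⟩ := ‹Nonempty V›
    have hi' : ∀ x, hA.eigenvectorBasis i x = hA.eigenvectorBasis i x0 := fun x => hconst i hi x x0
    have hj' : ∀ x, hA.eigenvectorBasis j x = hA.eigenvectorBasis j x0 := fun x => hconst j hj x x0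
    have hprod : (Fintype.card V : ℝ) * (hA.eigenvectorBasis j x0 * hA.eigenvectorBasis i x0) = 0 := by
      rw [← horth]
      simp only [dotProduct, star_trivial, Pi.star_apply]
      rw [Finset.sum_congr rfl (fun x _ => by rw [hi' x, hj' x])]
      simp
    have hcard : (Fintype.card V : ℝ) ≠ 0 := by
      exact_mod_cast Fintype.card_ne_zero
    rcases mul_eq_zero.mp hprod with h | h
    · exact hcard h
    · rcases mul_eq_zero.mp h with h | h
      · apply hne j; ext x
        change hA.eigenvectorBasis j x = 0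
        rw [hj' x, h]
      · apply hne i; ext x
        change hA.eigenvectorBasis i x = 0
        rw [hi' x, h]
  -- decompose the multiset of roots
  obtain ⟨t, ht⟩ := Multiset.exists_cons_of_mem h0
  have hcount : (G.lapMatrix ℝ).charpoly.roots.count 0 ≤ 1 := by
    rw [hroots, Multiset.count_map]
    have : (Multiset.filter (fun a => 0 = hA.eigenvalues a) Finset.univ.val)
        = (Finset.univ.filter (fun a => 0 = hA.eigenvalues a)).val := rfl
    rw [this, Finset.card_val]
    apply Finset.card_le_one.mpr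
    intro i hi j hj
    simp only [Finset.mem_filter, Finset.mem_univ, true_and] at hi hj
    exact huniq i j hi.symm hj.symm
  have h0t : (0 : ℝ) ∉ t := by
    rw [ht, Multiset.count_cons_self] at hcount
    rw [← Multiset.count_eq_zero]
    omega
  have htge : ∀ b ∈ t, lam ≤ b := by
    intro b hb
    have hb' : b ∈ (G.lapMatrix ℝ).charpoly.roots := by rw [ht]; exact Multiset.mem_cons_of_mem hb
    rw [hroots, Multiset.mem_map] at hb'
    obtain ⟨i, _, rfl⟩ := hb'
    rcases hA' i with h | h
    · rw [h] at hb; exact absurd hb h0t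
    · exact h
  have hlt : lam ∈ t := by
    rw [ht, Multiset.mem_cons] at hl
    rcases hl with h | h
    · exact absurd h hlam.ne'
    · exact h
  obtain ⟨t', ht'⟩ := Multiset.exists_cons_of_mem hlt
  unfold algConn
  rw [ht, ht', Multiset.sort_cons, Multiset.sort_cons]
  · simp
  · intro b hb
    exact htge b (by rw [ht']; exact Multiset.mem_cons_of_mem hb)
  · intro b hb
    have := htge b (by rw [ht']; exact hb)
    linarith

/-- Version for regular graphs, in terms of the adjacency matrix. -/
theorem algConn_eq_of_regular (d : ℕ) (hreg : G.IsRegularOfDegree d) (hconn : G.Connected)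
    (mu : ℝ) (hmu : mu < d)
    (hall : ∀ (a : ℝ) (v : V → ℝ), v ≠ 0 → (G.adjMatrix ℝ).mulVec v = a • v → (d : ℝ) ≤ a ∨ a ≤ mu)
    (hex : ∃ v : V → ℝ, v ≠ 0 ∧ (G.adjMatrix ℝ).mulVec v = mu • v) : algConn G = d - mu := by
  have key : ∀ v : V → ℝ, (G.lapMatrix ℝ).mulVec v = (d : ℝ) • v - (G.adjMatrix ℝ).mulVec v := by
    intro v; ext i
    rw [G.lapMatrix_mulVec_apply]
    have : G.degree i = d := hreg i
    simp [this]
  refine algConn_eq G hconn _ (by linarith) ?_ ?_
  · intro a v hv h
    rw [key] at h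
    have h2 : (G.adjMatrix ℝ).mulVec v = (d - a : ℝ) • v := by
      rw [sub_smul, ← h]; abel
    rcases hall _ v hv h2 with h3 | h3
    · left; linarith
    · right; linarith
  · obtain ⟨v, hv, h⟩ := hex
    refine ⟨v, hv, ?_⟩
    rw [key, h, sub_smul]

/-- Distance certificate. -/
theorem diam_eq (k : ℕ) (dst : V → V → ℕ) (h1 : ∀ u v, dst u v ≤ k)
    (h2 : ∀ u v, dst u v = 0 → u = v)
    (h3 : ∀ u v, dst u v ≠ 0 → ∃ w, G.Adj u w ∧ dst w v + 1 = dst u v)
    (u0 v0 : V) (h4 : dst u0 v0 = k) (h5 : dst v0 v0 = 0)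
    (h6 : ∀ u w, G.Adj u w → dst u v0 ≤ dst w v0 + 1) : G.Connected ∧ G.diam = k := by
  have hw : ∀ n u v, dst u v = n → ∃ p : G.Walk u v, p.length = n := by
    intro n
    induction n with
    | zero => intro u v h; obtain rfl := h2 u v h; exact ⟨Walk.nil, rfl⟩
    | succ n ih =>
      intro u v h
      obtain ⟨w, hadj, hw⟩ := h3 u v (by omega)
      obtain ⟨p, hp⟩ := ih w v (by omega)
      exact ⟨Walk.cons hadj p, by simp [hp]⟩
  have hconn : G.Connected := by
    haveI : Nonempty V := ⟨u0⟩
    exact ⟨fun u v => by obtain ⟨p, _⟩ := hw _ u v rfl; exact ⟨p⟩⟩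
  refine ⟨hconn, ?_⟩
  haveI : Nonempty V := ⟨u0⟩
  have hfin : G.ediam ≠ ⊤ := by
    rw [← connected_iff_ediam_ne_top]; exact hconn
  apply le_antisymm
  · obtain ⟨u, v, huv⟩ := G.exists_dist_eq_diam
    rw [← huv]
    obtain ⟨p, hp⟩ := hw _ u v rfl
    exact (dist_le p).trans (hp ▸ h1 u v)
  · have h7 : ∀ (u v : V) (p : G.Walk u v), dst u v0 ≤ dst v v0 + p.length := by
      intro u v p
      induction p with
      | nil => simp
      | cons hadj p ih =>
        have := h6 _ _ hadj
        simp only [Walk.length_cons]; omega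
    obtain ⟨p, hp⟩ := hconn.exists_walk_length_eq_dist u0 v0
    have h8 := h7 u0 v0 p
    have h9 := dist_le_diam hfin (u := u0) (v := v0)
    omega

end general

end Pool.Agent.V1170.DM
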