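import Pool.Agent.V1170.DMBase

set_option autoImplicit false

namespace Pool.Agent.V1170.DM.Q1

open Matrix SimpleGraph

abbrev V34 : Type := Fin 17 ⊕ Fin 17

def rowsB : List (List ℤ) := [
  [1, 1, 1, 1, 0, 0, 0, 0, 0, 0, 0, 0, 0, 0, 0, 0, 0],
  [1, 0, 0, 0, 0, 0, 1, 0, 0, 1, 0, 1, 0, 0, 0, 0, 0],
  [1, 0, 0, 0, 0, 0, 0, 1, 1, 0, 0, 0, 1, 0, 0, 0, 0],
  [1, 0, 0, 0, 0, 0, 0, 0, 0, 0, 1, 0, 0, 0, 1, 0, 1],
  [0, 1, 0, 0, 0, 0, 0, 0, 0, 1, 0, 0, 0, 1, 0, 1, 0],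
  [0, 1, 0, 0, 0, 1, 1, 0, 0, 0, 1, 0, 0, 0, 0, 0, 0],
  [0, 1, 0, 0, 0, 0, 0, 0, 1, 0, 0, 1, 0, 0, 0, 0, 1],
  [0, 0, 1, 0, 0, 1, 0, 0, 1, 0, 0, 0, 0, 0, 0, 1, 0],
  [0, 0, 1, 0, 0, 0, 0, 0, 0, 0, 1, 0, 1, 1, 0, 0, 0],
  [0, 0, 1, 0, 0, 0, 0, 1, 0, 1, 0, 0, 0, 0, 1, 0, 0],
  [0, 0, 0, 1, 0, 1, 0, 0, 0, 0, 0, 0, 1, 0, 0, 0, 1],
  [0, 0, 0, 1, 0, 0, 0, 1, 0, 0, 0, 1, 0, 0, 0, 1, 0],
  [0, 0, 0, 1, 0, 0, 1, 0, 0, 0, 0, 0, 0, 1, 1, 0, 0],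
  [0, 0, 0, 0, 1, 1, 1, 1, 0, 0, 0, 0, 0, 0, 0, 0, 0],
  [0, 0, 0, 0, 1, 0, 0, 0, 1, 1, 1, 0, 0, 0, 0, 0, 0],
  [0, 0, 0, 0, 1, 0, 0, 0, 0, 0, 0, 1, 1, 1, 0, 0, 0],
  [0, 0, 0, 0, 1, 0, 0, 0, 0, 0, 0, 0, 0, 0, 1, 1, 1]]

def tabD : List (List ℕ) := [
  [0, 2, 2, 2, 2, 2, 2, 2, 2, 2, 2, 2, 2, 4, 4, 4, 4, 1, 1, 1, 1, 5, 3, 3, 3, 3, 3, 3, 3, 3, 3, 3, 3, 3],
  [2, 0, 2, 2, 2, 2, 2, 4, 4, 2, 4, 2, 2, 2, 2, 2, 4, 1, 3, 3, 3, 3, 3, 1, 3, 3, 1, 3, 1, 3, 3, 3, 3, 3],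
  [2, 2, 0, 2, 4, 4, 2, 2, 2, 2, 2, 2, 4, 2, 2, 2, 4, 1, 3, 3, 3, 3, 3, 3, 1, 1, 3, 3, 3, 1, 3, 3, 3, 3],
  [2, 2, 2, 0, 4, 2, 2, 4, 2, 2, 2, 4, 2, 4, 2, 4, 2, 1, 3, 3, 3, 3, 3, 3, 3, 3, 3, 1, 3, 3, 3, 1, 3, 1],
  [2, 2, 4, 4, 0, 2, 2, 2, 2, 2, 4, 2, 2, 4, 2, 2, 2, 3, 1, 3, 3, 3, 3, 3, 3, 3, 1, 3, 3, 3, 1, 3, 1, 3],
  [2, 2, 4, 2, 2, 0, 2, 2, 2, 4, 2, 4, 2, 2, 2, 4, 4, 3, 1, 3, 3, 3, 1, 1, 3, 3, 3, 1, 3, 3, 3, 3, 3, 3],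
  [2, 2, 2, 2, 2, 2, 0, 2, 4, 4, 2, 2, 4, 4, 2, 2, 2, 3, 1, 3, 3, 3, 3, 3, 3, 1, 3, 3, 1, 3, 3, 3, 3, 1],
  [2, 4, 2, 4, 2, 2, 2, 0, 2, 2, 2, 2, 4, 2, 2, 4, 2, 3, 3, 1, 3, 3, 1, 3, 3, 1, 3, 3, 3, 3, 3, 3, 1, 3],
  [2, 4, 2, 2, 2, 2, 4, 2, 0, 2, 2, 4, 2, 4, 2, 2, 4, 3, 3, 1, 3, 3, 3, 3, 3, 3, 3, 1, 3, 1, 1, 3, 3, 3],
  [2, 2, 2, 2, 2, 4, 4, 2, 2, 0, 4, 2, 2, 2, 2, 4, 2, 3, 3, 1, 3, 3, 3, 3, 1, 3, 1, 3, 3, 3, 3, 1, 3, 3],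
  [2, 4, 2, 2, 4, 2, 2, 2, 2, 4, 0, 2, 2, 2, 4, 2, 2, 3, 3, 3, 1, 3, 1, 3, 3, 3, 5, 3, 3, 1, 3, 3, 3, 1],
  [2, 2, 2, 4, 2, 4, 2, 2, 4, 2, 2, 0, 2, 2, 4, 2, 2, 3, 3, 3, 1, 3, 3, 3, 1, 3, 3, 5, 1, 3, 3, 3, 1, 3],
  [2, 2, 4, 2, 2, 2, 4, 4, 2, 2, 2, 2, 0, 2, 4, 2, 2, 3, 3, 3, 1, 3, 3, 1, 3, 5, 3, 3, 3, 3, 1, 1, 3, 3],
  [4, 2, 2, 4, 4, 2, 4, 2, 4, 2, 2, 2, 2, 0, 2, 2, 2, 3, 3, 3, 3, 1, 1, 1, 1, 3, 3, 3, 3, 3, 3, 3, 3, 3],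
  [4, 2, 2, 2, 2, 2, 2, 2, 2, 2, 4, 4, 4, 2, 0, 2, 2, 3, 3, 3, 5, 1, 3, 3, 3, 1, 1, 1, 3, 3, 3, 3, 3, 3],
  [4, 2, 2, 4, 2, 4, 2, 4, 2, 4, 2, 2, 2, 2, 2, 0, 2, 3, 3, 3, 3, 1, 3, 3, 3, 3, 3, 3, 1, 1, 1, 3, 3, 3],
  [4, 4, 4, 2, 2, 4, 2, 2, 4, 2, 2, 2, 2, 2, 2, 2, 0, 3, 3, 3, 3, 1, 3, 3, 3, 3, 3, 3, 3, 3, 3, 1, 1, 1],
  [1, 1, 1, 1, 3, 3, 3, 3, 3, 3, 3, 3, 3, 3, 3, 3, 3, 0, 2, 2, 2, 4, 4, 2, 2, 2, 2, 2, 2, 2, 4, 2, 4, 2],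
  [1, 3, 3, 3, 1, 1, 1, 3, 3, 3, 3, 3, 3, 3, 3, 3, 3, 2, 0, 2, 2, 4, 2, 2, 4, 2, 2, 2, 2, 4, 2, 4, 2, 2],
  [1, 3, 3, 3, 3, 3, 3, 1, 1, 1, 3, 3, 3, 3, 3, 3, 3, 2, 2, 0, 2, 4, 2, 4, 2, 2, 2, 2, 4, 2, 2, 2, 2, 4],
  [1, 3, 3, 3, 3, 3, 3, 3, 3, 3, 1, 1, 1, 3, 5, 3, 3, 2, 2, 2, 0, 4, 2, 2, 2, 4, 4, 4, 2, 2, 2, 2, 2, 2],
  [5, 3, 3, 3, 3, 3, 3, 3, 3, 3, 3, 3, 3, 1, 1, 1, 1, 4, 4, 4, 4, 0, 2, 2, 2, 2, 2, 2, 2, 2, 2, 2, 2, 2],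
  [3, 3, 3, 3, 3, 1, 3, 1, 3, 3, 1, 3, 3, 1, 3, 3, 3, 4, 2, 2, 2, 2, 0, 2, 2, 2, 4, 2, 4, 2, 4, 4, 2, 2],
  [3, 1, 3, 3, 3, 1, 3, 3, 3, 3, 3, 3, 1, 1, 3, 3, 3, 2, 2, 4, 2, 2, 2, 0, 2, 4, 2, 2, 2, 4, 2, 2, 4, 4],
  [3, 3, 1, 3, 3, 3, 3, 3, 3, 1, 3, 1, 3, 1, 3, 3, 3, 2, 4, 2, 2, 2, 2, 2, 0, 2, 2, 4, 2, 2, 4, 2, 2, 4],
  [3, 3, 1, 3, 3, 3, 1, 1, 3, 3, 3, 3, 5, 3, 1, 3, 3, 2, 2, 2, 4, 2, 2, 4, 2, 0, 2, 2, 2, 2, 4, 4, 2, 2],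
  [3, 1, 3, 3, 1, 3, 3, 3, 3, 1, 5, 3, 3, 3, 1, 3, 3, 2, 2, 2, 4, 2, 4, 2, 2, 2, 0, 2, 2, 4, 2, 2, 2, 4],
  [3, 3, 3, 1, 3, 1, 3, 3, 1, 3, 3, 5, 3, 3, 1, 3, 3, 2, 2, 2, 4, 2, 2, 2, 4, 2, 2, 0, 4, 2, 2, 2, 4, 2],
  [3, 1, 3, 3, 3, 3, 1, 3, 3, 3, 3, 1, 3, 3, 3, 1, 3, 2, 2, 4, 2, 2, 4, 2, 2, 2, 2, 4, 0, 2, 2, 4, 2, 2],
  [3, 3, 1, 3, 3, 3, 3, 3, 1, 3, 1, 3, 3, 3, 3, 1, 3, 2, 4, 2, 2, 2, 2, 4, 2, 2, 4, 2, 2, 0, 2, 4, 4, 2],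
  [3, 3, 3, 3, 1, 3, 3, 3, 1, 3, 3, 3, 1, 3, 3, 1, 3, 4, 2, 2, 2, 2, 4, 2, 4, 4, 2, 2, 2, 2, 0, 2, 2, 4],
  [3, 3, 3, 1, 3, 3, 3, 3, 3, 1, 3, 3, 1, 3, 3, 3, 1, 2, 4, 2, 2, 2, 4, 2, 2, 4, 2, 2, 4, 4, 2, 0, 2, 2],
  [3, 3, 3, 3, 1, 3, 3, 1, 3, 3, 3, 1, 3, 3, 3, 3, 1, 4, 2, 2, 2, 2, 2, 4, 2, 2, 2, 4, 2, 4, 2, 2, 0, 2],
  [3, 3, 3, 1, 3, 3, 1, 3, 3, 3, 1, 3, 3, 3, 3, 3, 1, 2, 2, 4, 2, 2, 2, 4, 4, 2, 4, 2, 2, 2, 4, 2, 2, 0]]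

def listW0 : List ℤ := [12, -1, -1, -1, -1, -1, -1, -1, -1, -1, -1, -1, -1, 0, 0, 0, 0, 0, 0, 0, 0, -12, 1, 1, 1, 1, 1, 1, 1, 1, 1, 1, 1, 1]

def listW1 : List ℤ := [0, 1, 1, 1, 1, 1, 1, 1, 1, 1, 1, 1, 1, -3, -3, -3, -3, 3, 3, 3, 3, 0, -1, -1, -1, -1, -1, -1, -1, -1, -1, -1, -1, -1]


def Bz (i j : Fin 17) : ℤ := (rowsB.getD i []).getD j 0

def idx : V34 → ℕ
  | Sum.inl i => i
  | Sum.inr j => 17 + j

def dst (x y : V34) : ℕ := (tabD.getD (idx x) []).getD (idx y) 0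

def adjB : V34 → V34 → Bool
  | Sum.inl i, Sum.inr j => decide (Bz i j = 1)
  | Sum.inr j, Sum.inl i => decide (Bz i j = 1)
  | Sum.inl _, Sum.inl _ => false
  | Sum.inr _, Sum.inr _ => false

lemma adjB_symm (x y : V34) : adjB x y = adjB y x := by
  rcases x with i | j <;> rcases y with k | l <;> rfl

lemma adjB_irrefl (x : V34) : adjB x x = false := by
  rcases x with i | j <;> rfl

/-- The graph on 34 vertices. -/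
def G : SimpleGraph V34 where
  Adj x y := adjB x y = true
  symm := ⟨fun x y h => by rw [adjB_symm]; exact h⟩
  loopless := ⟨fun x h => by rw [adjB_irrefl] at h; exact Bool.noConfusion h⟩

instance : DecidableRel G.Adj := fun x y => inferInstanceAs (Decidable (adjB x y = true))

def w0 (x : V34) : ℤ := listW0.getD (idx x) 0
def w1 (x : V34) : ℤ := listW1.getD (idx x) 0

lemma Bz_eq : ∀ i j : Fin 17, Bz i j = if adjB (Sum.inl i) (Sum.inr j) = true then 1 else 0 := by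
  decide +kernel

lemma reg : G.IsRegularOfDegree 4 := by
  intro x
  have : ∀ x : V34, (Finset.univ.filter (fun y => adjB x y = true)).card = 4 := by decide +kernel
  rw [← this x, ← G.card_neighborFinset_eq_degree]
  congr 1
  ext y
  rw [SimpleGraph.mem_neighborFinset, Finset.mem_filter]
  exact ⟨fun h => ⟨Finset.mem_univ _, h⟩, fun h => h.2⟩

lemma diam5 : G.Connected ∧ G.diam = 5 := by
  refine diam_eq G 5 dst ?_ ?_ ?_ (Sum.inl 0) (Sum.inr 4) ?_ ?_ ?_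
  · decide +kernel
  · decide +kernel
  · change ∀ u v, dst u v ≠ 0 → ∃ w, adjB u w = true ∧ dst w v + 1 = dst u v
    decide +kernel
  · decide +kernel
  · decide +kernel
  · change ∀ u w, adjB u w = true → dst u (Sum.inr 4) ≤ dst w (Sum.inr 4) + 1
    decide +kernel

def tabN : List (List ℤ) := [
  [4, 1, 1, 1, 1, 1, 1, 1, 1, 1, 1, 1, 1, 0, 0, 0, 0],
  [1, 4, 1, 1, 1, 1, 1, 0, 0, 1, 0, 1, 1, 1, 1, 1, 0],
  [1, 1, 4, 1, 0, 0, 1, 1, 1, 1, 1, 1, 0, 1, 1, 1, 0],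
  [1, 1, 1, 4, 0, 1, 1, 0, 1, 1, 1, 0, 1, 0, 1, 0, 2],
  [1, 1, 0, 0, 4, 1, 1, 1, 1, 1, 0, 1, 1, 0, 1, 1, 1],
  [1, 1, 0, 1, 1, 4, 1, 1, 1, 0, 1, 0, 1, 2, 1, 0, 0],
  [1, 1, 1, 1, 1, 1, 4, 1, 0, 0, 1, 1, 0, 0, 1, 1, 1],
  [1, 0, 1, 0, 1, 1, 1, 4, 1, 1, 1, 1, 0, 1, 1, 0, 1],
  [1, 0, 1, 1, 1, 1, 0, 1, 4, 1, 1, 0, 1, 0, 1, 2, 0],
  [1, 1, 1, 1, 1, 0, 0, 1, 1, 4, 0, 1, 1, 1, 1, 0, 1],
  [1, 0, 1, 1, 0, 1, 1, 1, 1, 0, 4, 1, 1, 1, 0, 1, 1],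
  [1, 1, 1, 0, 1, 0, 1, 1, 0, 1, 1, 4, 1, 1, 0, 1, 1],
  [1, 1, 0, 1, 1, 1, 0, 0, 1, 1, 1, 1, 4, 1, 0, 1, 1],
  [0, 1, 1, 0, 0, 2, 0, 1, 0, 1, 1, 1, 1, 4, 1, 1, 1],
  [0, 1, 1, 1, 1, 1, 1, 1, 1, 1, 0, 0, 0, 1, 4, 1, 1],
  [0, 1, 1, 0, 1, 0, 1, 0, 2, 0, 1, 1, 1, 1, 1, 4, 1],
  [0, 0, 0, 2, 1, 0, 1, 1, 0, 1, 1, 1, 1, 1, 1, 1, 4]]

def tabX : List (List ℤ) := [
  [9, 9, 9, 9, 9, 9, 9, 9, 9, 9, 9, 9, 9, 9, 9, 9, 9],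
  [9, 9, 9, 8, 9, 9, 9, 9, 10, 9, 9, 9, 9, 9, 9, 8, 10],
  [9, 9, 9, 8, 9, 10, 9, 9, 9, 9, 9, 9, 9, 8, 9, 9, 10],
  [9, 8, 8, 11, 10, 8, 9, 10, 8, 9, 9, 9, 9, 10, 9, 10, 7],
  [9, 9, 9, 10, 9, 8, 9, 9, 9, 9, 9, 9, 9, 10, 9, 9, 8],
  [9, 9, 10, 8, 8, 11, 8, 9, 8, 10, 9, 9, 9, 7, 9, 10, 10],
  [9, 9, 9, 9, 9, 8, 9, 9, 10, 9, 9, 9, 9, 10, 9, 8, 9],
  [9, 9, 9, 10, 9, 9, 9, 9, 8, 9, 9, 9, 9, 9, 9, 10, 8],
  [9, 10, 9, 8, 9, 8, 10, 8, 11, 8, 9, 9, 9, 10, 9, 7, 10],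
  [9, 9, 9, 9, 9, 10, 9, 9, 8, 9, 9, 9, 9, 8, 9, 10, 9],
  [9, 9, 9, 9, 9, 9, 9, 9, 9, 9, 9, 9, 9, 9, 9, 9, 9],
  [9, 9, 9, 9, 9, 9, 9, 9, 9, 9, 9, 9, 9, 9, 9, 9, 9],
  [9, 9, 9, 9, 9, 9, 9, 9, 9, 9, 9, 9, 9, 9, 9, 9, 9],
  [9, 9, 8, 10, 10, 7, 10, 9, 10, 8, 9, 9, 9, 11, 9, 8, 8],
  [9, 9, 9, 9, 9, 9, 9, 9, 9, 9, 9, 9, 9, 9, 9, 9, 9],
  [9, 8, 9, 10, 9, 10, 8, 10, 7, 10, 9, 9, 9, 8, 9, 11, 8],
  [9, 10, 10, 7, 8, 10, 9, 8, 10, 9, 9, 9, 9, 8, 9, 8, 11]]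

def tabZ : List (List ℤ) := [
  [1593, 1593, 1593, 1593, 1593, 1593, 1593, 1593, 1593, 1593, 1593, 1593, 1593, 1593, 1593, 1593, 1593],
  [1593, 1593, 1593, 1593, 1593, 1593, 1593, 1593, 1593, 1593, 1593, 1593, 1593, 1593, 1593, 1593, 1593],
  [1593, 1593, 1593, 1593, 1593, 1593, 1593, 1593, 1593, 1593, 1593, 1593, 1593, 1593, 1593, 1593, 1593],
  [1593, 1593, 1593, 1593, 1593, 1593, 1593, 1593, 1593, 1593, 1593, 1593, 1593, 1593, 1593, 1593, 1593],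
  [1593, 1593, 1593, 1593, 1593, 1593, 1593, 1593, 1593, 1593, 1593, 1593, 1593, 1593, 1593, 1593, 1593],
  [1593, 1593, 1593, 1593, 1593, 1593, 1593, 1593, 1593, 1593, 1593, 1593, 1593, 1593, 1593, 1593, 1593],
  [1593, 1593, 1593, 1593, 1593, 1593, 1593, 1593, 1593, 1593, 1593, 1593, 1593, 1593, 1593, 1593, 1593],
  [1593, 1593, 1593, 1593, 1593, 1593, 1593, 1593, 1593, 1593, 1593, 1593, 1593, 1593, 1593, 1593, 1593],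
  [1593, 1593, 1593, 1593, 1593, 1593, 1593, 1593, 1593, 1593, 1593, 1593, 1593, 1593, 1593, 1593, 1593],
  [1593, 1593, 1593, 1593, 1593, 1593, 1593, 1593, 1593, 1593, 1593, 1593, 1593, 1593, 1593, 1593, 1593],
  [1593, 1593, 1593, 1593, 1593, 1593, 1593, 1593, 1593, 1593, 1593, 1593, 1593, 1593, 1593, 1593, 1593],
  [1593, 1593, 1593, 1593, 1593, 1593, 1593, 1593, 1593, 1593, 1593, 1593, 1593, 1593, 1593, 1593, 1593],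
  [1593, 1593, 1593, 1593, 1593, 1593, 1593, 1593, 1593, 1593, 1593, 1593, 1593, 1593, 1593, 1593, 1593],
  [1593, 1593, 1593, 1593, 1593, 1593, 1593, 1593, 1593, 1593, 1593, 1593, 1593, 1593, 1593, 1593, 1593],
  [1593, 1593, 1593, 1593, 1593, 1593, 1593, 1593, 1593, 1593, 1593, 1593, 1593, 1593, 1593, 1593, 1593],
  [1593, 1593, 1593, 1593, 1593, 1593, 1593, 1593, 1593, 1593, 1593, 1593, 1593, 1593, 1593, 1593, 1593],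
  [1593, 1593, 1593, 1593, 1593, 1593, 1593, 1593, 1593, 1593, 1593, 1593, 1593, 1593, 1593, 1593, 1593]]

def Bm : Matrix (Fin 17) (Fin 17) ℤ := fun i j => Bz i j
def Nm : Matrix (Fin 17) (Fin 17) ℤ := fun i j => (tabN.getD i []).getD j 0
def Xm : Matrix (Fin 17) (Fin 17) ℤ := fun i j => (tabX.getD i []).getD j 0
def Zm : Matrix (Fin 17) (Fin 17) ℤ := fun i j => (tabZ.getD i []).getD j 0

lemma N_eq : Bm * Bmᵀ = Nm := by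
  ext i j
  rw [Matrix.mul_apply]
  revert i j
  change ∀ i j : Fin 17, (∑ k, Bz i k * Bz j k) = (tabN.getD i []).getD j 0
  decide +kernel

lemma X_eq : Nm * Nm = Xm + (7 : ℤ) • Nm - (9 : ℤ) • 1 := by
  ext i j
  rw [Matrix.mul_apply]
  simp only [Matrix.add_apply, Matrix.sub_apply, Matrix.smul_apply, smul_eq_mul, Matrix.one_apply]
  revert i j
  decide +kernel

def Ym : Matrix (Fin 17) (Fin 17) ℤ := fun i j =>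
  Xm i j + 2 * Nm i j - 8 * (if i = j then 1 else 0)

lemma Y_eq : Ym = Xm + (2 : ℤ) • Nm - (8 : ℤ) • 1 := by
  ext i j
  simp only [Matrix.add_apply, Matrix.sub_apply, Matrix.smul_apply, smul_eq_mul, Matrix.one_apply]
  rfl

lemma Z_eq : Xm * Ym = Zm := by
  ext i j
  rw [Matrix.mul_apply]
  revert i j
  change ∀ i j : Fin 17, (∑ k : Fin 17, Xm i k * Ym k j) = ((tabZ.getD i []).getD j 0 : ℤ)
  decide +kernel

lemma fin_eq : Nm * Zm = (16 : ℤ) • Zm := by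
  ext i j
  rw [Matrix.mul_apply]
  simp only [Matrix.smul_apply, smul_eq_mul]
  revert i j
  decide +kernel

/-- Casting integer matrices to real ones. -/
noncomputable abbrev φ : Matrix (Fin 17) (Fin 17) ℤ →+* Matrix (Fin 17) (Fin 17) ℝ :=
  (Int.castRingHom ℝ).mapMatrix

lemma φ_smul (z : ℤ) (M : Matrix (Fin 17) (Fin 17) ℤ) : φ (z • M) = (z : ℝ) • φ M := by
  ext i j
  change (((z • M) i j : ℤ) : ℝ) = (z : ℝ) * ((M i j : ℤ) : ℝ)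
  rw [Matrix.smul_apply, smul_eq_mul]
  push_cast
  ring

lemma poly_vec (x : Fin 17 → ℝ) (τ : ℝ) (h : (φ Nm).mulVec x = τ • x) :
    ((τ - 16) * ((τ ^ 2 - 7 * τ + 9) * (τ ^ 2 - 5 * τ + 1))) • x = 0 := by
  have hX : (φ Xm).mulVec x = (τ ^ 2 - 7 * τ + 9) • x := by
    have h1 : φ Xm = φ Nm * φ Nm - (7 : ℝ) • φ Nm + (9 : ℝ) • 1 := by
      have := congrArg φ X_eq
      rw [map_mul, map_sub, map_add, φ_smul, φ_smul, map_one] at this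
      rw [this]
      ext i j
      simp only [Matrix.add_apply, Matrix.sub_apply, Matrix.smul_apply, smul_eq_mul]
      push_cast; ring
    rw [h1, Matrix.add_mulVec, Matrix.sub_mulVec, ← Matrix.mulVec_mulVec, h, Matrix.mulVec_smul, h,
      Matrix.smul_mulVec, h, Matrix.smul_mulVec, Matrix.one_mulVec]
    ext i; simp only [Pi.add_apply, Pi.sub_apply, Pi.smul_apply, smul_eq_mul]; ring
  have hZ : (φ Zm).mulVec x = ((τ ^ 2 - 7 * τ + 9) * (τ ^ 2 - 5 * τ + 1)) • x := by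
    have h1 : φ Zm = φ Xm * (φ Xm + (2 : ℝ) • φ Nm - (8 : ℝ) • 1) := by
      have := congrArg φ Z_eq
      rw [map_mul, Y_eq, map_sub, map_add, φ_smul, φ_smul, map_one] at this
      rw [← this]
      push_cast; rfl
    have h2 : (φ Xm + (2 : ℝ) • φ Nm - (8 : ℝ) • (1 : Matrix (Fin 17) (Fin 17) ℝ)).mulVec x
        = (τ ^ 2 - 5 * τ + 1) • x := by
      rw [Matrix.sub_mulVec, Matrix.add_mulVec, hX, Matrix.smul_mulVec, h, Matrix.smul_mulVec,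
        Matrix.one_mulVec]
      ext i; simp only [Pi.add_apply, Pi.sub_apply, Pi.smul_apply, smul_eq_mul]; ring
    rw [h1, ← Matrix.mulVec_mulVec, h2, Matrix.mulVec_smul, hX]
    ext i; simp only [Pi.smul_apply, smul_eq_mul]; ring
  have h3 : φ Nm * φ Zm = (16 : ℝ) • φ Zm := by
    have := congrArg φ fin_eq
    rw [map_mul, φ_smul] at this
    rw [this]
    push_cast; rfl
  have h4 : (φ Nm * φ Zm).mulVec x = ((16 : ℝ) • φ Zm).mulVec x := by rw [h3]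
  rw [← Matrix.mulVec_mulVec, hZ, Matrix.mulVec_smul, h, Matrix.smul_mulVec, hZ] at h4
  ext i
  have h5 := congrFun h4 i
  simp only [Pi.smul_apply, smul_eq_mul, Pi.zero_apply] at h5 ⊢
  linear_combination h5

lemma adj_inl (v : V34 → ℝ) (i : Fin 17) :
    (G.adjMatrix ℝ).mulVec v (Sum.inl i) = (φ Bm).mulVec (fun j => v (Sum.inr j)) i := by
  simp only [Matrix.mulVec, dotProduct, Fintype.sum_sum_type, SimpleGraph.adjMatrix_apply]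
  have h1 : ∀ k : Fin 17, (if G.Adj (Sum.inl i) (Sum.inl k) then (1 : ℝ) else 0) = 0 := by
    intro k; rw [if_neg]; intro h; exact Bool.noConfusion h
  have h2 : ∀ k : Fin 17, (if G.Adj (Sum.inl i) (Sum.inr k) then (1 : ℝ) else 0) = φ Bm i k := by
    intro k
    change (if adjB (Sum.inl i) (Sum.inr k) = true then (1 : ℝ) else 0) = ((Bz i k : ℤ) : ℝ)
    rw [Bz_eq i k]
    push_cast
    rfl
  simp only [h1, h2, zero_mul, Finset.sum_const_zero, zero_add]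

lemma adj_inr (v : V34 → ℝ) (j : Fin 17) :
    (G.adjMatrix ℝ).mulVec v (Sum.inr j) = (φ Bmᵀ).mulVec (fun i => v (Sum.inl i)) j := by
  simp only [Matrix.mulVec, dotProduct, Fintype.sum_sum_type, SimpleGraph.adjMatrix_apply]
  have h1 : ∀ k : Fin 17, (if G.Adj (Sum.inr j) (Sum.inr k) then (1 : ℝ) else 0) = 0 := by
    intro k; rw [if_neg]; intro h; exact Bool.noConfusion h
  have h2 : ∀ k : Fin 17, (if G.Adj (Sum.inr j) (Sum.inl k) then (1 : ℝ) else 0) = φ Bmᵀ j k := by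
    intro k
    change (if adjB (Sum.inr j) (Sum.inl k) = true then (1 : ℝ) else 0) = ((Bz k j : ℤ) : ℝ)
    rw [Bz_eq k j, adjB_symm]
    push_cast
    rfl
  simp only [h1, h2, zero_mul, Finset.sum_const_zero, add_zero]

/-- `μ = (1+√13)/2`. -/
noncomputable def mu : ℝ := (1 + √13) / 2

lemma mu_sq : mu ^ 2 = mu + 3 := by
  unfold mu
  have h : √(13 : ℝ) ^ 2 = 13 := Real.sq_sqrt (by norm_num)
  nlinarith

lemma mu_gt : 2 < mu := by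
  unfold mu
  have : (3 : ℝ) < √13 := by rw [Real.lt_sqrt (by norm_num)]; norm_num
  linarith

lemma mu_lt : mu < 5 / 2 := by
  unfold mu
  have : √(13 : ℝ) < 4 := by rw [Real.sqrt_lt' (by norm_num)]; norm_num
  linarith

lemma all_eig (a : ℝ) (v : V34 → ℝ) (hv : v ≠ 0) (h : (G.adjMatrix ℝ).mulVec v = a • v) :
    ((4 : ℕ) : ℝ) ≤ a ∨ a ≤ mu := by
  by_contra hcon
  push Not at hcon
  obtain ⟨h4, hmu⟩ := hcon
  have hm := mu_gt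
  set x : Fin 17 → ℝ := fun i => v (Sum.inl i) with hx
  set y : Fin 17 → ℝ := fun j => v (Sum.inr j) with hy
  have hB : (φ Bm).mulVec y = a • x := by
    ext i; rw [← adj_inl v i, h]; rfl
  have hBt : (φ Bmᵀ).mulVec x = a • y := by
    ext j; rw [← adj_inr v j, h]; rfl
  have hN : (φ Nm).mulVec x = (a ^ 2) • x := by
    rw [← N_eq, map_mul, ← Matrix.mulVec_mulVec, hBt, Matrix.mulVec_smul, hB, smul_smul, sq]
  have hp := poly_vec x _ hN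
  rcases smul_eq_zero.mp hp with h0 | h0
  · have h5 : mu ^ 2 < a ^ 2 := by nlinarith
    have h6 := mu_sq
    have h7 : a ^ 2 < 16 := by
      have : a < 4 := by exact_mod_cast h4
      nlinarith
    rcases mul_eq_zero.mp h0 with h8 | h8
    · linarith
    · rcases mul_eq_zero.mp h8 with h9 | h9
      · nlinarith
      · nlinarith
  · have hy0 : y = 0 := by
      rw [h0, Matrix.mulVec_zero] at hBt
      rcases smul_eq_zero.mp hBt.symm with h1 | h1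
      · linarith
      · exact h1
    apply hv
    ext z
    rcases z with i | j
    · exact congrFun h0 i
    · exact congrFun hy0 j

lemma e1 : ∀ i : Fin 17, (∑ j : Fin 17, Bz i j * w0 (Sum.inr j)) = 3 * w1 (Sum.inl i) := by
  decide +kernel
lemma e2 : ∀ j : Fin 17, (∑ i : Fin 17, Bz i j * w0 (Sum.inl i)) = 3 * w1 (Sum.inr j) := by
  decide +kernel
lemma e3 : ∀ i : Fin 17, (∑ j : Fin 17, Bz i j * w1 (Sum.inr j))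
    = w0 (Sum.inl i) + w1 (Sum.inl i) := by
  decide +kernel
lemma e4 : ∀ j : Fin 17, (∑ i : Fin 17, Bz i j * w1 (Sum.inl i))
    = w0 (Sum.inr j) + w1 (Sum.inr j) := by
  decide +kernel

lemma ex_eig : ∃ v : V34 → ℝ, v ≠ 0 ∧ (G.adjMatrix ℝ).mulVec v = mu • v := by
  refine ⟨fun x => (w0 x : ℝ) + mu * (w1 x : ℝ), ?_, ?_⟩
  · intro h
    have h1 := congrFun h (Sum.inl 0)
    have h2 : w0 (Sum.inl 0) = 12 := by decide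
    have h3 : w1 (Sum.inl 0) = 0 := by decide
    simp only [h2, h3, Pi.zero_apply] at h1
    norm_num at h1
  · have hm := mu_sq
    ext x
    rcases x with i | j
    · rw [adj_inl]
      have hh : (φ Bm).mulVec (fun j => (w0 (Sum.inr j) : ℝ) + mu * (w1 (Sum.inr j) : ℝ)) i
          = ((∑ j : Fin 17, Bz i j * w0 (Sum.inr j) : ℤ) : ℝ)
            + mu * ((∑ j : Fin 17, Bz i j * w1 (Sum.inr j) : ℤ) : ℝ) := by
        change ∑ j : Fin 17, ((Bz i j : ℤ) : ℝ) * ((w0 (Sum.inr j) : ℝ) + mu * (w1 (Sum.inr j) : ℝ)) = _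
        push_cast
        rw [Finset.mul_sum, ← Finset.sum_add_distrib]
        exact Finset.sum_congr rfl (fun j _ => by ring)
      rw [hh, e1, e3]
      simp only [Pi.smul_apply, smul_eq_mul]
      push_cast
      linear_combination -(w1 (Sum.inl i) : ℝ) * hm
    · rw [adj_inr]
      have hh : (φ Bmᵀ).mulVec (fun i => (w0 (Sum.inl i) : ℝ) + mu * (w1 (Sum.inl i) : ℝ)) j
          = ((∑ i : Fin 17, Bz i j * w0 (Sum.inl i) : ℤ) : ℝ)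
            + mu * ((∑ i : Fin 17, Bz i j * w1 (Sum.inl i) : ℤ) : ℝ) := by
        change ∑ i : Fin 17, ((Bz i j : ℤ) : ℝ) * ((w0 (Sum.inl i) : ℝ) + mu * (w1 (Sum.inl i) : ℝ)) = _
        push_cast
        rw [Finset.mul_sum, ← Finset.sum_add_distrib]
        exact Finset.sum_congr rfl (fun j _ => by ring)
      rw [hh, e2, e4]
      simp only [Pi.smul_apply, smul_eq_mul]
      push_cast
      linear_combination -(w1 (Sum.inr j) : ℝ) * hm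

lemma algConn_G : algConn G = 4 - mu := by
  have := algConn_eq_of_regular G 4 reg diam5.1 mu (by have := mu_lt; push_cast; linarith)
    all_eig ex_eig
  rw [this]; norm_num

/-! ### The angle -/

lemma sq3 : √(3 : ℝ) ^ 2 = 3 := Real.sq_sqrt (by norm_num)
lemma sqrt3_pos : 0 < √(3 : ℝ) := Real.sqrt_pos.mpr (by norm_num)
lemma sqrt3_gt : 17 / 10 < √(3 : ℝ) := by rw [Real.lt_sqrt (by norm_num)]; norm_num

noncomputable def c0 : ℝ := mu / (2 * √3)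

lemma c0_pos : 0 < c0 := div_pos (by have := mu_gt; linarith) (by have := sqrt3_pos; linarith)
lemma c0_mul : 2 * √3 * c0 = mu := by
  unfold c0; field_simp
lemma c0_lt : c0 < 1 := by
  unfold c0; rw [div_lt_one (by have := sqrt3_pos; linarith)]
  have := sqrt3_gt; have := mu_lt; linarith

lemma poly_c (c : ℝ) : √3 * ((4 * c ^ 2 - 1) * (√3 * (4 - 2 * c ^ 2) + 2 * c)
    + (2 * √3 * c + 4) * (c * (4 * c ^ 2 - 3)))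
    = (2 * √3 * c + 4) * ((2 * √3 * c) ^ 2 - 2 * √3 * c - 3) := by
  have h := sq3
  linear_combination (-8 * c ^ 3 * √3 - 4) * h

lemma cos_pos_of {t : ℝ} (h0 : 0 < t) (h1 : t < Real.arccos c0) : c0 < Real.cos t := by
  have := Real.cos_lt_cos_of_nonneg_of_le_pi h0.le (Real.arccos_le_pi c0) h1
  rwa [Real.cos_arccos (by have := c0_pos; linarith) c0_lt.le] at this

lemma angle_iff (t : ℝ) : AngleEq 4 5 t ↔ (Real.cos (3 * t) ≠ 0 ∧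
    √3 * (4 - 2 * Real.cos t ^ 2) + 2 * Real.cos t ≠ 0 ∧
    Real.tan (3 * t) = -(((2 * √3 * Real.cos t + 4) * Real.sin t) /
      (√3 * (4 - 2 * Real.cos t ^ 2) + 2 * Real.cos t))) := by
  unfold AngleEq
  have h4 : ((4 : ℕ) : ℝ) - 1 = 3 := by norm_num
  have h5 : ((4 : ℕ) : ℝ) - 2 = 2 := by norm_num
  have h6 : ((4 : ℕ) : ℝ) = 4 := by norm_num
  rw [h4, h5, h6]
  constructor
  · rintro (⟨K, hK, _⟩ | ⟨K, hK, h⟩)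
    · omega
    · obtain rfl : K = 3 := by omega
      push_cast at h
      exact h
  · intro h
    right
    exact ⟨3, rfl, by push_cast; exact h⟩

lemma isLeast_angle : IsLeast {t : ℝ | 0 < t ∧ AngleEq 4 5 t} (Real.arccos c0) := by
  have hs := sqrt3_pos
  have hs2 := sq3
  have hc0 := c0_pos
  have hc1 := c0_lt
  have hmul := c0_mul
  have hmg := mu_gt
  have hml := mu_lt
  have hms := mu_sq
  have hpos : 0 < Real.arccos c0 := Real.arccos_pos.mpr hc1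
  have hcos : Real.cos (Real.arccos c0) = c0 := Real.cos_arccos (by linarith) hc1.le
  have hden : ∀ c : ℝ, 0 < c → c ≤ 1 → 0 < √3 * (4 - 2 * c ^ 2) + 2 * c := by
    intro c h1 h2
    have : 0 < √3 * (4 - 2 * c ^ 2) := mul_pos hs (by nlinarith)
    linarith
  have hc0sq : 12 * c0 ^ 2 = mu + 3 := by
    have : (2 * √3 * c0) ^ 2 = mu ^ 2 := by rw [hmul]
    nlinarith
  constructor
  · refine ⟨hpos, ?_⟩
    rw [angle_iff, hcos]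
    have h3 : c0 * (4 * c0 ^ 2 - 3) ≠ 0 := by
      apply mul_ne_zero hc0.ne'
      nlinarith
    have hcos3 : Real.cos (3 * Real.arccos c0) = c0 * (4 * c0 ^ 2 - 3) := by
      rw [Real.cos_three_mul, hcos]; ring
    have hd := hden c0 hc0 hc1.le
    refine ⟨by rw [hcos3]; exact h3, hd.ne', ?_⟩
    have hsc := Real.sin_sq_add_cos_sq (Real.arccos c0)
    rw [hcos] at hsc
    have hsin3 : Real.sin (3 * Real.arccos c0)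
        = Real.sin (Real.arccos c0) * (4 * c0 ^ 2 - 1) := by
      rw [Real.sin_three_mul]
      linear_combination (-4 * Real.sin (Real.arccos c0)) * hsc
    rw [Real.tan_eq_sin_div_cos, hsin3, hcos3, ← neg_div, div_eq_div_iff h3 hd.ne']
    have hp := poly_c c0
    have hz : (2 * √3 * c0) ^ 2 - 2 * √3 * c0 - 3 = 0 := by rw [hmul]; linarith
    rw [hz, mul_zero] at hp
    have hp2 := (mul_eq_zero.mp hp).resolve_left hs.ne'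
    linear_combination (Real.sin (Real.arccos c0)) * hp2
  · rintro t ⟨ht0, ht⟩
    by_contra hlt
    push Not at hlt
    have hct := cos_pos_of ht0 hlt
    rw [angle_iff] at ht
    obtain ⟨h1, h2, h3⟩ := ht
    have hpi : t < Real.pi := lt_of_lt_of_le hlt (Real.arccos_le_pi c0)
    have hsin : 0 < Real.sin t := Real.sin_pos_of_pos_of_lt_pi ht0 hpi
    have hsc := Real.sin_sq_add_cos_sq t
    have hcos3 : Real.cos (3 * t) = Real.cos t * (4 * Real.cos t ^ 2 - 3) := by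
      rw [Real.cos_three_mul]; ring
    have hsin3 : Real.sin (3 * t) = Real.sin t * (4 * Real.cos t ^ 2 - 1) := by
      rw [Real.sin_three_mul]
      linear_combination (-4 * Real.sin t) * hsc
    rw [Real.tan_eq_sin_div_cos, ← neg_div, div_eq_div_iff h1 h2, hsin3, hcos3] at h3
    have h4 : Real.sin t * ((4 * Real.cos t ^ 2 - 1) * (√3 * (4 - 2 * Real.cos t ^ 2)
        + 2 * Real.cos t) + (2 * √3 * Real.cos t + 4)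
          * (Real.cos t * (4 * Real.cos t ^ 2 - 3))) = 0 := by
      linear_combination h3
    have h5 := (mul_eq_zero.mp h4).resolve_left hsin.ne'
    have hp := poly_c (Real.cos t)
    rw [h5, mul_zero] at hp
    have h6 : mu < 2 * √3 * Real.cos t := by
      rw [← hmul]; exact mul_lt_mul_of_pos_left hct (by positivity)
    have h7 : 0 < 2 * √3 * Real.cos t + 4 := by linarith
    have h8 := (mul_eq_zero.mp hp.symm).resolve_left h7.ne'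
    nlinarith

theorem diamMax : DiameterMaximal G 4 5 := by
  refine ⟨diam5.1, reg, diam5.2, Real.arccos c0, isLeast_angle, ?_⟩
  rw [algConn_G, Real.cos_arccos (by have := c0_pos; linarith) c0_lt.le]
  have h4 : ((4 : ℕ) : ℝ) - 1 = 3 := by norm_num
  rw [h4, c0_mul]; norm_num

/-- A closed walk of length four which is a cycle. -/
theorem girth_le : G.girth ≤ 4 := by
  have h1 : G.Adj (Sum.inl 3) (Sum.inr 14) := by decide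
  have h2 : G.Adj (Sum.inr 14) (Sum.inl 16) := by decide
  have h3 : G.Adj (Sum.inl 16) (Sum.inr 16) := by decide
  have h4 : G.Adj (Sum.inr 16) (Sum.inl 3) := by decide
  have hc : (Walk.cons h1 (Walk.cons h2 (Walk.cons h3 (Walk.cons h4 Walk.nil)))).IsCycle := by
    rw [Walk.cons_isCycle_iff]
    refine ⟨?_, ?_⟩
    · simp [Walk.cons_isPath_iff]
    · simp
  exact girth_le_length hc

end Pool.Agent.V1170.DM.Q1
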