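import Pool.Agent.V1170.DMBase

set_option autoImplicit false

namespace Pool.Agent.V1170.DM.Q2

open Matrix SimpleGraph

def rowsA : List (List ℤ) := [
  [0, 1, 1, 1, 1, 1, 0, 0, 0, 0, 0, 0, 0, 0, 0, 0, 0, 0, 0, 0, 0, 0],
  [1, 0, 0, 0, 0, 0, 0, 0, 0, 0, 0, 0, 1, 1, 1, 0, 0, 0, 0, 0, 0, 1],
  [1, 0, 0, 0, 0, 0, 0, 0, 0, 0, 0, 0, 0, 0, 0, 0, 1, 0, 1, 0, 1, 1],
  [1, 0, 0, 0, 0, 0, 0, 0, 0, 0, 0, 0, 0, 1, 0, 1, 0, 0, 1, 1, 0, 0],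
  [1, 0, 0, 0, 0, 0, 0, 0, 0, 0, 0, 0, 0, 0, 1, 0, 1, 1, 0, 1, 0, 0],
  [1, 0, 0, 0, 0, 0, 0, 0, 0, 0, 0, 0, 1, 0, 0, 1, 0, 1, 0, 0, 1, 0],
  [0, 0, 0, 0, 0, 0, 0, 1, 1, 1, 1, 1, 0, 0, 0, 0, 0, 0, 0, 0, 0, 0],
  [0, 0, 0, 0, 0, 0, 1, 0, 0, 0, 0, 0, 0, 1, 1, 1, 0, 0, 0, 0, 1, 0],
  [0, 0, 0, 0, 0, 0, 1, 0, 0, 0, 0, 0, 0, 1, 0, 0, 1, 1, 1, 0, 0, 0],
  [0, 0, 0, 0, 0, 0, 1, 0, 0, 0, 0, 0, 1, 0, 0, 0, 0, 1, 1, 1, 0, 0],
  [0, 0, 0, 0, 0, 0, 1, 0, 0, 0, 0, 0, 0, 0, 1, 1, 0, 0, 0, 1, 0, 1],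
  [0, 0, 0, 0, 0, 0, 1, 0, 0, 0, 0, 0, 1, 0, 0, 0, 1, 0, 0, 0, 1, 1],
  [0, 1, 0, 0, 0, 1, 0, 0, 0, 1, 0, 1, 0, 1, 0, 0, 0, 0, 0, 0, 0, 0],
  [0, 1, 0, 1, 0, 0, 0, 1, 1, 0, 0, 0, 1, 0, 0, 0, 0, 0, 0, 0, 0, 0],
  [0, 1, 0, 0, 1, 0, 0, 1, 0, 0, 1, 0, 0, 0, 0, 0, 0, 0, 1, 0, 0, 0],
  [0, 0, 0, 1, 0, 1, 0, 1, 0, 0, 1, 0, 0, 0, 0, 0, 1, 0, 0, 0, 0, 0],
  [0, 0, 1, 0, 1, 0, 0, 0, 1, 0, 0, 1, 0, 0, 0, 1, 0, 0, 0, 0, 0, 0],
  [0, 0, 0, 0, 1, 1, 0, 0, 1, 1, 0, 0, 0, 0, 0, 0, 0, 0, 0, 0, 0, 1],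
  [0, 0, 1, 1, 0, 0, 0, 0, 1, 1, 0, 0, 0, 0, 1, 0, 0, 0, 0, 0, 0, 0],
  [0, 0, 0, 1, 1, 0, 0, 0, 0, 1, 1, 0, 0, 0, 0, 0, 0, 0, 0, 0, 1, 0],
  [0, 0, 1, 0, 0, 1, 0, 1, 0, 0, 0, 1, 0, 0, 0, 0, 0, 0, 0, 1, 0, 0],
  [0, 1, 1, 0, 0, 0, 0, 0, 0, 0, 1, 1, 0, 0, 0, 0, 0, 1, 0, 0, 0, 0]]

def tabD : List (List ℕ) := [
  [0, 1, 1, 1, 1, 1, 4, 3, 3, 3, 3, 3, 2, 2, 2, 2, 2, 2, 2, 2, 2, 2],
  [1, 0, 2, 2, 2, 2, 3, 2, 2, 2, 2, 2, 1, 1, 1, 3, 3, 2, 2, 3, 3, 1],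
  [1, 2, 0, 2, 2, 2, 3, 2, 2, 2, 2, 2, 3, 3, 2, 2, 1, 2, 1, 2, 1, 1],
  [1, 2, 2, 0, 2, 2, 3, 2, 2, 2, 2, 3, 2, 1, 2, 1, 2, 3, 1, 1, 2, 3],
  [1, 2, 2, 2, 0, 2, 3, 2, 2, 2, 2, 2, 3, 3, 1, 2, 1, 1, 2, 1, 2, 2],
  [1, 2, 2, 2, 2, 0, 3, 2, 2, 2, 2, 2, 1, 2, 3, 1, 2, 1, 3, 2, 1, 2],
  [4, 3, 3, 3, 3, 3, 0, 1, 1, 1, 1, 1, 2, 2, 2, 2, 2, 2, 2, 2, 2, 2],
  [3, 2, 2, 2, 2, 2, 1, 0, 2, 2, 2, 2, 2, 1, 1, 1, 2, 3, 2, 2, 1, 3],
  [3, 2, 2, 2, 2, 2, 1, 2, 0, 2, 2, 2, 2, 1, 2, 2, 1, 1, 1, 3, 3, 2],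
  [3, 2, 2, 2, 2, 2, 1, 2, 2, 0, 2, 2, 1, 2, 2, 3, 3, 1, 1, 1, 2, 2],
  [3, 2, 2, 2, 2, 2, 1, 2, 2, 2, 0, 2, 3, 3, 1, 1, 2, 2, 2, 1, 2, 1],
  [3, 2, 2, 3, 2, 2, 1, 2, 2, 2, 2, 0, 1, 2, 3, 2, 1, 2, 3, 2, 1, 1],
  [2, 1, 3, 2, 3, 1, 2, 2, 2, 1, 3, 1, 0, 1, 2, 2, 2, 2, 2, 2, 2, 2],
  [2, 1, 3, 1, 3, 2, 2, 1, 1, 2, 3, 2, 1, 0, 2, 2, 2, 2, 2, 2, 2, 2],
  [2, 1, 2, 2, 1, 3, 2, 1, 2, 2, 1, 3, 2, 2, 0, 2, 2, 2, 1, 2, 2, 2],
  [2, 3, 2, 1, 2, 1, 2, 1, 2, 3, 1, 2, 2, 2, 2, 0, 1, 2, 2, 2, 2, 2],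
  [2, 3, 1, 2, 1, 2, 2, 2, 1, 3, 2, 1, 2, 2, 2, 1, 0, 2, 2, 2, 2, 2],
  [2, 2, 2, 3, 1, 1, 2, 3, 1, 1, 2, 2, 2, 2, 2, 2, 2, 0, 2, 2, 2, 1],
  [2, 2, 1, 1, 2, 3, 2, 2, 1, 1, 2, 3, 2, 2, 1, 2, 2, 2, 0, 2, 2, 2],
  [2, 3, 2, 1, 1, 2, 2, 2, 3, 1, 1, 2, 2, 2, 2, 2, 2, 2, 2, 0, 1, 2],
  [2, 3, 1, 2, 2, 1, 2, 1, 3, 2, 2, 1, 2, 2, 2, 2, 2, 2, 2, 1, 0, 2],
  [2, 1, 1, 3, 2, 2, 2, 3, 2, 2, 1, 1, 2, 2, 2, 2, 2, 1, 2, 2, 2, 0]]

def tabU : List (List ℤ) := [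
  [1337, -269, -269, -269, -269, -269, -471, 67, 67, 67, 67, 67, 67, 67, 67, 67, 67, 67, 67, 67, 67, 67],
  [0, 1042, 103, 103, 103, 103, -35, 17, 17, 17, 17, 17, -328, -328, -328, 104, 104, 104, 104, 104, 104, -328],
  [0, 0, 1037, 93, 93, 93, -32, 16, 16, 16, 16, 16, 137, 137, 137, 94, -340, 94, -340, 94, -340, -297],
  [0, 0, 0, 1033, 85, 85, -29, 14, 14, 14, 14, 14, 125, -311, 125, -350, 125, 86, -311, -350, 125, 164],
  [0, 0, 0, 0, 1029, 79, -27, 13, 13, 13, 13, 13, 115, 151, -322, 115, -322, -358, 151, -322, 115, 151],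
  [0, 0, 0, 0, 0, 1026, -25, 12, 12, 12, 12, 12, -332, 140, 140, -332, 140, -332, 140, 140, -332, 140],
  [0, 0, 0, 0, 0, 0, 1250, -261, -261, -261, -261, -261, 90, 90, 90, 90, 90, 90, 90, 90, 90, 90],
  [0, 0, 0, 0, 0, 0, 0, 1042, 102, 102, 102, 102, 109, -323, -323, -323, 109, 109, 109, 109, -323, 109],
  [0, 0, 0, 0, 0, 0, 0, 0, 1036, 93, 93, 93, 99, -293, 141, 141, -336, -336, -336, 99, 141, 99],
  [0, 0, 0, 0, 0, 0, 0, 0, 0, 1032, 85, 85, -346, 168, 129, 129, 129, -307, -307, -346, 129, 90],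
  [0, 0, 0, 0, 0, 0, 0, 0, 0, 0, 1029, 78, 119, 155, -318, -318, 119, 155, 155, -318, 119, -354],
  [0, 0, 0, 0, 0, 0, 0, 0, 0, 0, 0, 1026, -328, 143, 143, 143, -328, 143, 143, 143, -328, -328],
  [0, 0, 0, 0, 0, 0, 0, 0, 0, 0, 0, 0, 726, -386, 234, 234, 234, -51, 234, 234, -51, -51],
  [0, 0, 0, 0, 0, 0, 0, 0, 0, 0, 0, 0, 0, 615, 86, 86, 423, 244, 86, 423, 244, 244],
  [0, 0, 0, 0, 0, 0, 0, 0, 0, 0, 0, 0, 0, 0, 682, -146, 115, 236, -198, -188, 236, -68],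
  [0, 0, 0, 0, 0, 0, 0, 0, 0, 0, 0, 0, 0, 0, 0, 666, -221, 293, 118, -234, -18, 226],
  [0, 0, 0, 0, 0, 0, 0, 0, 0, 0, 0, 0, 0, 0, 0, 0, 481, -188, -165, -194, -331, -146],
  [0, 0, 0, 0, 0, 0, 0, 0, 0, 0, 0, 0, 0, 0, 0, 0, 0, 537, -121, -97, -9, -397],
  [0, 0, 0, 0, 0, 0, 0, 0, 0, 0, 0, 0, 0, 0, 0, 0, 0, 0, 608, -299, 253, 79],
  [0, 0, 0, 0, 0, 0, 0, 0, 0, 0, 0, 0, 0, 0, 0, 0, 0, 0, 0, 260, -439, 291],
  [0, 0, 0, 0, 0, 0, 0, 0, 0, 0, 0, 0, 0, 0, 0, 0, 0, 0, 0, 0, 207, -115],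
  [0, 0, 0, 0, 0, 0, 0, 0, 0, 0, 0, 0, 0, 0, 0, 0, 0, 0, 0, 0, 0, 355]]

def listG0 : List ℤ := [1, 0, 0, 0, 0, 0, -1, 0, 0, 0, 0, 0, 0, 0, 0, 0, 0, 0, 0, 0, 0, 0]

def listG1 : List ℤ := [0, 1, 1, 1, 1, 1, 0, -1, -1, -1, -1, -1, 0, 0, 0, 0, 0, 0, 0, 0, 0, 0]


def az (i j : Fin 22) : ℤ := (rowsA.getD i []).getD j 0

def dst (x y : Fin 22) : ℕ := (tabD.getD x []).getD y 0

def uz (i j : Fin 22) : ℤ := (tabU.getD i []).getD j 0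

def g0 (i : Fin 22) : ℤ := listG0.getD i 0
def g1 (i : Fin 22) : ℤ := listG1.getD i 0

def adjB (x y : Fin 22) : Bool := decide (az x y = 1)

lemma adjB_symm : ∀ x y : Fin 22, adjB x y = adjB y x := by decide +kernel

lemma adjB_irrefl : ∀ x : Fin 22, adjB x x = false := by decide +kernel

/-- The graph on 22 vertices. -/
def G : SimpleGraph (Fin 22) where
  Adj x y := adjB x y = true
  symm := ⟨fun x y h => by rw [adjB_symm]; exact h⟩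
  loopless := ⟨fun x h => by rw [adjB_irrefl] at h; exact Bool.noConfusion h⟩

instance : DecidableRel G.Adj := fun x y => inferInstanceAs (Decidable (adjB x y = true))

lemma az_eq : ∀ i j : Fin 22, az i j = if adjB i j = true then 1 else 0 := by
  decide +kernel

lemma reg : G.IsRegularOfDegree 5 := by
  intro x
  have : ∀ x : Fin 22, (Finset.univ.filter (fun y => adjB x y = true)).card = 5 := by
    decide +kernel
  rw [← this x, ← G.card_neighborFinset_eq_degree]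
  congr 1
  ext y
  rw [SimpleGraph.mem_neighborFinset, Finset.mem_filter]
  exact ⟨fun h => ⟨Finset.mem_univ _, h⟩, fun h => h.2⟩

lemma diam4 : G.Connected ∧ G.diam = 4 := by
  refine diam_eq G 4 dst ?_ ?_ ?_ 0 6 ?_ ?_ ?_
  · decide +kernel
  · decide +kernel
  · change ∀ u v, dst u v ≠ 0 → ∃ w, adjB u w = true ∧ dst w v + 1 = dst u v
    decide +kernel
  · decide +kernel
  · decide +kernel
  · change ∀ u w, adjB u w = true → dst u 6 ≤ dst w 6 + 1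
    decide +kernel

/-! ### Positive semidefiniteness from an integer certificate -/

lemma psd_of_cert {n : ℕ} (S U R : Fin n → Fin n → ℤ) (N : ℤ) (hN : 0 < N)
    (hR : ∀ i j, R i j = N ^ 2 * S i j - ∑ k, U k i * U k j)
    (hsymm : ∀ i j, R i j = R j i)
    (hdd : ∀ i, ∑ j, |R i j| ≤ 2 * R i i) (x : Fin n → ℝ) :
    0 ≤ ∑ i, ∑ j, (S i j : ℝ) * x i * x j := by
  have hN' : (0 : ℝ) < N := by exact_mod_cast hN
  have h1 : (N : ℝ) ^ 2 * ∑ i, ∑ j, (S i j : ℝ) * x i * x j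
      = ∑ i, ∑ j, (∑ k, (U k i : ℝ) * U k j) * x i * x j
        + ∑ i, ∑ j, (R i j : ℝ) * x i * x j := by
    rw [Finset.mul_sum, ← Finset.sum_add_distrib]
    refine Finset.sum_congr rfl fun i _ => ?_
    rw [Finset.mul_sum, ← Finset.sum_add_distrib]
    refine Finset.sum_congr rfl fun j _ => ?_
    have : (R i j : ℝ) = (N : ℝ) ^ 2 * S i j - ∑ k, (U k i : ℝ) * U k j := by
      rw [hR i j]; push_cast; ring
    rw [this]; ring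
  have h2 : ∑ i, ∑ j, (∑ k, (U k i : ℝ) * U k j) * x i * x j
      = ∑ k, (∑ i, (U k i : ℝ) * x i) ^ 2 := by
    simp only [sq, Finset.sum_mul_sum]
    simp only [Finset.sum_mul]
    rw [Finset.sum_congr rfl (fun i _ => Finset.sum_comm)]
    rw [Finset.sum_comm]
    refine Finset.sum_congr rfl fun k _ => Finset.sum_congr rfl fun i _ =>
      Finset.sum_congr rfl fun j _ => ?_
    ring
  have h3 : 0 ≤ ∑ i, ∑ j, (R i j : ℝ) * x i * x j := by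
    have h4 : ∀ i j, -(|(R i j : ℝ)| * x i ^ 2 / 2) - |(R i j : ℝ)| * x j ^ 2 / 2
        + (if i = j then 2 * (R i i : ℝ) * x i ^ 2 else 0) ≤ (R i j : ℝ) * x i * x j := by
      intro i j
      by_cases hij : i = j
      · subst hij
        have hpos : (0 : ℝ) ≤ R i i := by
          have h5 := hdd i
          have h6 : 0 ≤ ∑ j, |R i j| := Finset.sum_nonneg fun j _ => abs_nonneg _
          have : 0 ≤ R i i := by omega
          exact_mod_cast this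
        rw [if_pos rfl, abs_of_nonneg hpos]
        nlinarith
      · rw [if_neg hij]
        have h5 : -(|(R i j : ℝ)| * (|x i| * |x j|)) ≤ (R i j : ℝ) * x i * x j := by
          have := neg_abs_le ((R i j : ℝ) * x i * x j)
          rw [abs_mul, abs_mul] at this
          linarith
        have h6 : |x i| * |x j| ≤ x i ^ 2 / 2 + x j ^ 2 / 2 := by
          have := sq_nonneg (|x i| - |x j|)
          have h7 := sq_abs (x i)
          have h8 := sq_abs (x j)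
          nlinarith
        have h7 := mul_le_mul_of_nonneg_left h6 (abs_nonneg (R i j : ℝ))
        linarith
    have h5 : 0 ≤ ∑ i, ∑ j, (-(|(R i j : ℝ)| * x i ^ 2 / 2) - |(R i j : ℝ)| * x j ^ 2 / 2
        + (if i = j then 2 * (R i i : ℝ) * x i ^ 2 else 0)) := by
      simp only [Finset.sum_add_distrib, Finset.sum_sub_distrib]
      have h6 : ∑ i, ∑ j, |(R i j : ℝ)| * x j ^ 2 / 2 = ∑ i, ∑ j, |(R i j : ℝ)| * x i ^ 2 / 2 := by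
        rw [Finset.sum_comm]
        refine Finset.sum_congr rfl fun i _ => Finset.sum_congr rfl fun j _ => ?_
        rw [hsymm j i]
      rw [h6]
      have h7 : ∑ i : Fin n, ∑ j : Fin n, (if i = j then 2 * (R i i : ℝ) * x i ^ 2 else 0)
          = ∑ i, 2 * (R i i : ℝ) * x i ^ 2 := by
        refine Finset.sum_congr rfl fun i _ => ?_
        rw [Finset.sum_ite_eq]; simp
      rw [h7]
      have h8 : ∑ i, ∑ j, -(|(R i j : ℝ)| * x i ^ 2 / 2) - ∑ i, ∑ j, |(R i j : ℝ)| * x i ^ 2 / 2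
          + ∑ i, 2 * (R i i : ℝ) * x i ^ 2
          = ∑ i, (2 * (R i i : ℝ) - ∑ j, |(R i j : ℝ)|) * x i ^ 2 := by
        rw [← Finset.sum_sub_distrib, ← Finset.sum_add_distrib]
        refine Finset.sum_congr rfl fun i _ => ?_
        rw [← Finset.sum_sub_distrib, sub_mul, Finset.sum_mul, add_comm, sub_eq_add_neg,
          ← Finset.sum_neg_distrib]
        congr 1
        refine Finset.sum_congr rfl fun j _ => ?_
        ring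
      rw [h8]
      refine Finset.sum_nonneg fun i _ => mul_nonneg ?_ (sq_nonneg _)
      have h9 := hdd i
      have h10 : ((∑ j, |R i j| : ℤ) : ℝ) ≤ ((2 * R i i : ℤ) : ℝ) := by exact_mod_cast h9
      push_cast at h10
      linarith
    exact h5.trans (Finset.sum_le_sum fun i _ => Finset.sum_le_sum fun j _ => h4 i j)
  have h4 : 0 ≤ (N : ℝ) ^ 2 * ∑ i, ∑ j, (S i j : ℝ) * x i * x j := by
    rw [h1, h2]
    exact add_nonneg (Finset.sum_nonneg fun k _ => sq_nonneg _) h3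
  exact nonneg_of_mul_nonneg_right h4 (by positivity)

def sz (i j : Fin 22) : ℤ :=
  11 * (if i = j then 1 else 0) - 5 * az i j + 1 + 8 * g0 i * g0 j + g1 i * g1 j

def rz (i j : Fin 22) : ℤ := 90000 * sz i j - ∑ k, uz k i * uz k j

lemma rz_symm : ∀ i j : Fin 22, rz i j = rz j i := by decide +kernel

lemma rz_dd : ∀ i : Fin 22, (∑ j : Fin 22, |rz i j|) ≤ 2 * rz i i := by decide +kernel

lemma psd (x : Fin 22 → ℝ) : 0 ≤ ∑ i, ∑ j, (sz i j : ℝ) * x i * x j :=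
  psd_of_cert sz uz rz 300 (by norm_num) (fun i j => by unfold rz; norm_num) rz_symm rz_dd x

/-! ### Eigenvalues -/

lemma adj_apply (v : Fin 22 → ℝ) (i : Fin 22) :
    (G.adjMatrix ℝ).mulVec v i = ∑ j, (az i j : ℝ) * v j := by
  simp only [Matrix.mulVec, dotProduct, SimpleGraph.adjMatrix_apply]
  refine Finset.sum_congr rfl fun j _ => ?_
  congr 1
  change (if adjB i j = true then (1 : ℝ) else 0) = ((az i j : ℤ) : ℝ)
  rw [az_eq i j]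
  push_cast
  rfl

lemma pair (v : Fin 22 → ℝ) (a : ℝ) (h : (G.adjMatrix ℝ).mulVec v = a • v)
    (g k : Fin 22 → ℤ) (hgk : ∀ j, ∑ i, g i * az i j = k j) :
    a * ∑ i, (g i : ℝ) * v i = ∑ j, (k j : ℝ) * v j := by
  have h1 : ∑ i, (g i : ℝ) * (G.adjMatrix ℝ).mulVec v i = a * ∑ i, (g i : ℝ) * v i := by
    rw [h, Finset.mul_sum]
    refine Finset.sum_congr rfl fun i _ => ?_
    simp only [Pi.smul_apply, smul_eq_mul]; ring
  rw [← h1]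
  simp only [adj_apply, Finset.mul_sum]
  rw [Finset.sum_comm]
  refine Finset.sum_congr rfl fun j _ => ?_
  rw [← hgk j]
  push_cast
  rw [Finset.sum_mul]
  exact Finset.sum_congr rfl fun i _ => by ring

lemma p1 : ∀ j : Fin 22, (∑ i : Fin 22, (1 : ℤ) * az i j) = 5 := by decide +kernel
lemma p2 : ∀ j : Fin 22, (∑ i : Fin 22, g0 i * az i j) = g1 j := by decide +kernel
lemma p3 : ∀ j : Fin 22, (∑ i : Fin 22, g1 i * az i j) = 5 * g0 j := by decide +kernel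

lemma sq5 : √(5 : ℝ) ^ 2 = 5 := Real.sq_sqrt (by norm_num)
lemma sqrt5_gt : 11 / 5 < √(5 : ℝ) := by rw [Real.lt_sqrt (by norm_num)]; norm_num

lemma all_eig (a : ℝ) (v : Fin 22 → ℝ) (hv : v ≠ 0) (h : (G.adjMatrix ℝ).mulVec v = a • v) :
    ((5 : ℕ) : ℝ) ≤ a ∨ a ≤ √5 := by
  by_contra hcon
  push Not at hcon
  obtain ⟨h5, hs⟩ := hcon
  have h5' : a < 5 := by exact_mod_cast h5
  have hq := sq5
  have hg := sqrt5_gt
  have e1 := pair v a h (fun _ => 1) (fun _ => 5) p1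
  have e2 := pair v a h g0 g1 p2
  have e3 := pair v a h g1 (fun j => 5 * g0 j) p3
  have z1 : ∑ i, v i = 0 := by
    have : a * ∑ i, v i = 5 * ∑ i, v i := by
      have h1 : ∑ i, ((1 : ℤ) : ℝ) * v i = ∑ i, v i := by simp
      have h2 : ∑ i, ((5 : ℤ) : ℝ) * v i = 5 * ∑ i, v i := by
        rw [Finset.mul_sum]; push_cast; rfl
      rw [h1, h2] at e1; exact e1
    have h6 : (a - 5) * ∑ i, v i = 0 := by linarith
    exact (mul_eq_zero.mp h6).resolve_left (by linarith)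
  have h7 : ∑ j, ((5 * g0 j : ℤ) : ℝ) * v j = 5 * ∑ j, (g0 j : ℝ) * v j := by
    rw [Finset.mul_sum]
    exact Finset.sum_congr rfl fun j _ => by push_cast; ring
  rw [h7] at e3
  have ha2 : 5 < a ^ 2 := by nlinarith
  have z2 : ∑ i, (g0 i : ℝ) * v i = 0 := by
    have h8 : (a ^ 2 - 5) * ∑ i, (g0 i : ℝ) * v i = 0 := by
      have : a * (a * ∑ i, (g0 i : ℝ) * v i) = 5 * ∑ i, (g0 i : ℝ) * v i := by rw [e2, e3]
      linarith
    exact (mul_eq_zero.mp h8).resolve_left (by linarith)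
  have z3 : ∑ i, (g1 i : ℝ) * v i = 0 := by rw [← e2, z2, mul_zero]
  have hpsd := psd v
  have key : ∑ i, ∑ j, (sz i j : ℝ) * v i * v j
      = 11 * ∑ i, v i ^ 2 - 5 * ∑ i, v i * (G.adjMatrix ℝ).mulVec v i + (∑ i, v i) ^ 2
        + 8 * (∑ i, (g0 i : ℝ) * v i) ^ 2 + (∑ i, (g1 i : ℝ) * v i) ^ 2 := by
    have s1 : (∑ i, v i) ^ 2 = ∑ i, ∑ j, v i * v j := by rw [sq, Finset.sum_mul_sum]
    have s2 : (∑ i, (g0 i : ℝ) * v i) ^ 2 = ∑ i, ∑ j, ((g0 i : ℝ) * v i) * ((g0 j : ℝ) * v j) := by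
      rw [sq, Finset.sum_mul_sum]
    have s3 : (∑ i, (g1 i : ℝ) * v i) ^ 2 = ∑ i, ∑ j, ((g1 i : ℝ) * v i) * ((g1 j : ℝ) * v j) := by
      rw [sq, Finset.sum_mul_sum]
    have s4 : ∑ i, v i ^ 2 = ∑ i, ∑ j, (if i = j then (1 : ℝ) else 0) * v i * v j := by
      refine Finset.sum_congr rfl fun i _ => ?_
      simp [sq]
    rw [s1, s2, s3, s4]
    simp only [adj_apply, Finset.mul_sum]
    simp only [← Finset.sum_add_distrib, ← Finset.sum_sub_distrib]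
    refine Finset.sum_congr rfl fun i _ => Finset.sum_congr rfl fun j _ => ?_
    unfold sz
    push_cast
    ring
  have h9 : ∑ i, v i * (G.adjMatrix ℝ).mulVec v i = a * ∑ i, v i ^ 2 := by
    rw [h, Finset.mul_sum]
    refine Finset.sum_congr rfl fun i _ => ?_
    simp only [Pi.smul_apply, smul_eq_mul]; ring
  rw [key, z1, z2, z3, h9] at hpsd
  have hpos : 0 < ∑ i, v i ^ 2 := by
    obtain ⟨i, hi⟩ := Function.ne_iff.mp hv
    exact Finset.sum_pos' (fun i _ => sq_nonneg _) ⟨i, Finset.mem_univ _, by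
      have : v i ≠ 0 := hi
      positivity⟩
  have h10 : 0 ≤ (11 - 5 * a) * ∑ i, v i ^ 2 := by linarith
  have h11 : 11 - 5 * a < 0 := by linarith
  nlinarith [mul_neg_of_neg_of_pos h11 hpos]

lemma e1' : ∀ i : Fin 22, (∑ j : Fin 22, az i j * g0 j) = g1 i := by decide +kernel
lemma e2' : ∀ i : Fin 22, (∑ j : Fin 22, az i j * g1 j) = 5 * g0 i := by decide +kernel

lemma ex_eig : ∃ v : Fin 22 → ℝ, v ≠ 0 ∧ (G.adjMatrix ℝ).mulVec v = √5 • v := by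
  refine ⟨fun x => √5 * (g0 x : ℝ) + (g1 x : ℝ), ?_, ?_⟩
  · intro h
    have h1 := congrFun h 1
    have h2 : g0 1 = 0 := by decide
    have h3 : g1 1 = 1 := by decide
    simp only [h2, h3, Pi.zero_apply] at h1
    norm_num at h1
  · have hq := sq5
    ext x
    rw [adj_apply]
    have hh : ∑ j, (az x j : ℝ) * (√5 * (g0 j : ℝ) + (g1 j : ℝ))
        = √5 * ((∑ j : Fin 22, az x j * g0 j : ℤ) : ℝ)
          + ((∑ j : Fin 22, az x j * g1 j : ℤ) : ℝ) := by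
      push_cast
      rw [Finset.mul_sum, ← Finset.sum_add_distrib]
      exact Finset.sum_congr rfl (fun j _ => by ring)
    rw [hh, e1', e2']
    simp only [Pi.smul_apply, smul_eq_mul]
    push_cast
    linear_combination -(g0 x : ℝ) * hq

lemma sqrt5_lt : √(5 : ℝ) < 3 := by rw [Real.sqrt_lt' (by norm_num)]; norm_num

lemma algConn_G : algConn G = 5 - √5 := by
  have := algConn_eq_of_regular G 5 reg diam4.1 (√5) (by have := sqrt5_lt; push_cast; linarith)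
    all_eig ex_eig
  rw [this]; norm_num

/-! ### The angle -/

lemma angle_iff (t : ℝ) : AngleEq 5 4 t ↔ (Real.cos (2 * t) ≠ 0 ∧ Real.cos t ≠ 0 ∧
    Real.tan (2 * t) = -(5 / 3) * Real.tan t) := by
  unfold AngleEq
  have h5 : ((5 : ℕ) : ℝ) - 2 = 3 := by norm_num
  have h6 : ((5 : ℕ) : ℝ) = 5 := by norm_num
  rw [h5, h6]
  constructor
  · rintro (⟨K, hK, h⟩ | ⟨K, hK, _⟩)
    · obtain rfl : K = 2 := by omega
      push_cast at h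
      exact h
    · omega
  · intro h
    left
    exact ⟨2, rfl, by push_cast; exact h⟩

noncomputable def c0 : ℝ := √5 / 4

lemma c0_sq : c0 ^ 2 = 5 / 16 := by
  unfold c0; rw [div_pow, sq5]; norm_num
lemma c0_pos : 0 < c0 := by unfold c0; have := sqrt5_gt; linarith
lemma c0_lt : c0 < 1 := by unfold c0; have := sqrt5_lt; linarith

lemma isLeast_angle : IsLeast {t : ℝ | 0 < t ∧ AngleEq 5 4 t} (Real.arccos c0) := by
  have hc0 := c0_pos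
  have hc1 := c0_lt
  have hsq := c0_sq
  have hpos : 0 < Real.arccos c0 := Real.arccos_pos.mpr hc1
  have hcos : Real.cos (Real.arccos c0) = c0 := Real.cos_arccos (by linarith) hc1.le
  constructor
  · refine ⟨hpos, ?_⟩
    rw [angle_iff, hcos]
    have hcos2 : Real.cos (2 * Real.arccos c0) = -3 / 8 := by
      rw [Real.cos_two_mul, hcos, hsq]; norm_num
    refine ⟨by rw [hcos2]; norm_num, hc0.ne', ?_⟩
    rw [Real.tan_eq_sin_div_cos, Real.tan_eq_sin_div_cos, hcos2, Real.sin_two_mul, hcos,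
      ← mul_div_assoc, div_eq_div_iff (by norm_num) hc0.ne']
    linear_combination (2 * Real.sin (Real.arccos c0)) * hsq
  · rintro t ⟨ht0, ht⟩
    by_contra hlt
    push Not at hlt
    have hct : c0 < Real.cos t := by
      have := Real.cos_lt_cos_of_nonneg_of_le_pi ht0.le (Real.arccos_le_pi c0) hlt
      rwa [hcos] at this
    rw [angle_iff] at ht
    obtain ⟨h1, h2, h3⟩ := ht
    have hpi : t < Real.pi := lt_of_lt_of_le hlt (Real.arccos_le_pi c0)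
    have hsin : 0 < Real.sin t := Real.sin_pos_of_pos_of_lt_pi ht0 hpi
    rw [Real.tan_eq_sin_div_cos, Real.tan_eq_sin_div_cos, ← mul_div_assoc,
      div_eq_div_iff h1 h2, Real.sin_two_mul, Real.cos_two_mul] at h3
    have h4 : Real.sin t * (16 * Real.cos t ^ 2 - 5) = 0 := by
      linear_combination 3 * h3
    have h5 := (mul_eq_zero.mp h4).resolve_left hsin.ne'
    nlinarith

theorem diamMax : DiameterMaximal G 5 4 := by
  refine ⟨diam4.1, reg, diam4.2, Real.arccos c0, isLeast_angle, ?_⟩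
  rw [algConn_G, Real.cos_arccos (by have := c0_pos; linarith) c0_lt.le]
  have h4 : √(((5 : ℕ) : ℝ) - 1) = 2 := by
    rw [show ((5 : ℕ) : ℝ) - 1 = 2 ^ 2 by norm_num]
    exact Real.sqrt_sq (by norm_num)
  rw [h4]
  unfold c0
  push_cast
  ring

/-- The graph contains a triangle. -/
theorem girth_le : G.girth ≤ 3 := by
  have h1 : G.Adj 1 12 := by decide
  have h2 : G.Adj 12 13 := by decide
  have h3 : G.Adj 13 1 := by decide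
  have hc : (Walk.cons h1 (Walk.cons h2 (Walk.cons h3 Walk.nil))).IsCycle := by
    rw [Walk.cons_isCycle_iff]
    refine ⟨?_, ?_⟩
    · simp [Walk.cons_isPath_iff]
    · simp
  exact girth_le_length hc

end Pool.Agent.V1170.DM.Q2
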