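import Mathlib

set_option autoImplicit false

namespace Pool.Agent.V1170.Psd

lemma psd_of_cert {n : ℕ} (S U R : Fin n → Fin n → ℤ) (N : ℤ) (hN : 0 < N)
    (hR : ∀ i j, R i j = N ^ 2 * S i j - ∑ k, U k i * U k j)
    (hsymm : ∀ i j, R i j = R j i)
    (hdd : ∀ i, ∑ j, |R i j| ≤ 2 * R i i) (x : Fin n → ℝ) :
    0 ≤ ∑ i, ∑ j, (S i j : ℝ) * x i * x j := by
  have hN' : (0 : ℝ) < N := by exact_mod_cast hN
  have h1 : (N : ℝ) ^ 2 * ∑ i, ∑ j, (S i j : ℝ) * x i * x j
      = ∑ i, ∑ j, (∑ k, (U k i : ℝ) * U k j) * x i * x j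
        + ∑ i, ∑ j, (R i j : ℝ) * x i * x j := by
    rw [Finset.mul_sum, ← Finset.sum_add_distrib]
    refine Finset.sum_congr rfl fun i _ => ?_
    rw [Finset.mul_sum, ← Finset.sum_add_distrib]
    refine Finset.sum_congr rfl fun j _ => ?_
    have : (R i j : ℝ) = (N : ℝ) ^ 2 * S i j - ∑ k, (U k i : ℝ) * U k j := by
      rw [hR i j]; push_cast; ring
    rw [this]; ring
  have h2 : ∑ i, ∑ j, (∑ k, (U k i : ℝ) * U k j) * x i * x j
      = ∑ k, (∑ i, (U k i : ℝ) * x i) ^ 2 := by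
    simp only [sq, Finset.sum_mul_sum]
    simp only [Finset.sum_mul]
    rw [Finset.sum_congr rfl (fun i _ => Finset.sum_comm)]
    rw [Finset.sum_comm]
    refine Finset.sum_congr rfl fun k _ => Finset.sum_congr rfl fun i _ =>
      Finset.sum_congr rfl fun j _ => ?_
    ring
  have h3 : 0 ≤ ∑ i, ∑ j, (R i j : ℝ) * x i * x j := by
    have h4 : ∀ i j, -(|(R i j : ℝ)| * x i ^ 2 / 2) - |(R i j : ℝ)| * x j ^ 2 / 2
        + (if i = j then 2 * (R i i : ℝ) * x i ^ 2 else 0) ≤ (R i j : ℝ) * x i * x j := by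
      intro i j
      by_cases hij : i = j
      · subst hij
        have hpos : (0 : ℝ) ≤ R i i := by
          have h5 := hdd i
          have h6 : 0 ≤ ∑ j, |R i j| := Finset.sum_nonneg fun j _ => abs_nonneg _
          have : 0 ≤ R i i := by omega
          exact_mod_cast this
        rw [if_pos rfl, abs_of_nonneg hpos]
        nlinarith
      · rw [if_neg hij]
        have h5 : -(|(R i j : ℝ)| * (|x i| * |x j|)) ≤ (R i j : ℝ) * x i * x j := by
          have := neg_abs_le ((R i j : ℝ) * x i * x j)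
          rw [abs_mul, abs_mul] at this
          linarith
        have h6 : |x i| * |x j| ≤ x i ^ 2 / 2 + x j ^ 2 / 2 := by
          have := sq_nonneg (|x i| - |x j|)
          have h7 := sq_abs (x i)
          have h8 := sq_abs (x j)
          nlinarith
        have h7 := mul_le_mul_of_nonneg_left h6 (abs_nonneg (R i j : ℝ))
        linarith
    have h5 : 0 ≤ ∑ i, ∑ j, (-(|(R i j : ℝ)| * x i ^ 2 / 2) - |(R i j : ℝ)| * x j ^ 2 / 2
        + (if i = j then 2 * (R i i : ℝ) * x i ^ 2 else 0)) := by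
      simp only [Finset.sum_add_distrib, Finset.sum_sub_distrib]
      have h6 : ∑ i, ∑ j, |(R i j : ℝ)| * x j ^ 2 / 2 = ∑ i, ∑ j, |(R i j : ℝ)| * x i ^ 2 / 2 := by
        rw [Finset.sum_comm]
        refine Finset.sum_congr rfl fun i _ => Finset.sum_congr rfl fun j _ => ?_
        rw [hsymm j i]
      rw [h6]
      have h7 : ∑ i : Fin n, ∑ j : Fin n, (if i = j then 2 * (R i i : ℝ) * x i ^ 2 else 0)
          = ∑ i, 2 * (R i i : ℝ) * x i ^ 2 := by
        refine Finset.sum_congr rfl fun i _ => ?_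
        rw [Finset.sum_ite_eq]; simp
      rw [h7]
      have h8 : ∑ i, ∑ j, -(|(R i j : ℝ)| * x i ^ 2 / 2) - ∑ i, ∑ j, |(R i j : ℝ)| * x i ^ 2 / 2
          + ∑ i, 2 * (R i i : ℝ) * x i ^ 2
          = ∑ i, (2 * (R i i : ℝ) - ∑ j, |(R i j : ℝ)|) * x i ^ 2 := by
        rw [← Finset.sum_sub_distrib, ← Finset.sum_add_distrib]
        refine Finset.sum_congr rfl fun i _ => ?_
        rw [← Finset.sum_sub_distrib, sub_mul, Finset.sum_mul, add_comm, sub_eq_add_neg,
          ← Finset.sum_neg_distrib]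
        congr 1
        refine Finset.sum_congr rfl fun j _ => ?_
        ring
      rw [h8]
      refine Finset.sum_nonneg fun i _ => mul_nonneg ?_ (sq_nonneg _)
      have h9 := hdd i
      have h10 : ((∑ j, |R i j| : ℤ) : ℝ) ≤ ((2 * R i i : ℤ) : ℝ) := by exact_mod_cast h9
      push_cast at h10
      linarith
    exact h5.trans (Finset.sum_le_sum fun i _ => Finset.sum_le_sum fun j _ => h4 i j)
  have h4 : 0 ≤ (N : ℝ) ^ 2 * ∑ i, ∑ j, (S i j : ℝ) * x i * x j := by
    rw [h1, h2]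
    exact add_nonneg (Finset.sum_nonneg fun k _ => sq_nonneg _) h3
  exact nonneg_of_mul_nonneg_right h4 (by positivity)


end Pool.Agent.V1170.Psd
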