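import Pool.Agent.V1170.PsdCert

set_option autoImplicit false

namespace Pool.Agent.V1170.Spread

open Matrix

/-- Out-degree of `i` in the digraph with arc relation `E`. -/
noncomputable def outDeg {n : ℕ} (E : Fin n → Fin n → Prop) (i : Fin n) : ℕ :=
  {j | E i j}.ncard

/-- In-degree of `i`. -/
noncomputable def inDeg {n : ℕ} (E : Fin n → Fin n → Prop) (i : Fin n) : ℕ :=
  {j | E j i}.ncard

/-- The digraph with arc relation `E` has no loops and in-degrees equal to out-degrees. -/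
def IsBalancedDigraph {n : ℕ} (E : Fin n → Fin n → Prop) : Prop :=
  (∀ i, ¬ E i i) ∧ ∀ i, inDeg E i = outDeg E i

/-- The complement digraph. -/
def complD {n : ℕ} (E : Fin n → Fin n → Prop) : Fin n → Fin n → Prop :=
  fun i j => i ≠ j ∧ ¬ E i j

open Classical in
/-- The Laplacian `L = D - A`, `D` the diagonal matrix of out-degrees. -/
noncomputable def lap {n : ℕ} (E : Fin n → Fin n → Prop) : Matrix (Fin n) (Fin n) ℝ :=
  fun i j => (if i = j then (outDeg E i : ℝ) else 0) - (if E i j then 1 else 0)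

/-- The algebraic connectivity: the minimum of `xᵀ L x` over real unit vectors `x ⟂ (1,…,1)`
(written as an infimum). -/
noncomputable def alpha {n : ℕ} (E : Fin n → Fin n → Prop) : ℝ :=
  sInf {r : ℝ | ∃ x : Fin n → ℝ, ∑ i, x i = 0 ∧ ∑ i, x i ^ 2 = 1 ∧ r = x ⬝ᵥ (lap E).mulVec x}

def tabE : List (List ℤ) := [
  [0, 0, 1, 0, 0, 0, 0, 0, 0, 0],
  [1, 0, 1, 0, 0, 0, 0, 0, 0, 0],
  [0, 1, 0, 1, 1, 1, 1, 1, 1, 1],
  [0, 1, 0, 0, 1, 1, 1, 1, 1, 1],
  [0, 0, 1, 1, 0, 0, 0, 0, 0, 0],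
  [0, 0, 1, 1, 0, 0, 0, 0, 0, 0],
  [0, 0, 1, 1, 0, 0, 0, 0, 0, 0],
  [0, 0, 1, 1, 0, 0, 0, 0, 0, 0],
  [0, 0, 1, 1, 0, 0, 0, 0, 0, 0],
  [0, 0, 1, 1, 0, 0, 0, 0, 0, 0]]

def tabU1 : List (List ℤ) := [
  [30, 0, 0, 21, 21, 21, 21, 21, 21, 21],
  [0, 46, -14, 0, 14, 14, 14, 14, 14, 14],
  [0, 0, 97, 0, -5, -5, -5, -5, -5, -5],
  [0, 0, 0, 89, -12, -12, -12, -12, -12, -12],
  [0, 0, 0, 0, 37, -4, -4, -4, -4, -4],
  [0, 0, 0, 0, 0, 36, -5, -5, -5, -5],
  [0, 0, 0, 0, 0, 0, 36, -6, -6, -6],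
  [0, 0, 0, 0, 0, 0, 0, 36, -7, -7],
  [0, 0, 0, 0, 0, 0, 0, 0, 35, -8],
  [0, 0, 0, 0, 0, 0, 0, 0, 0, 34]]

def tabU2 : List (List ℤ) := [
  [79, 0, 0, -5, -5, -5, -5, -5, -5, -5],
  [0, 73, 5, 0, -5, -5, -5, -5, -5, -5],
  [0, 0, 23, 0, 19, 19, 19, 19, 19, 19],
  [0, 0, 0, 37, 10, 10, 10, 10, 10, 10],
  [0, 0, 0, 0, 70, -13, -13, -13, -13, -13],
  [0, 0, 0, 0, 0, 69, -16, -16, -16, -16],
  [0, 0, 0, 0, 0, 0, 67, -20, -20, -20],
  [0, 0, 0, 0, 0, 0, 0, 64, -27, -27],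
  [0, 0, 0, 0, 0, 0, 0, 0, 58, -42],
  [0, 0, 0, 0, 0, 0, 0, 0, 0, 40]]


def ez (i j : Fin 10) : ℤ := (tabE.getD i []).getD j 0
def u1 (i j : Fin 10) : ℤ := (tabU1.getD i []).getD j 0
def u2 (i j : Fin 10) : ℤ := (tabU2.getD i []).getD j 0

/-- The arc relation of the example. -/
def E (i j : Fin 10) : Prop := ez i j = 1

instance : DecidableRel E := fun i j => inferInstanceAs (Decidable (ez i j = 1))

/-- Integer version of the complement. -/
def cz (i j : Fin 10) : ℤ := if i = j then 0 else 1 - ez i j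

/-- Integer Laplacian of an integer 0/1 matrix. -/
def lz (m : Fin 10 → Fin 10 → ℤ) (i j : Fin 10) : ℤ := (if i = j then ∑ k, m i k else 0) - m i j

lemma ez01 : ∀ i j : Fin 10, ez i j = 0 ∨ ez i j = 1 := by decide +kernel

lemma ez_diag : ∀ i : Fin 10, ez i i = 0 := by decide +kernel

lemma cz_iff (i j : Fin 10) : complD E i j ↔ cz i j = 1 := by
  unfold complD cz E
  by_cases h : i = j
  · simp [h]
  · rcases ez01 i j with h1 | h1 <;> simp [h, h1]

lemma ncard_eq (m : Fin 10 → Fin 10 → ℤ) (hm : ∀ i j, m i j = 0 ∨ m i j = 1)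
    (F : Fin 10 → Fin 10 → Prop) (hF : ∀ i j, F i j ↔ m i j = 1) (i : Fin 10) :
    ((outDeg F i : ℕ) : ℤ) = ∑ k, m i k := by
  classical
  unfold outDeg
  have h1 : {j | F i j} = ((Finset.univ.filter (fun j => m i j = 1) : Finset (Fin 10)) : Set (Fin 10)) := by
    ext j; simp [hF]
  rw [h1, Set.ncard_coe_finset, Finset.card_filter]
  push_cast
  refine Finset.sum_congr rfl fun k _ => ?_
  rcases hm i k with h | h <;> simp [h]

lemma ncard_eq' (m : Fin 10 → Fin 10 → ℤ) (hm : ∀ i j, m i j = 0 ∨ m i j = 1)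
    (F : Fin 10 → Fin 10 → Prop) (hF : ∀ i j, F i j ↔ m i j = 1) (i : Fin 10) :
    ((inDeg F i : ℕ) : ℤ) = ∑ k, m k i := by
  classical
  unfold inDeg
  have h1 : {j | F j i} = ((Finset.univ.filter (fun j => m j i = 1) : Finset (Fin 10)) : Set (Fin 10)) := by
    ext j; simp [hF]
  rw [h1, Set.ncard_coe_finset, Finset.card_filter]
  push_cast
  refine Finset.sum_congr rfl fun k _ => ?_
  rcases hm k i with h | h <;> simp [h]

lemma lap_eq (m : Fin 10 → Fin 10 → ℤ) (hm : ∀ i j, m i j = 0 ∨ m i j = 1)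
    (F : Fin 10 → Fin 10 → Prop) (hF : ∀ i j, F i j ↔ m i j = 1) (i j : Fin 10) :
    lap F i j = (lz m i j : ℝ) := by
  classical
  unfold lap lz
  have h1 := ncard_eq m hm F hF i
  have h2 : (outDeg F i : ℝ) = ((∑ k, m i k : ℤ) : ℝ) := by
    rw [← h1]; push_cast; rfl
  rw [h2]
  have h3 : (if F i j then (1 : ℝ) else 0) = (m i j : ℝ) := by
    rcases hm i j with h | h
    · rw [if_neg, h]; · simp
      rw [hF, h]; norm_num
    · rw [if_pos, h]; · simp
      rw [hF, h]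
  rw [h3]
  by_cases h : i = j
  · simp only [h, if_true]; push_cast; ring
  · simp only [h, if_false]; push_cast; ring

lemma quad_eq (m : Fin 10 → Fin 10 → ℤ) (hm : ∀ i j, m i j = 0 ∨ m i j = 1)
    (F : Fin 10 → Fin 10 → Prop) (hF : ∀ i j, F i j ↔ m i j = 1) (x : Fin 10 → ℝ) :
    x ⬝ᵥ (lap F).mulVec x = ∑ i, ∑ j, (lz m i j : ℝ) * x i * x j := by
  simp only [dotProduct, Matrix.mulVec, Finset.mul_sum]
  refine Finset.sum_congr rfl fun i _ => Finset.sum_congr rfl fun j _ => ?_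
  rw [lap_eq m hm F hF i j]; ring

/-- Lower and upper bounds for the algebraic connectivity from certificates. -/
lemma alpha_bounds (m : Fin 10 → Fin 10 → ℤ) (hm : ∀ i j, m i j = 0 ∨ m i j = 1)
    (F : Fin 10 → Fin 10 → Prop) (hF : ∀ i j, F i j ↔ m i j = 1)
    (hpsd : ∀ x : Fin 10 → ℝ, 0 ≤ ∑ i, ∑ j,
      ((lz m i j + lz m j i - (if i = j then 1 else 0) + 1 : ℤ) : ℝ) * x i * x j)
    (v : Fin 10 → ℤ) (hv0 : ∑ i, v i = 0) (hv1 : ∑ i, v i ^ 2 = 1872)
    (hv2 : ∑ i, ∑ j, lz m i j * v i * v j = 1618) :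
    1 / 2 ≤ alpha F ∧ alpha F ≤ 809 / 936 := by
  have hlow : ∀ r ∈ {r : ℝ | ∃ x : Fin 10 → ℝ, ∑ i, x i = 0 ∧ ∑ i, x i ^ 2 = 1 ∧
      r = x ⬝ᵥ (lap F).mulVec x}, 1 / 2 ≤ r := by
    rintro r ⟨x, hx0, hx1, rfl⟩
    rw [quad_eq m hm F hF x]
    have h := hpsd x
    have key : ∑ i, ∑ j, ((lz m i j + lz m j i - (if i = j then 1 else 0) + 1 : ℤ) : ℝ) * x i * x j
        = 2 * ∑ i, ∑ j, (lz m i j : ℝ) * x i * x j - ∑ i, x i ^ 2 + (∑ i, x i) ^ 2 := by
      have s1 : (∑ i, x i) ^ 2 = ∑ i, ∑ j, x i * x j := by rw [sq, Finset.sum_mul_sum]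
      have s2 : ∑ i, x i ^ 2 = ∑ i, ∑ j, (if i = j then (1 : ℝ) else 0) * x i * x j := by
        refine Finset.sum_congr rfl fun i _ => ?_
        simp [sq]
      have s3 : ∑ i, ∑ j, (lz m i j : ℝ) * x i * x j = ∑ i, ∑ j, (lz m j i : ℝ) * x i * x j := by
        rw [Finset.sum_comm]
        refine Finset.sum_congr rfl fun i _ => Finset.sum_congr rfl fun j _ => ?_
        ring
      have s4 : 2 * ∑ i, ∑ j, (lz m i j : ℝ) * x i * x j
          = ∑ i, ∑ j, (lz m i j : ℝ) * x i * x j + ∑ i, ∑ j, (lz m j i : ℝ) * x i * x j := by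
        rw [← s3]; ring
      rw [s4, s1, s2]
      simp only [← Finset.sum_add_distrib, ← Finset.sum_sub_distrib]
      refine Finset.sum_congr rfl fun i _ => Finset.sum_congr rfl fun j _ => ?_
      push_cast
      ring
    rw [key, hx0, hx1] at h
    linarith
  have hs : (0 : ℝ) < √1872 := Real.sqrt_pos.mpr (by norm_num)
  have hs2 : √(1872 : ℝ) ^ 2 = 1872 := Real.sq_sqrt (by norm_num)
  have hmem : (809 / 936 : ℝ) ∈ {r : ℝ | ∃ x : Fin 10 → ℝ, ∑ i, x i = 0 ∧ ∑ i, x i ^ 2 = 1 ∧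
      r = x ⬝ᵥ (lap F).mulVec x} := by
    refine ⟨fun i => (v i : ℝ) / √1872, ?_, ?_, ?_⟩
    · rw [← Finset.sum_div]
      have : ∑ i, (v i : ℝ) = 0 := by exact_mod_cast hv0
      rw [this, zero_div]
    · simp only [div_pow, hs2]
      rw [← Finset.sum_div]
      have : ∑ i, (v i : ℝ) ^ 2 = 1872 := by exact_mod_cast hv1
      rw [this]; norm_num
    · rw [quad_eq m hm F hF]
      have : ∑ i, ∑ j, (lz m i j : ℝ) * ((v i : ℝ) / √1872) * ((v j : ℝ) / √1872)
          = (∑ i, ∑ j, (lz m i j : ℝ) * v i * v j) / 1872 := by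
        rw [Finset.sum_div]
        refine Finset.sum_congr rfl fun i _ => ?_
        rw [Finset.sum_div]
        refine Finset.sum_congr rfl fun j _ => ?_
        field_simp
        rw [hs2]
        ring
      rw [this]
      have h2 : ∑ i, ∑ j, (lz m i j : ℝ) * v i * v j = 1618 := by exact_mod_cast hv2
      rw [h2]; norm_num
  refine ⟨le_csInf ⟨_, hmem⟩ hlow, csInf_le ⟨1 / 2, hlow⟩ hmem⟩

def listV : List ℤ := [37, 13, -2, -6, -7, -7, -7, -7, -7, -7]
def listV' : List ℤ := [-2, -6, 37, 13, -7, -7, -7, -7, -7, -7]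
def v1 (i : Fin 10) : ℤ := listV.getD i 0
def v2 (i : Fin 10) : ℤ := listV'.getD i 0

def s1 (i j : Fin 10) : ℤ := lz ez i j + lz ez j i - (if i = j then 1 else 0) + 1
def s2 (i j : Fin 10) : ℤ := lz cz i j + lz cz j i - (if i = j then 1 else 0) + 1
def r1 (i j : Fin 10) : ℤ := 25 ^ 2 * s1 i j - ∑ k, u1 k i * u1 k j
def r2 (i j : Fin 10) : ℤ := 20 ^ 2 * s2 i j - ∑ k, u2 k i * u2 k j

lemma r1_symm : ∀ i j : Fin 10, r1 i j = r1 j i := by decide +kernel
lemma r1_dd : ∀ i : Fin 10, (∑ j : Fin 10, |r1 i j|) ≤ 2 * r1 i i := by decide +kernel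
lemma r2_symm : ∀ i j : Fin 10, r2 i j = r2 j i := by decide +kernel
lemma r2_dd : ∀ i : Fin 10, (∑ j : Fin 10, |r2 i j|) ≤ 2 * r2 i i := by decide +kernel

lemma cz01 : ∀ i j : Fin 10, cz i j = 0 ∨ cz i j = 1 := by decide +kernel

lemma b1 : 1 / 2 ≤ alpha E ∧ alpha E ≤ 809 / 936 := by
  refine alpha_bounds ez ez01 E (fun i j => Iff.rfl) ?_ v1 (by decide +kernel) (by decide +kernel)
    (by decide +kernel)
  intro x
  exact Psd.psd_of_cert s1 u1 r1 25 (by norm_num) (fun i j => rfl) r1_symm r1_dd x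

lemma b2 : 1 / 2 ≤ alpha (complD E) ∧ alpha (complD E) ≤ 809 / 936 := by
  refine alpha_bounds cz cz01 (complD E) cz_iff ?_ v2 (by decide +kernel) (by decide +kernel)
    (by decide +kernel)
  intro x
  exact Psd.psd_of_cert s2 u2 r2 20 (by norm_num) (fun i j => rfl) r2_symm r2_dd x

lemma bal : IsBalancedDigraph E := by
  refine ⟨fun i h => ?_, fun i => ?_⟩
  · have := ez_diag i
    unfold E at h
    omega
  · have h1 := ncard_eq ez ez01 E (fun i j => Iff.rfl) i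
    have h2 := ncard_eq' ez ez01 E (fun i j => Iff.rfl) i
    have h3 : ∀ i : Fin 10, (∑ k : Fin 10, ez k i) = ∑ k : Fin 10, ez i k := by decide +kernel
    rw [h3 i] at h2
    exact_mod_cast h2.trans h1.symm

theorem main : ∃ (n : ℕ) (E : Fin n → Fin n → Prop), 2 ≤ n ∧ IsBalancedDigraph E ∧
    alpha E ≠ 0 ∧ alpha (complD E) ≠ 0 ∧ alpha E ≤ 1 ∧ alpha (complD E) ≤ 1 ∧
    alpha E * alpha (complD E) * (2 - alpha E * alpha (complD E))
      < n * (1 - alpha E) * (1 - alpha (complD E)) * (n - 2 - alpha E - alpha (complD E)) := by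
  refine ⟨10, E, by norm_num, bal, ?_, ?_, ?_, ?_, ?_⟩
  · have := b1.1; linarith
  · have := b2.1; linarith
  · have := b1.2; linarith
  · have := b2.2; linarith
  · obtain ⟨h1, h2⟩ := b1
    obtain ⟨h3, h4⟩ := b2
    set x := alpha E
    set y := alpha (complD E)
    push_cast
    set X : ℝ := 809 / 936 with hX
    have hX1 : X ≤ 1 := by rw [hX]; norm_num
    have hx1 : x ≤ 1 := h2.trans hX1
    have hy1 : y ≤ 1 := h4.trans hX1
    -- left side is at most the value at X, right side at least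
    have hp : x * y ≤ X * X := mul_le_mul h2 h4 (by linarith) (by norm_num)
    have hp0 : 0 ≤ x * y := mul_nonneg (by linarith) (by linarith)
    have hL : x * y * (2 - x * y) ≤ X * X * (2 - X * X) := by
      have : X * X ≤ 1 := by norm_num
      nlinarith
    have hR1 : (1 - X) * (1 - X) ≤ (1 - x) * (1 - y) :=
      mul_le_mul (by linarith) (by linarith) (by norm_num) (by linarith)
    have hR2 : (10 : ℝ) - 2 - X - X ≤ 10 - 2 - x - y := by linarith
    have hR : 10 * ((1 - X) * (1 - X)) * (10 - 2 - X - X)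
        ≤ 10 * ((1 - x) * (1 - y)) * (10 - 2 - x - y) := by
      apply mul_le_mul _ hR2 (by norm_num)
      · have : 0 ≤ (1 - x) * (1 - y) := mul_nonneg (by linarith) (by linarith)
        linarith
      · linarith
    have hfin : X * X * (2 - X * X) < 10 * ((1 - X) * (1 - X)) * (10 - 2 - X - X) := by
      rw [hX]; norm_num
    calc x * y * (2 - x * y) ≤ _ := hL
      _ < _ := hfin
      _ ≤ _ := hR
      _ = _ := by ring

end Pool.Agent.V1170.Spread
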